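import Pool.Agent.H308R2.ZS.Stubs

/-! Task REL: the relations between the generators of the dimension drop algebra. -/

set_option autoImplicit false

open scoped ComplexConjugate Kronecker Matrix.Norms.L2Operator

namespace Pool.Agent.H308R2.ZS.T_REL

open Pool.Agent.H923R2.FP Pool.Agent.H923R2.FZ Pool.Agent.H308R2.ZS

/-- weight -/
noncomputable def wt (n : ℕ) (c : ℝ) (k : Fin (n + 2)) : ℂ := if k = Fin.last (n + 1) then (c : ℂ) else 1

theorem D0_apply (n : ℕ) (i j : Fin (n + 1)) (c : ℝ) (p q : Ix n) :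
    D0 n i j c p q = if p.1 = i ∧ q.1 = j ∧ p.2 = q.2 then wt n c p.2 else 0 := rfl

theorem V0_apply (n : ℕ) (c : ℝ) (p q : Ix n) :
    V0 n c p q = if p.1 = 0 ∧ q.2 = Fin.last (n + 1) ∧ p.2 = q.1.castSucc then (c : ℂ) else 0 := rfl

theorem star_apply' (n : ℕ) (M : MM n) (p q : Ix n) : (star M) p q = conj (M q p) := rfl

theorem conj_wt (n : ℕ) (c : ℝ) (k : Fin (n + 2)) : conj (wt n c k) = wt n c k := by
  unfold wt
  split_ifs
  · exact Complex.conj_ofReal c
  · exact map_one _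

theorem wt_mul (n : ℕ) (c d : ℝ) (k : Fin (n + 2)) : wt n c k * wt n d k = wt n (c * d) k := by
  unfold wt
  split_ifs
  · push_cast; rfl
  · exact mul_one _

theorem star_D0 (n : ℕ) (i j : Fin (n + 1)) (c : ℝ) : star (D0 n i j c) = D0 n j i c := by
  ext p q
  rw [star_apply', D0_apply, D0_apply]
  by_cases h : p.1 = j ∧ q.1 = i ∧ p.2 = q.2
  · rw [if_pos h, if_pos ⟨h.2.1, h.1, h.2.2.symm⟩, conj_wt, h.2.2]
  · rw [if_neg h, if_neg (fun h' => h ⟨h'.2.1, h'.1, h'.2.2.symm⟩), map_zero]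

theorem D0_mul (n : ℕ) (i j k l : Fin (n + 1)) (c d : ℝ) :
    D0 n i j c * D0 n k l d = if j = k then D0 n i l (c * d) else 0 := by
  ext p q
  rw [Matrix.mul_apply, Finset.sum_eq_single ((j, p.2) : Ix n)]
  · rw [D0_apply, D0_apply]
    by_cases hjk : j = k
    · rw [if_pos hjk, D0_apply]
      by_cases h : p.1 = i ∧ q.1 = l ∧ p.2 = q.2
      · rw [if_pos ⟨h.1, rfl, rfl⟩, if_pos ⟨hjk, h.2.1, h.2.2⟩, if_pos h]
        exact wt_mul n c d p.2
      · rw [if_neg h]
        by_cases h1 : p.1 = i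
        · rw [if_neg (fun h' : (j, p.2).1 = k ∧ q.1 = l ∧ (j, p.2).2 = q.2 =>
            h ⟨h1, h'.2.1, h'.2.2⟩), mul_zero]
        · rw [if_neg (fun h' : p.1 = i ∧ (j, p.2).1 = j ∧ p.2 = (j, p.2).2 => h1 h'.1), zero_mul]
    · rw [if_neg hjk, if_neg (fun h' : (j, p.2).1 = k ∧ q.1 = l ∧ (j, p.2).2 = q.2 => hjk h'.1),
        mul_zero]
      rfl
  · intro r _ hr
    rw [D0_apply]
    by_cases h : p.1 = i ∧ r.1 = j ∧ p.2 = r.2
    · exact absurd (Prod.ext h.2.1 h.2.2.symm : r = ((j, p.2) : Ix n)) hr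
    · rw [if_neg h, zero_mul]
  · intro h
    exact absurd (Finset.mem_univ _) h

theorem sum_D0 (n : ℕ) (c : ℝ) (p q : Ix n) :
    (∑ m, D0 n m m c) p q = if p = q then wt n c p.2 else 0 := by
  rw [Matrix.sum_apply, Finset.sum_eq_single p.1]
  · rw [D0_apply]
    by_cases h : p = q
    · rw [if_pos h, if_pos ⟨rfl, by rw [h], by rw [h]⟩]
    · rw [if_neg h, if_neg (fun h' : p.1 = p.1 ∧ q.1 = p.1 ∧ p.2 = q.2 =>
        h (Prod.ext h'.2.1.symm h'.2.2))]
  · intro m _ hm
    rw [D0_apply, if_neg (fun h' => hm h'.1.symm)]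
  · intro h
    exact absurd (Finset.mem_univ _) h

theorem V0_V0 (n : ℕ) (t : ℝ) (ht : 0 ≤ t) :
    star (V0 n (Real.sqrt t)) * V0 n (Real.sqrt t) = 1 - ∑ m, D0 n m m (1 - t) := by
  ext p q
  rw [Matrix.mul_apply, Matrix.sub_apply, sum_D0, Matrix.one_apply,
    Finset.sum_eq_single ((0, p.1.castSucc) : Ix n)]
  · rw [star_apply', V0_apply, V0_apply]
    have hs : conj ((Real.sqrt t : ℝ) : ℂ) * ((Real.sqrt t : ℝ) : ℂ) = (t : ℂ) := by
      rw [Complex.conj_ofReal, ← Complex.ofReal_mul, Real.mul_self_sqrt ht]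
    by_cases hp : p.2 = Fin.last (n + 1)
    · rw [if_pos ⟨rfl, hp, rfl⟩]
      by_cases hpq : p = q
      · rw [if_pos ⟨rfl, hpq ▸ hp, by rw [hpq]⟩, if_pos hpq, if_pos hpq, hs]
        unfold wt
        rw [if_pos hp]
        push_cast
        ring
      · rw [if_neg, if_neg hpq, if_neg hpq, mul_zero, sub_zero]
        rintro ⟨-, h2, h3⟩
        exact hpq (Prod.ext (Fin.castSucc_injective _ h3) (hp.trans h2.symm))
    · rw [if_neg (fun h' : ((0, p.1.castSucc) : Ix n).1 = 0 ∧ p.2 = Fin.last (n + 1) ∧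
        ((0, p.1.castSucc) : Ix n).2 = p.1.castSucc => hp h'.2.1), map_zero, zero_mul]
      by_cases hpq : p = q
      · rw [if_pos hpq, if_pos hpq]
        unfold wt
        rw [if_neg hp, sub_self]
      · rw [if_neg hpq, if_neg hpq, sub_zero]
  · intro r _ hr
    rw [star_apply', V0_apply]
    by_cases h : r.1 = 0 ∧ p.2 = Fin.last (n + 1) ∧ r.2 = p.1.castSucc
    · exact absurd (Prod.ext h.1 h.2.2) hr
    · rw [if_neg h, map_zero, zero_mul]
  · intro h
    exact absurd (Finset.mem_univ _) h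

theorem D0_V0 (n : ℕ) (c s : ℝ) : D0 n 0 0 c * V0 n s = V0 n s := by
  ext p q
  rw [Matrix.mul_apply, Finset.sum_eq_single ((0, p.2) : Ix n)]
  · rw [D0_apply, V0_apply, V0_apply]
    by_cases h : p.1 = 0 ∧ q.2 = Fin.last (n + 1) ∧ p.2 = q.1.castSucc
    · rw [if_pos ⟨h.1, rfl, rfl⟩, if_pos ⟨rfl, h.2.1, h.2.2⟩, if_pos h]
      unfold wt
      rw [if_neg (by rw [h.2.2]; exact (Fin.castSucc_lt_last _).ne), one_mul]
    · rw [if_neg h]
      by_cases h1 : p.1 = 0
      · rw [if_neg (fun h' : ((0, p.2) : Ix n).1 = 0 ∧ q.2 = Fin.last (n + 1) ∧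
          ((0, p.2) : Ix n).2 = q.1.castSucc => h ⟨h1, h'.2.1, h'.2.2⟩), mul_zero]
      · rw [if_neg (fun h' : p.1 = 0 ∧ ((0, p.2) : Ix n).1 = 0 ∧ p.2 = ((0, p.2) : Ix n).2 =>
          h1 h'.1), zero_mul]
  · intro r _ hr
    rw [D0_apply]
    by_cases h : p.1 = 0 ∧ r.1 = 0 ∧ p.2 = r.2
    · exact absurd (Prod.ext h.2.1 h.2.2.symm : r = ((0, p.2) : Ix n)) hr
    · rw [if_neg h, zero_mul]
  · intro h
    exact absurd (Finset.mem_univ _) h

/-- evaluation -/
noncomputable def ev (n : ℕ) (t : unitInterval) : dimDrop n →+* MM n where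
  toFun x := (x : C(unitInterval, MM n)) t
  map_one' := rfl
  map_mul' _ _ := rfl
  map_zero' := rfl
  map_add' _ _ := rfl

theorem ev_star (n : ℕ) (t : unitInterval) (x : dimDrop n) : ev n t (star x) = star (ev n t x) := rfl

theorem ev_ext (n : ℕ) (x y : dimDrop n) (h : ∀ t, ev n t x = ev n t y) : x = y :=
  Subtype.ext (ContinuousMap.ext h)

section cj

variable {R : Type} [Ring R] [StarRing R] (W : R) (h : star W * W = 1)

include h in
theorem cmul (a b : R) : (W * a * star W) * (W * b * star W) = W * (a * b) * star W := by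
  calc (W * a * star W) * (W * b * star W) = W * a * (star W * W) * b * star W := by noncomm_ring
    _ = _ := by rw [h]; noncomm_ring

theorem cstar (a : R) : star (W * a * star W) = W * star a * star W := by
  rw [star_mul, star_mul, star_star, mul_assoc]

theorem csum {ι : Type} (s : Finset ι) (a : ι → R) :
    ∑ i ∈ s, W * a i * star W = W * (∑ i ∈ s, a i) * star W := by
  rw [Finset.mul_sum, Finset.sum_mul]

end cj

theorem t_REL (hWU : S_WU) : S_REL := by
  intro n φ k v hV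
  obtain ⟨-, -, -, -, -, -, -, hW⟩ := hWU n
  have hph : ∀ i j t, ev n t (φ i j) = WW n t * D0 n i j (1 - t) * star (WW n t) := hV.ph
  have hkh : ∀ i t, ev n t (k i) = WW n t * D0 n i i (Real.sqrt (1 - t)) * star (WW n t) := hV.kh
  have hvh : ∀ t, ev n t v = WW n t * V0 n (Real.sqrt t) * star (WW n t) := hV.vh
  have hsum : ∀ t, ev n t (∑ m, φ m m) = WW n t * (∑ m, D0 n m m (1 - t)) * star (WW n t) := by
    intro t
    rw [map_sum]
    simp only [hph]
    exact csum _ _ _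
  refine ⟨?_, ?_, ?_, ?_, ?_, ?_⟩
  · intro i j
    refine ev_ext n _ _ fun t => ?_
    rw [ev_star, hph, hph, cstar, star_D0]
  · intro i j a l
    refine ev_ext n _ _ fun t => ?_
    rw [map_mul, hph, hph, cmul _ (hW t).2, D0_mul]
    by_cases hja : j = a
    · rw [if_pos hja, if_pos hja, map_mul, hsum, hph, cmul _ (hW t).2, Finset.sum_mul]
      congr 2
      rw [Finset.sum_eq_single i]
      · rw [D0_mul, if_pos rfl]
      · intro m _ hm
        rw [D0_mul, if_neg hm]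
      · intro h
        exact absurd (Finset.mem_univ _) h
    · rw [if_neg hja, if_neg hja, map_zero, mul_zero, zero_mul]
  · refine ev_ext n _ _ fun t => ?_
    rw [map_mul, ev_star, hvh, cstar, cmul _ (hW t).2, V0_V0 n t t.2.1, map_sub, hsum, map_one,
      mul_sub, mul_one, sub_mul, (hW t).1]
  · refine ev_ext n _ _ fun t => ?_
    rw [map_mul, hph, hvh, cmul _ (hW t).2, D0_V0]
  · intro i
    refine ev_ext n _ _ fun t => ?_
    rw [ev_star, hkh, cstar, star_D0]
  · intro i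
    refine ev_ext n _ _ fun t => ?_
    rw [map_mul, hkh, hph, cmul _ (hW t).2, D0_mul, if_pos rfl, Real.mul_self_sqrt]
    linarith [t.2.2]

end Pool.Agent.H308R2.ZS.T_REL
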