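import Mathlib

/-!
# Cell-like catalytic P systems
-/

set_option autoImplicit false

namespace Pool.Agent.H700R2.Pcat

/-! ## P systems -/

/-- Targets of produced objects. -/
inductive Tar
  /-- the object stays in the region -/
  | here
  /-- the object goes to the surrounding region (to the environment from the skin) -/
  | out
  /-- the object enters a nondeterministically chosen child membrane -/
  | inn

/-- A rule: `cat = none` is the noncooperative rule `lhs → rhs`, and `cat = some c` is the
catalytic rule `c lhs → c rhs`. The objects of `rhs` carry targets. -/
structure Rule (O : Type) where
  cat : Option O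
  lhs : O
  rhs : Multiset (O × Tar)

/-- The catalyst used by a rule, which stays in its region (nothing for a noncooperative rule). -/
def Rule.catalyst {O : Type} (r : Rule O) : Multiset O :=
  match r.cat with
  | none => 0
  | some c => {c}

/-- The left-hand side of a rule, as a multiset: the objects occupied by one use of the rule. -/
def Rule.left {O : Type} (r : Rule O) : Multiset O := r.catalyst + {r.lhs}

open Classical in
/-- The objects with target `t` on the right-hand side. -/
noncomputable def Rule.made {O : Type} (r : Rule O) (t : Tar) : Multiset O :=
  (r.rhs.filter fun p => p.2 = t).map Prod.fst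

/-- Total left-hand side of a multiset of rules: the objects occupied by its use. -/
def left {O : Type} (U : Multiset (Rule O)) : Multiset O := (U.map Rule.left).sum

/-- The catalysts used by a multiset of rules. -/
def cats {O : Type} (U : Multiset (Rule O)) : Multiset O := (U.map Rule.catalyst).sum

/-- The objects with target `t` produced by a multiset of rules. -/
noncomputable def made {O : Type} (U : Multiset (Rule O)) (t : Tar) : Multiset O :=
  (U.map fun r => r.made t).sum

/-- A cell-like P system with noncooperative and catalytic rules. -/
structure PSystem where
  /-- the alphabet of objects -/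
  Obj : Type
  finObj : Finite Obj
  /-- the catalysts -/
  Cat : Set Obj
  /-- the membranes, identified with their regions -/
  Mem : Type
  finMem : Fintype Mem
  /-- the root of the membrane structure -/
  skin : Mem
  /-- the membrane immediately outside -/
  parent : Mem → Option Mem
  parent_eq_none : ∀ h, parent h = none ↔ h = skin
  /-- every membrane lies (directly or not) inside the skin -/
  nested : ∀ h, ∃ n, (fun x : Option Mem => x.bind parent)^[n] (some h) = none
  /-- the initial contents of the regions -/
  init : Mem → Multiset Obj
  /-- the rules of the regions -/
  rules : Mem → Set (Rule Obj)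
  finRules : ∀ h, (rules h).Finite
  /-- left- and right-hand sides (apart from the catalyst of a catalytic rule) have no catalysts -/
  rules_ok : ∀ h, ∀ r ∈ rules h,
    r.lhs ∉ Cat ∧ (∀ c, r.cat = some c → c ∈ Cat) ∧ ∀ p ∈ r.rhs, p.1 ∉ Cat
  /-- the output region; `none` is the environment -/
  iout : Option Mem
  iout_elementary : ∀ h, iout = some h → ∀ h', parent h' ≠ some h

attribute [instance] PSystem.finObj PSystem.finMem

namespace PSystem

variable (P : PSystem)

/-- The degree: the number of membranes. -/
def degree : ℕ := Fintype.card P.Mem

open Classical in
/-- The number of catalyst objects in the initial configuration. -/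
noncomputable def numCat : ℕ := ∑ h, (P.init h).countP (· ∈ P.Cat)

/-- A configuration: the contents of the regions, and the objects sent to the environment. -/
structure Config where
  reg : P.Mem → Multiset P.Obj
  env : Multiset P.Obj

/-- The rule `r` can be used in region `h`: it is a rule of `h`, and if it has a target `in`, the
membrane `h` has a child. -/
def Usable (h : P.Mem) (r : Rule P.Obj) : Prop :=
  r ∈ P.rules h ∧ ((∃ p ∈ r.rhs, p.2 = Tar.inn) → ∃ h', P.parent h' = some h)

open Classical in
/-- One step. In each region `h` the multiset `U h` of usable rules is used, `rest h` is the part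
of the contents not occupied by `U h`, and `U h` is maximal: no further use of a usable rule can
be added. The objects with target `in` produced in `h` are distributed among the children of `h`,
`down h'` being the multiset of those that enter `h'`. -/
def Step (Γ Δ : P.Config) : Prop :=
  ∃ (U : P.Mem → Multiset (Rule P.Obj)) (rest down : P.Mem → Multiset P.Obj),
    (∀ h, ∀ r ∈ U h, P.Usable h r) ∧
    (∀ h, Γ.reg h = left (U h) + rest h) ∧
    (∀ h, ∀ r, P.Usable h r → ¬ r.left ≤ rest h) ∧
    down P.skin = 0 ∧
    (∀ h, (∑ h', if P.parent h' = some h then down h' else 0) = made (U h) Tar.inn) ∧
    (∀ h, Δ.reg h = rest h + cats (U h) + made (U h) Tar.here +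
      (∑ h', if P.parent h' = some h then made (U h') Tar.out else 0) + down h) ∧
    Δ.env = Γ.env + made (U P.skin) Tar.out

/-- A configuration is halting if no rule is applicable. -/
def Halting (Γ : P.Config) : Prop := ∀ h, ∀ r, P.Usable h r → ¬ r.left ≤ Γ.reg h

/-- The initial configuration. -/
def start : P.Config := ⟨P.init, 0⟩

/-- The result read from a configuration. -/
def value (Γ : P.Config) : ℕ :=
  match P.iout with
  | some h => Multiset.card (Γ.reg h)
  | none => Multiset.card Γ.env

/-- The set of results of all successful computations. -/
def N : Set ℕ := {n | ∃ H, Relation.ReflTransGen P.Step P.start H ∧ P.Halting H ∧ P.value H = n}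

/-- Every rule is catalytic. -/
def PurelyCatalytic : Prop := ∀ h, ∀ r ∈ P.rules h, ∃ c, r.cat = some c

end PSystem

end Pool.Agent.H700R2.Pcat
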