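import Pool.Agent.H700R2.JacPrimes

/-!
# All rational points of `t² = 1 - 2 s² - 4 s⁴`

The group is generated by `(1/2, 1/2)` and `(0, -1)`.
-/

set_option autoImplicit false
set_option linter.unusedSectionVars false

namespace Pool.Agent.H700R2.Jac

/-! ### Splitting products of coprime numbers -/

theorem split1 {x y z : ℕ} (h : Nat.Coprime x y) (hxy : x * y = z ^ 4) :
    ∃ a b : ℕ, x = a ^ 4 ∧ y = b ^ 4 ∧ a * b = z := by
  have key : ∀ {x y : ℕ}, Nat.Coprime x y → x * y = z ^ 4 → ∃ a, x = a ^ 4 := by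
    intro x y h hxy
    apply exists_eq_pow_of_mul_eq_pow (b := y) (c := z) _ hxy
    rw [gcd_eq_nat_gcd, h]
    exact isUnit_one
  obtain ⟨a, ha⟩ := key h hxy
  obtain ⟨b, hb⟩ := key h.symm (by rw [mul_comm]; exact hxy)
  refine ⟨a, b, ha, hb, ?_⟩
  rw [ha, hb, ← mul_pow] at hxy
  exact Nat.pow_left_injective (by norm_num) hxy

theorem split4 {x y z : ℕ} (h : Nat.Coprime x y) (hxy : x * y = 4 * z ^ 4) :
    ∃ c d : ℕ, c * d = z ∧ ((x = c ^ 4 ∧ y = 4 * d ^ 4) ∨ (x = 4 * d ^ 4 ∧ y = c ^ 4)) := by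
  by_cases h2 : 2 ∣ x
  · have hy : ¬ 2 ∣ y := fun hy => by
      have := Nat.dvd_gcd h2 hy
      rw [h] at this
      omega
    have h4 : Nat.Coprime 4 y := by
      have : Nat.Coprime (2 ^ 2) y := Nat.Coprime.pow_left 2
        ((Nat.Prime.coprime_iff_not_dvd Nat.prime_two).2 hy)
      simpa using this
    have h5 : 4 ∣ x := h4.dvd_of_dvd_mul_right (by rw [hxy]; exact Dvd.intro _ rfl)
    obtain ⟨x', rfl⟩ := h5
    have h6 : x' * y = z ^ 4 := by
      have : 4 * (x' * y) = 4 * z ^ 4 := by rw [← hxy]; ring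
      omega
    obtain ⟨a, b, ha, hb, hab⟩ := split1 (Nat.Coprime.coprime_mul_left h) h6
    exact ⟨b, a, by rw [mul_comm]; exact hab, Or.inr ⟨by rw [ha], hb⟩⟩
  · have h4 : Nat.Coprime 4 x := by
      have : Nat.Coprime (2 ^ 2) x := Nat.Coprime.pow_left 2
        ((Nat.Prime.coprime_iff_not_dvd Nat.prime_two).2 h2)
      simpa using this
    have h5 : 4 ∣ y := h4.dvd_of_dvd_mul_left (by rw [hxy]; exact Dvd.intro _ rfl)
    obtain ⟨y', rfl⟩ := h5
    have h6 : x * y' = z ^ 4 := by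
      have : 4 * (x * y') = 4 * z ^ 4 := by rw [← hxy]; ring
      omega
    obtain ⟨a, b, ha, hb, hab⟩ := split1 (Nat.Coprime.coprime_mul_left_right h) h6
    exact ⟨a, b, hab, Or.inl ⟨ha, by rw [hb]⟩⟩

theorem split20 {x y z : ℕ} (h : Nat.Coprime x y) (hxy : x * y = 20 * z ^ 4) :
    ∃ a b : ℕ, a * b = z ∧ ((x + y = a ^ 4 + 20 * b ^ 4 ∧ Nat.Coprime (a ^ 4) (20 * b ^ 4)) ∨
      (x + y = 4 * a ^ 4 + 5 * b ^ 4 ∧ Nat.Coprime (4 * a ^ 4) (5 * b ^ 4))) := by
  -- the prime five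
  have key : ∀ {x y : ℕ}, Nat.Coprime x y → x * y = 20 * z ^ 4 → 5 ∣ x →
      ∃ a b : ℕ, a * b = z ∧ ((x + y = a ^ 4 + 20 * b ^ 4 ∧ Nat.Coprime (a ^ 4) (20 * b ^ 4)) ∨
        (x + y = 4 * a ^ 4 + 5 * b ^ 4 ∧ Nat.Coprime (4 * a ^ 4) (5 * b ^ 4))) := by
    intro x y h hxy h5
    obtain ⟨x', rfl⟩ := h5
    have h6 : x' * y = 4 * z ^ 4 := by
      have : 5 * (x' * y) = 5 * (4 * z ^ 4) := by rw [← mul_assoc, hxy]; ring
      omega
    obtain ⟨c, d, hcd, ⟨h7, h8⟩ | ⟨h7, h8⟩⟩ := split4 (Nat.Coprime.coprime_mul_left h) h6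
    · refine ⟨d, c, by rw [mul_comm]; exact hcd, Or.inr ⟨by rw [h7, h8]; ring, ?_⟩⟩
      rw [← h7, ← h8]; exact h.symm
    · refine ⟨c, d, hcd, Or.inl ⟨by rw [h7, h8]; ring, ?_⟩⟩
      rw [← h8]
      have : 20 * d ^ 4 = 5 * x' := by rw [h7]; ring
      rw [this]; exact h.symm
  have h5 : 5 ∣ x * y := by rw [hxy]; exact ⟨4 * z ^ 4, by ring⟩
  rcases (Nat.Prime.dvd_mul (by norm_num)).1 h5 with h5 | h5
  · exact key h hxy h5
  · have := key h.symm (by rw [mul_comm]; exact hxy) h5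
    rwa [add_comm y x] at this

/-! ### The descent for odd denominators -/

theorem descentA {m n w : ℕ} (hm : m ≠ 0) (hn : n % 2 = 1) (hcop : Nat.Coprime m n)
    (hw : w ^ 2 + 2 * m ^ 2 * n ^ 2 + 4 * m ^ 4 = n ^ 4) :
    ∃ c d a : ℕ, c ≠ 0 ∧ d ≠ 0 ∧ n = c ^ 4 + 4 * d ^ 4 ∧ m = 2 * (a * (c * d)) ∧
      (a ^ 2 + 2 * c ^ 2 * d ^ 2 + 4 * d ^ 4 = c ^ 4 ∨
        a ^ 2 + 2 * c ^ 2 * d ^ 2 + c ^ 4 = 4 * d ^ 4) := by
  -- parity of `m` and `w`
  have hmev : m % 2 = 0 := by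
    by_contra hcon
    have hm1 : m % 2 = 1 := by omega
    have h8 : ∀ k : ℕ, k % 2 = 1 → k ^ 2 % 8 = 1 := by
      intro k hk
      have : k % 8 = 1 ∨ k % 8 = 3 ∨ k % 8 = 5 ∨ k % 8 = 7 := by omega
      rcases this with h | h | h | h <;> simp [Nat.pow_mod, h]
    have e1 := h8 m hm1
    have e2 := h8 n hn
    have e3 : n ^ 4 % 8 = 1 := by
      have : n ^ 4 = n ^ 2 * n ^ 2 := by ring
      rw [this, Nat.mul_mod, e2]
    have e4 : m ^ 4 % 8 = 1 := by
      have : m ^ 4 = m ^ 2 * m ^ 2 := by ring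
      rw [this, Nat.mul_mod, e1]
    have e5 : (m ^ 2 * n ^ 2) % 8 = 1 := by rw [Nat.mul_mod, e1, e2]
    have e6 : w ^ 2 % 8 = 0 ∨ w ^ 2 % 8 = 1 ∨ w ^ 2 % 8 = 4 := by
      have : w % 8 = 0 ∨ w % 8 = 1 ∨ w % 8 = 2 ∨ w % 8 = 3 ∨ w % 8 = 4 ∨ w % 8 = 5 ∨
        w % 8 = 6 ∨ w % 8 = 7 := by omega
      rcases this with h | h | h | h | h | h | h | h <;> simp [Nat.pow_mod, h]
    have e7 : 2 * m ^ 2 * n ^ 2 = 2 * (m ^ 2 * n ^ 2) := by ring
    omega
  obtain ⟨k, rfl⟩ : ∃ k, m = 2 * k := ⟨m / 2, by omega⟩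
  have hk : k ≠ 0 := by rintro rfl; exact hm rfl
  have hwodd : w % 2 = 1 := by
    by_contra hcon
    have h0 : w % 2 = 0 := by omega
    have e1 : w ^ 2 % 2 = 0 := by rw [Nat.pow_mod, h0]
    have e2 : n ^ 4 % 2 = 1 := by rw [Nat.pow_mod, hn]
    have e3 : 2 * (2 * k) ^ 2 * n ^ 2 = 2 * ((2 * k) ^ 2 * n ^ 2) := by ring
    omega
  -- everything in the integers
  have hwz : (w : ℤ) ^ 2 = (n : ℤ) ^ 4 - 2 * (2 * k) ^ 2 * n ^ 2 - 4 * (2 * k) ^ 4 := by
    have : ((w ^ 2 + 2 * (2 * k) ^ 2 * n ^ 2 + 4 * (2 * k) ^ 4 : ℕ) : ℤ) = ((n ^ 4 : ℕ) : ℤ) := by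
      rw [hw]
    push_cast at this
    linarith
  have hfac : ((n : ℤ) ^ 2 - (2 * k) ^ 2 - w) * ((n : ℤ) ^ 2 - (2 * k) ^ 2 + w) =
      5 * (2 * k) ^ 4 := by
    linear_combination -hwz
  have hk4 : (0 : ℤ) < (2 * (k : ℤ)) ^ 4 := by positivity
  have hn2 : (2 * (k : ℤ)) ^ 2 < (n : ℤ) ^ 2 := by
    have h0 : (0 : ℤ) ≤ (w : ℤ) ^ 2 := by positivity
    rw [hwz] at h0
    by_contra hcon
    push Not at hcon
    nlinarith [sq_nonneg ((n : ℤ) ^ 2), sq_nonneg ((2 * (k : ℤ)) ^ 2)]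
  have hYpos : (0 : ℤ) < (n : ℤ) ^ 2 - (2 * k) ^ 2 + w := by
    have : (0 : ℤ) ≤ w := by positivity
    linarith
  have hXpos : (0 : ℤ) < (n : ℤ) ^ 2 - (2 * k) ^ 2 - w := by
    by_contra hcon
    push Not at hcon
    have := mul_nonpos_of_nonpos_of_nonneg hcon hYpos.le
    rw [hfac] at this
    linarith
  obtain ⟨n', hn'⟩ : ∃ n', n = 2 * n' + 1 := ⟨n / 2, by omega⟩
  obtain ⟨w', hw'⟩ : ∃ w', w = 2 * w' + 1 := ⟨w / 2, by omega⟩
  -- halves
  obtain ⟨X, hX⟩ : ∃ X : ℤ, (n : ℤ) ^ 2 - (2 * k) ^ 2 - w = 2 * X := by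
    refine ⟨2 * n' ^ 2 + 2 * n' - 2 * k ^ 2 - w', ?_⟩
    rw [hn', hw']; push_cast; ring
  obtain ⟨Y, hY⟩ : ∃ Y : ℤ, (n : ℤ) ^ 2 - (2 * k) ^ 2 + w = 2 * Y := by
    refine ⟨2 * n' ^ 2 + 2 * n' - 2 * k ^ 2 + w' + 1, ?_⟩
    rw [hn', hw']; push_cast; ring
  have hX0 : 0 < X := by linarith
  have hY0 : 0 < Y := by linarith
  obtain ⟨x, rfl⟩ := Int.eq_ofNat_of_zero_le hX0.le
  obtain ⟨y, rfl⟩ := Int.eq_ofNat_of_zero_le hY0.le
  have hsum : (x : ℤ) + y = (n : ℤ) ^ 2 - (2 * k) ^ 2 := by linarith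
  have hdiff : (y : ℤ) - x = w := by linarith
  have hprod : x * y = 20 * k ^ 4 := by
    have : (4 : ℤ) * (x * y) = 4 * (20 * k ^ 4) := by
      rw [hX, hY] at hfac
      linear_combination hfac
    have : (x : ℤ) * y = 20 * k ^ 4 := by linarith
    exact_mod_cast this
  have hcop' : IsCoprime (2 * (k : ℤ)) (n : ℤ) := by
    have := Nat.isCoprime_iff_coprime.2 hcop
    exact_mod_cast this
  have hcxy : Nat.Coprime x y := by
    rw [Nat.coprime_iff_gcd_eq_one]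
    by_contra hne
    obtain ⟨q, hq, hqd⟩ := Nat.exists_prime_and_dvd hne
    have hqx : (q : ℤ) ∣ x := by exact_mod_cast hqd.trans (Nat.gcd_dvd_left _ _)
    have hqy : (q : ℤ) ∣ y := by exact_mod_cast hqd.trans (Nat.gcd_dvd_right _ _)
    have hq' : Prime (q : ℤ) := Nat.prime_iff_prime_int.1 hq
    have h1 : (q : ℤ) ∣ (n : ℤ) ^ 2 - (2 * k) ^ 2 := by rw [← hsum]; exact dvd_add hqx hqy
    -- `q` divides `k`
    have h2 : q ∣ k := by
      by_cases hq5 : q = 5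
      · subst hq5
        obtain ⟨x', hx'⟩ := hqx
        obtain ⟨y', hy'⟩ := hqy
        have h3 : (20 : ℤ) * k ^ 4 = 25 * (x' * y') := by
          have : (x : ℤ) * y = 20 * k ^ 4 := by exact_mod_cast hprod
          rw [← this, hx', hy']; push_cast; ring
        have h4 : (5 : ℤ) ∣ (k : ℤ) ^ 4 := by omega
        have h5 : (5 : ℤ) ∣ k := (by norm_num : Prime (5 : ℤ)).dvd_of_dvd_pow h4
        exact_mod_cast h5
      · have h3 : q ^ 2 ∣ 20 * k ^ 4 := by
          rw [← hprod, sq]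
          exact Nat.mul_dvd_mul (hqd.trans (Nat.gcd_dvd_left _ _))
            (hqd.trans (Nat.gcd_dvd_right _ _))
        by_cases hq2 : q = 2
        · -- the sum is odd
          subst hq2
          exfalso
          have h5 : (2 : ℤ) ∣ (n : ℤ) ^ 2 - (2 * k) ^ 2 := by exact_mod_cast h1
          rw [hn'] at h5
          push_cast at h5
          have h6 : (2 * (n' : ℤ) + 1) ^ 2 - (2 * k) ^ 2 = 2 * (2 * n' ^ 2 + 2 * n' - 2 * k ^ 2) + 1 := by
            ring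
          rw [h6] at h5
          omega
        · have h4 : q ∣ 20 * k ^ 4 := (dvd_pow_self q (by norm_num)).trans h3
          rcases (Nat.Prime.dvd_mul hq).1 h4 with h5 | h5
          · exfalso
            have h6 : q ∣ 2 ^ 2 * 5 := by norm_num; exact h5
            rcases (Nat.Prime.dvd_mul hq).1 h6 with h7 | h7
            · exact hq2 ((Nat.prime_dvd_prime_iff_eq hq Nat.prime_two).1 (hq.dvd_of_dvd_pow h7))
            · exact hq5 ((Nat.prime_dvd_prime_iff_eq hq (by norm_num)).1 h7)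
          · exact hq.dvd_of_dvd_pow h5
    have h3 : (q : ℤ) ∣ 2 * (k : ℤ) := dvd_mul_of_dvd_right (by exact_mod_cast h2) 2
    have h4 : (q : ℤ) ∣ (n : ℤ) ^ 2 := by
      have := dvd_add h1 (dvd_pow h3 (by norm_num : 2 ≠ 0))
      simpa using this
    have h5 := hcop'.isUnit_of_dvd' h3 (hq'.dvd_of_dvd_pow h4)
    exact hq'.not_isUnit h5
  obtain ⟨a, b, hab, ⟨h1, h2⟩ | ⟨h1, h2⟩⟩ := split20 hcxy hprod
  · -- the main case
    have hN2 : (n : ℤ) ^ 2 = (a : ℤ) ^ 4 + 4 * a ^ 2 * b ^ 2 + 20 * b ^ 4 := by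
      have e1 : (x : ℤ) + y = a ^ 4 + 20 * b ^ 4 := by exact_mod_cast h1
      have e2 : (k : ℤ) = a * b := by exact_mod_cast hab.symm
      rw [e1, e2] at hsum
      linear_combination -hsum
    have ha : a ≠ 0 := by rintro rfl; simp at hab; exact hk hab.symm
    have hb : b ≠ 0 := by rintro rfl; simp at hab; exact hk hab.symm
    have hab' : Nat.Coprime a b := by
      have h3 : Nat.Coprime (a ^ 4) (b ^ 4) := Nat.Coprime.coprime_mul_left_right h2
      exact (Nat.coprime_pow_left_iff (by norm_num) _ _).1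
        ((Nat.coprime_pow_right_iff (by norm_num) _ _).1 h3)
    have haodd : a % 2 = 1 := by
      by_contra hcon
      have h0 : a % 2 = 0 := by omega
      have h3 : 2 ∣ a ^ 4 := dvd_pow (Nat.dvd_of_mod_eq_zero h0) (by norm_num)
      have h4 : 2 ∣ 20 * b ^ 4 := ⟨10 * b ^ 4, by ring⟩
      have := Nat.dvd_gcd h3 h4
      rw [h2] at this
      omega
    have hf2 : ((n : ℤ) - (a ^ 2 + 2 * b ^ 2)) * ((n : ℤ) + (a ^ 2 + 2 * b ^ 2)) = 16 * b ^ 4 := by
      linear_combination hN2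
    have hYp : (0 : ℤ) < (n : ℤ) + (a ^ 2 + 2 * b ^ 2) := by positivity
    have hb4 : (0 : ℤ) < 16 * (b : ℤ) ^ 4 := by positivity
    have hXp : (0 : ℤ) < (n : ℤ) - (a ^ 2 + 2 * b ^ 2) := by
      by_contra hcon
      push Not at hcon
      have := mul_nonpos_of_nonpos_of_nonneg hcon hYp.le
      rw [hf2] at this
      linarith
    obtain ⟨a', ha'⟩ : ∃ a', a = 2 * a' + 1 := ⟨a / 2, by omega⟩
    obtain ⟨X, hX2⟩ : ∃ X : ℤ, (n : ℤ) - (a ^ 2 + 2 * b ^ 2) = 2 * X := by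
      refine ⟨n' - 2 * a' ^ 2 - 2 * a' - b ^ 2, ?_⟩
      rw [hn', ha']; push_cast; ring
    obtain ⟨Y, hY2⟩ : ∃ Y : ℤ, (n : ℤ) + (a ^ 2 + 2 * b ^ 2) = 2 * Y := by
      refine ⟨n' + 2 * a' ^ 2 + 2 * a' + b ^ 2 + 1, ?_⟩
      rw [hn', ha']; push_cast; ring
    have hX0 : 0 < X := by linarith
    have hY0 : 0 < Y := by linarith
    obtain ⟨u, rfl⟩ := Int.eq_ofNat_of_zero_le hX0.le
    obtain ⟨v, rfl⟩ := Int.eq_ofNat_of_zero_le hY0.le
    have hs2 : (u : ℤ) + v = n := by linarith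
    have hd2 : (v : ℤ) - u = a ^ 2 + 2 * b ^ 2 := by linarith
    have hp2 : u * v = 4 * b ^ 4 := by
      have : (4 : ℤ) * (u * v) = 4 * (4 * b ^ 4) := by
        rw [hX2, hY2] at hf2
        linear_combination hf2
      have : (u : ℤ) * v = 4 * b ^ 4 := by linarith
      exact_mod_cast this
    have hcuv : Nat.Coprime u v := by
      rw [Nat.coprime_iff_gcd_eq_one]
      by_contra hne
      obtain ⟨q, hq, hqd⟩ := Nat.exists_prime_and_dvd hne
      have hqu : q ∣ u := hqd.trans (Nat.gcd_dvd_left _ _)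
      have hqv : q ∣ v := hqd.trans (Nat.gcd_dvd_right _ _)
      by_cases hq2 : q = 2
      · subst hq2
        have : (u : ℤ) + v = n := hs2
        have h3 : u + v = n := by exact_mod_cast this
        omega
      · have h3 : q ∣ 4 * b ^ 4 := by rw [← hp2]; exact dvd_mul_of_dvd_left hqu _
        have hqb : q ∣ b := by
          rcases (Nat.Prime.dvd_mul hq).1 h3 with h5 | h5
          · exfalso
            have h6 : q ∣ 2 ^ 2 := by norm_num; exact h5
            exact hq2 ((Nat.prime_dvd_prime_iff_eq hq Nat.prime_two).1 (hq.dvd_of_dvd_pow h6))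
          · exact hq.dvd_of_dvd_pow h5
        have h6 : v = u + (a ^ 2 + 2 * b ^ 2) := by
          have : (v : ℤ) = u + (a ^ 2 + 2 * b ^ 2) := by linarith
          exact_mod_cast this
        have h7 : q ∣ a ^ 2 + 2 * b ^ 2 := by
          rw [h6] at hqv
          exact (Nat.dvd_add_right hqu).1 hqv
        have h8 : q ∣ 2 * b ^ 2 := dvd_mul_of_dvd_right (dvd_pow hqb (by norm_num)) 2
        have h9 : q ∣ a ^ 2 := (Nat.dvd_add_left h8).1 h7
        have := Nat.dvd_gcd (hq.dvd_of_dvd_pow h9) hqb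
        rw [hab'] at this
        exact hq.one_lt.ne' (Nat.dvd_one.1 this)
    obtain ⟨c, d, hcd, h3⟩ := split4 hcuv hp2
    have hcne : c ≠ 0 := by rintro rfl; simp at hcd; exact hb hcd.symm
    have hdne : d ≠ 0 := by rintro rfl; simp at hcd; exact hb hcd.symm
    have hb' : (b : ℤ) = c * d := by exact_mod_cast hcd.symm
    refine ⟨c, d, a, hcne, hdne, ?_, ?_, ?_⟩
    · have h4 : u + v = n := by exact_mod_cast hs2
      rcases h3 with ⟨h5, h6⟩ | ⟨h5, h6⟩ <;> rw [← h4, h5, h6]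
      ring
    · rw [← hab, ← hcd]
    · rcases h3 with ⟨h5, h6⟩ | ⟨h5, h6⟩
      · right
        rw [h5, h6] at hd2
        rw [hb'] at hd2
        push_cast at hd2
        have : ((a ^ 2 + 2 * c ^ 2 * d ^ 2 + c ^ 4 : ℕ) : ℤ) = ((4 * d ^ 4 : ℕ) : ℤ) := by
          push_cast
          linear_combination -hd2
        exact_mod_cast this
      · left
        rw [h5, h6] at hd2
        rw [hb'] at hd2
        push_cast at hd2
        have : ((a ^ 2 + 2 * c ^ 2 * d ^ 2 + 4 * d ^ 4 : ℕ) : ℤ) = ((c ^ 4 : ℕ) : ℤ) := by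
          push_cast
          linear_combination -hd2
        exact_mod_cast this
  · -- the impossible case
    exfalso
    have hN2 : (n : ℤ) ^ 2 = 4 * (a : ℤ) ^ 4 + 4 * a ^ 2 * b ^ 2 + 5 * b ^ 4 := by
      have e1 : (x : ℤ) + y = 4 * a ^ 4 + 5 * b ^ 4 := by exact_mod_cast h1
      have e2 : (k : ℤ) = a * b := by exact_mod_cast hab.symm
      rw [e1, e2] at hsum
      linear_combination -hsum
    have ha : a ≠ 0 := by rintro rfl; simp at hab; exact hk hab.symm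
    have hb : b ≠ 0 := by rintro rfl; simp at hab; exact hk hab.symm
    have hab' : Nat.Coprime a b := by
      have h3 : Nat.Coprime (a ^ 4) (b ^ 4) :=
        Nat.Coprime.coprime_mul_left_right (Nat.Coprime.coprime_mul_left h2)
      exact (Nat.coprime_pow_left_iff (by norm_num) _ _).1
        ((Nat.coprime_pow_right_iff (by norm_num) _ _).1 h3)
    have hbodd : b % 2 = 1 := by
      by_contra hcon
      have h0 : b % 2 = 0 := by omega
      have h3 : 2 ∣ 5 * b ^ 4 :=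
        dvd_mul_of_dvd_right (dvd_pow (Nat.dvd_of_mod_eq_zero h0) (by norm_num)) 5
      have h4 : 2 ∣ 4 * a ^ 4 := ⟨2 * a ^ 4, by ring⟩
      have := Nat.dvd_gcd h4 h3
      rw [h2] at this
      omega
    have hf2 : ((n : ℤ) - (2 * a ^ 2 + b ^ 2)) * ((n : ℤ) + (2 * a ^ 2 + b ^ 2)) = 4 * b ^ 4 := by
      linear_combination hN2
    have hYp : (0 : ℤ) < (n : ℤ) + (2 * a ^ 2 + b ^ 2) := by positivity
    have hb4 : (0 : ℤ) < 4 * (b : ℤ) ^ 4 := by positivity
    have hXp : (0 : ℤ) < (n : ℤ) - (2 * a ^ 2 + b ^ 2) := by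
      by_contra hcon
      push Not at hcon
      have := mul_nonpos_of_nonpos_of_nonneg hcon hYp.le
      rw [hf2] at this
      linarith
    obtain ⟨b', hb'⟩ : ∃ b', b = 2 * b' + 1 := ⟨b / 2, by omega⟩
    obtain ⟨X, hX2⟩ : ∃ X : ℤ, (n : ℤ) - (2 * a ^ 2 + b ^ 2) = 2 * X := by
      refine ⟨n' - 2 * b' ^ 2 - 2 * b' - a ^ 2, ?_⟩
      rw [hn', hb']; push_cast; ring
    obtain ⟨Y, hY2⟩ : ∃ Y : ℤ, (n : ℤ) + (2 * a ^ 2 + b ^ 2) = 2 * Y := by
      refine ⟨n' + 2 * b' ^ 2 + 2 * b' + a ^ 2 + 1, ?_⟩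
      rw [hn', hb']; push_cast; ring
    have hX0 : 0 < X := by linarith
    have hY0 : 0 < Y := by linarith
    obtain ⟨u, rfl⟩ := Int.eq_ofNat_of_zero_le hX0.le
    obtain ⟨v, rfl⟩ := Int.eq_ofNat_of_zero_le hY0.le
    have hs2 : (u : ℤ) + v = n := by linarith
    have hd2 : (v : ℤ) - u = 2 * a ^ 2 + b ^ 2 := by linarith
    have hp2 : u * v = b ^ 4 := by
      have : (4 : ℤ) * (u * v) = 4 * (b ^ 4) := by
        rw [hX2, hY2] at hf2
        linear_combination hf2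
      have : (u : ℤ) * v = b ^ 4 := by linarith
      exact_mod_cast this
    have h6 : v = u + (2 * a ^ 2 + b ^ 2) := by
      have : (v : ℤ) = u + (2 * a ^ 2 + b ^ 2) := by linarith
      exact_mod_cast this
    have hcuv : Nat.Coprime u v := by
      rw [Nat.coprime_iff_gcd_eq_one]
      by_contra hne
      obtain ⟨q, hq, hqd⟩ := Nat.exists_prime_and_dvd hne
      have hqu : q ∣ u := hqd.trans (Nat.gcd_dvd_left _ _)
      have hqv : q ∣ v := hqd.trans (Nat.gcd_dvd_right _ _)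
      have h3 : q ∣ b ^ 4 := by rw [← hp2]; exact dvd_mul_of_dvd_left hqu _
      have hqb : q ∣ b := hq.dvd_of_dvd_pow h3
      have hq2 : q ≠ 2 := by
        rintro rfl
        omega
      have h7 : q ∣ 2 * a ^ 2 + b ^ 2 := by
        rw [h6] at hqv
        exact (Nat.dvd_add_right hqu).1 hqv
      have h9 : q ∣ 2 * a ^ 2 := (Nat.dvd_add_left (dvd_pow hqb (by norm_num))).1 h7
      have h10 : q ∣ a := by
        rcases (Nat.Prime.dvd_mul hq).1 h9 with h5 | h5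
        · exact absurd ((Nat.prime_dvd_prime_iff_eq hq Nat.prime_two).1 h5) hq2
        · exact hq.dvd_of_dvd_pow h5
      have := Nat.dvd_gcd h10 hqb
      rw [hab'] at this
      exact hq.one_lt.ne' (Nat.dvd_one.1 this)
    obtain ⟨c, d, hc, hd, hcd⟩ := split1 hcuv hp2
    -- parity
    have hco : c % 2 = 1 := by
      by_contra hcon
      have : b % 2 = 0 := by rw [← hcd, Nat.mul_mod, show c % 2 = 0 by omega, zero_mul, Nat.zero_mod]
      omega
    have hdo : d % 2 = 1 := by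
      by_contra hcon
      have : b % 2 = 0 := by rw [← hcd, Nat.mul_mod, show d % 2 = 0 by omega, mul_zero, Nat.zero_mod]
      omega
    have e1 : u % 2 = 1 := by rw [hc, Nat.pow_mod, hco]
    have e2 : v % 2 = 1 := by rw [hd, Nat.pow_mod, hdo]
    have e3 : b ^ 2 % 2 = 1 := by rw [Nat.pow_mod, hbodd]
    omega


/-! ### The generators -/

/-- the generator of infinite order -/
def P0 : Pt := ⟨1 / 2, 1 / 2, by norm_num⟩

/-- the point of order two -/
def T0 : Pt := ⟨0, -1, by norm_num⟩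

theorem add_T0 (a : Pt) : (a + T0).s = -a.s ∧ (a + T0).t = -a.t := by
  constructor
  · rw [add_T0_s a T0 rfl]; show a.s * (-1) = _; ring
  · rw [add_T0_t a T0 rfl]; show a.t * (-1) = _; ring

theorem T0_add_T0 : T0 + T0 = 0 := by
  ext
  · rw [(add_T0 T0).1]; show -(0 : ℚ) = 0; ring
  · rw [(add_T0 T0).2]; show -(-1 : ℚ) = 1; ring

theorem eq_of_s_sq {R Q : Pt} (h : R.s ^ 2 = Q.s ^ 2) :
    R = Q ∨ R = -Q ∨ R = Q + T0 ∨ R = -Q + T0 := by
  have ht : R.t ^ 2 = Q.t ^ 2 := by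
    rw [R.h, Q.h]
    have : R.s ^ 4 = Q.s ^ 4 := by
      have : R.s ^ 4 = (R.s ^ 2) ^ 2 := by ring
      rw [this, h]; ring
    rw [h, this]
  rcases sq_eq_sq_iff_eq_or_eq_neg.1 h with h1 | h1 <;>
    rcases sq_eq_sq_iff_eq_or_eq_neg.1 ht with h2 | h2
  · left; ext <;> assumption
  · right; right; right
    ext
    · rw [(add_T0 _).1, neg_s, neg_neg, h1]
    · rw [(add_T0 _).2, neg_t, h2]
  · right; left
    ext
    · rw [neg_s, h1]
    · rw [neg_t, h2]
  · right; right; left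
    ext
    · rw [(add_T0 _).1, h1]
    · rw [(add_T0 _).2, h2]

/-- the subgroup generated by the two points -/
def Gam : AddSubgroup Pt := AddSubgroup.closure {P0, T0}

theorem P0_mem : P0 ∈ Gam := AddSubgroup.subset_closure (by simp)
theorem T0_mem : T0 ∈ Gam := AddSubgroup.subset_closure (by simp)

theorem mem_of_s_sq {R Q : Pt} (hQ : Q ∈ Gam) (h : R.s ^ 2 = Q.s ^ 2) : R ∈ Gam := by
  rcases eq_of_s_sq h with h | h | h | h <;> rw [h]
  · exact hQ
  · exact neg_mem hQ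
  · exact add_mem hQ T0_mem
  · exact add_mem (neg_mem hQ) T0_mem

theorem den_le_of_eq_div {x : ℚ} {a : ℤ} {b : ℕ} (hb : b ≠ 0) (h : x = a / b) : x.den ≤ b := by
  have h1 := Rat.den_dvd a b
  rw [Rat.divInt_eq_div] at h1
  have h2 : x = (a : ℚ) / ((b : ℤ) : ℚ) := by rw [h]; push_cast; rfl
  rw [← h2] at h1
  exact Nat.le_of_dvd (Nat.pos_of_ne_zero hb) (by exact_mod_cast h1)

theorem halve {R : Pt} (hodd : R.s.den % 2 = 1) (hs : R.s ≠ 0) :
    ∃ R' : Pt, R.s ^ 2 = (R' + R').s ^ 2 ∧ R'.s.den ^ 4 ≤ 4 * R.s.den := by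
  obtain ⟨W, hWt, hW⟩ := exists_W R
  have hm : R.s.num.natAbs ≠ 0 := by
    rw [Ne, Int.natAbs_eq_zero, Rat.num_eq_zero]; exact hs
  have hsq : ∀ z : ℤ, ((z.natAbs : ℕ) : ℤ) ^ 2 = z ^ 2 := fun z => by
    rw [Int.natCast_natAbs, sq_abs]
  have hsq4 : ∀ z : ℤ, ((z.natAbs : ℕ) : ℤ) ^ 4 = z ^ 4 := fun z => by
    have h1 : ((z.natAbs : ℕ) : ℤ) ^ 4 = (((z.natAbs : ℕ) : ℤ) ^ 2) ^ 2 := by ring
    rw [h1, hsq]; ring
  have hw : W.natAbs ^ 2 + 2 * R.s.num.natAbs ^ 2 * R.s.den ^ 2 + 4 * R.s.num.natAbs ^ 4 =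
      R.s.den ^ 4 := by
    have : ((W.natAbs ^ 2 + 2 * R.s.num.natAbs ^ 2 * R.s.den ^ 2 + 4 * R.s.num.natAbs ^ 4 : ℕ) : ℤ) =
        ((R.s.den ^ 4 : ℕ) : ℤ) := by
      have e1 := hsq W
      have e2 := hsq R.s.num
      have e3 := hsq4 R.s.num
      rw [Nat.cast_add, Nat.cast_add, Nat.cast_mul, Nat.cast_mul, Nat.cast_mul, Nat.cast_pow,
        Nat.cast_pow, Nat.cast_pow, Nat.cast_pow, Nat.cast_pow, e1, e2, e3, hW]
      push_cast; ring
    exact_mod_cast this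
  obtain ⟨c, d, a, hc, hd, hn, hmm, hcase⟩ := descentA hm hodd R.s.reduced hw
  have hcq : (c : ℚ) ≠ 0 := by exact_mod_cast hc
  have hdq : (d : ℚ) ≠ 0 := by exact_mod_cast hd
  have hRs : R.s ^ 2 = (2 * (a * (c * d)) / (c ^ 4 + 4 * d ^ 4)) ^ 2 := by
    have e1 : R.s ^ 2 = ((R.s.num.natAbs : ℕ) : ℚ) ^ 2 / ((R.s.den : ℕ) : ℚ) ^ 2 := by
      have : ((R.s.num.natAbs : ℕ) : ℚ) ^ 2 = (R.s.num : ℚ) ^ 2 := by
        have h9 := congrArg (Int.cast : ℤ → ℚ) (hsq R.s.num)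
        rw [Int.cast_pow, Int.cast_pow, Int.cast_natCast] at h9
        exact h9
      rw [this, ← div_pow, Rat.num_div_den]
    rw [e1, hmm, hn]
    push_cast
    rw [div_pow]
  have hden : (c : ℚ) ^ 4 + 4 * d ^ 4 ≠ 0 := by positivity
  rcases hcase with h | h
  · have hq : (a : ℚ) ^ 2 + 2 * c ^ 2 * d ^ 2 + 4 * d ^ 4 = c ^ 4 := by exact_mod_cast h
    refine ⟨⟨d / c, a / c ^ 2, ?_⟩, ?_, ?_⟩
    · field_simp
      linear_combination hq
    · rw [hRs, add_s]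
      congr 1
      simp only
      field_simp
      ring
    · have h1 : ((d : ℚ) / c).den ≤ c := den_le_of_eq_div (a := d) hc (by push_cast; rfl)
      calc ((d : ℚ) / c).den ^ 4 ≤ c ^ 4 := Nat.pow_le_pow_left h1 4
        _ ≤ 4 * R.s.den := by rw [hn]; omega
  · have hq : (a : ℚ) ^ 2 + 2 * c ^ 2 * d ^ 2 + c ^ 4 = 4 * d ^ 4 := by exact_mod_cast h
    refine ⟨⟨c / (2 * d), a / (2 * d ^ 2), ?_⟩, ?_, ?_⟩
    · field_simp
      linear_combination 4 * hq
    · rw [hRs, add_s]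
      congr 1
      simp only
      field_simp
      ring
    · have h1 : ((c : ℚ) / (2 * d)).den ≤ 2 * d :=
        den_le_of_eq_div (a := c) (by omega) (by push_cast; rfl)
      calc ((c : ℚ) / (2 * d)).den ^ 4 ≤ (2 * d) ^ 4 := Nat.pow_le_pow_left h1 4
        _ = 4 * (4 * d ^ 4) := by ring
        _ ≤ 4 * R.s.den := by rw [hn]; omega

/-- For a fraction `A / L`, the denominator times the gcd is `L`. -/
theorem den_mul_gcd {x : ℚ} {A : ℤ} {L : ℕ} (hL : L ≠ 0) (h : x = A / L) :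
    x.den * Nat.gcd L A.natAbs = L := by
  have hLq : (L : ℚ) ≠ 0 := by exact_mod_cast hL
  have hd : (x.den : ℚ) ≠ 0 := by exact_mod_cast x.den_nz
  have h1 : x.num * (L : ℤ) = A * x.den := by
    have : (x.num : ℚ) * L = A * x.den := by
      rw [← Rat.num_div_den x] at h
      field_simp at h
      rw [h]; ring
    exact_mod_cast this
  have h2 : x.den ∣ L := by
    have h3 : (x.den : ℤ) ∣ (L : ℤ) := by
      have hc : IsCoprime (x.den : ℤ) x.num := by
        rw [Int.isCoprime_iff_gcd_eq_one, Int.gcd_comm]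
        exact x.reduced
      exact hc.dvd_of_dvd_mul_left ⟨A, by rw [h1]; ring⟩
    exact_mod_cast h3
  obtain ⟨k, hk⟩ := h2
  have hdz : (x.den : ℤ) ≠ 0 := by exact_mod_cast x.den_nz
  have hA : A = x.num * k := by
    apply mul_right_cancel₀ hdz
    rw [← h1, hk]; push_cast; ring
  have hk2 : Nat.gcd L A.natAbs = k := by
    rw [hA, hk, Int.natAbs_mul, Int.natAbs_natCast, Nat.gcd_mul_right, Nat.gcd_comm, x.reduced,
      one_mul]
  rw [hk2, hk]

theorem neighbours {R : Pt} (hev : R.s.den % 2 = 0) :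
    (R + P0).s.den % 2 = 1 ∧ (R + -P0).s.den % 2 = 1 ∧
    (R + P0).s.den * (R + -P0).s.den ≤ R.s.den ^ 2 + R.s.num.natAbs ^ 2 := by
  obtain ⟨W, hWt, hW⟩ := exists_W R
  obtain ⟨n, hn⟩ : ∃ n, R.s.den = 2 * n := ⟨R.s.den / 2, by omega⟩
  have hn0 : n ≠ 0 := by
    rintro rfl
    exact R.s.den_nz (by omega)
  have hMo : ¬ (2 : ℤ) ∣ R.s.num := fun h => dvd_num_of R Nat.prime_two (by omega) h
  set M : ℤ := R.s.num with hM
  have hWev : (2 : ℤ) ∣ W := by
    have h1 : (2 : ℤ) ∣ W ^ 2 := by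
      rw [hW, hn]
      push_cast
      exact ⟨8 * (n : ℤ) ^ 4 - 4 * M ^ 2 * n ^ 2 - 2 * M ^ 4, by ring⟩
    exact Int.prime_two.dvd_of_dvd_pow h1
  obtain ⟨w, hw⟩ := hWev
  have hw2 : w ^ 2 = 4 * (n : ℤ) ^ 4 - 2 * M ^ 2 * n ^ 2 - M ^ 4 := by
    have : 4 * w ^ 2 = 4 * (4 * (n : ℤ) ^ 4 - 2 * M ^ 2 * n ^ 2 - M ^ 4) := by
      rw [hw, hn] at hW
      push_cast at hW
      linear_combination hW
    linarith
  set L : ℕ := R.s.den ^ 2 + M.natAbs ^ 2 with hL
  have hLz : (L : ℤ) = 4 * (n : ℤ) ^ 2 + M ^ 2 := by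
    rw [hL, hn]
    push_cast
    rw [sq_abs]; ring
  have hL0 : L ≠ 0 := by
    have : 0 < R.s.den ^ 2 := by have := R.s.den_pos; positivity
    omega
  have hLq : (L : ℚ) = 4 * (n : ℚ) ^ 2 + (M : ℚ) ^ 2 := by exact_mod_cast congrArg (Int.cast : ℤ → ℚ) hLz
  have hnq : (n : ℚ) ≠ 0 := by exact_mod_cast hn0
  have hs : R.s = M / (2 * n : ℚ) := by
    conv_lhs => rw [← Rat.num_div_den R.s]
    rw [hn]; push_cast; rfl
  have ht : R.t = 2 * w / (2 * n : ℚ) ^ 2 := by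
    rw [hWt, hw, hn]; push_cast; rfl
  have hpos : (4 * (n : ℚ) ^ 2 + (M : ℚ) ^ 2) ≠ 0 := by positivity
  have hplus : (R + P0).s = ((M * n + w : ℤ) : ℚ) / L := by
    rw [add_s, hs, ht, hLq]
    show (M / (2 * n : ℚ) * (1 / 2) + 1 / 2 * (2 * w / (2 * n : ℚ) ^ 2)) /
      (1 + 4 * (M / (2 * n : ℚ)) ^ 2 * (1 / 2) ^ 2) = _
    have : (1 + 4 * (M / (2 * n : ℚ)) ^ 2 * (1 / 2) ^ 2) ≠ 0 := by positivity
    push_cast
    rw [div_eq_div_iff this hpos]
    field_simp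
    ring
  have hminus : (R + -P0).s = ((M * n - w : ℤ) : ℚ) / L := by
    rw [add_s, hs, ht, hLq]
    show (M / (2 * n : ℚ) * (1 / 2) + -(1 / 2) * (2 * w / (2 * n : ℚ) ^ 2)) /
      (1 + 4 * (M / (2 * n : ℚ)) ^ 2 * (-(1 / 2)) ^ 2) = _
    have : (1 + 4 * (M / (2 * n : ℚ)) ^ 2 * (-(1 / 2)) ^ 2) ≠ 0 := by positivity
    push_cast
    rw [div_eq_div_iff this hpos]
    field_simp
    ring
  have g1 := den_mul_gcd hL0 hplus
  have g2 := den_mul_gcd hL0 hminus
  have hLodd : L % 2 = 1 := by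
    have h1 : (M.natAbs) % 2 = 1 := by omega
    rw [hL, hn]
    have h2 : M.natAbs ^ 2 % 2 = 1 := by rw [Nat.pow_mod, h1]
    have h3 : (2 * n) ^ 2 = 2 * (2 * n ^ 2) := by ring
    omega
  refine ⟨?_, ?_, ?_⟩
  · by_contra hcon
    have h0 : (R + P0).s.den % 2 = 0 := by omega
    rw [← g1, Nat.mul_mod, h0, zero_mul] at hLodd
    omega
  · by_contra hcon
    have h0 : (R + -P0).s.den % 2 = 0 := by omega
    rw [← g2, Nat.mul_mod, h0, zero_mul] at hLodd
    omega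
  · have hprod : L ∣ (M * n + w).natAbs * (M * n - w).natAbs := by
      rw [← Int.natAbs_mul]
      have : (L : ℤ) ∣ (M * n + w) * (M * n - w) := by
        refine ⟨M ^ 2 - n ^ 2, ?_⟩
        rw [hLz]
        linear_combination -hw2
      exact Int.natCast_dvd.1 this
    have h3 : L ∣ Nat.gcd L (M * n + w).natAbs * Nat.gcd L (M * n - w).natAbs := by
      have := Nat.gcd_mul_right_dvd_mul_gcd L (M * n + w).natAbs (M * n - w).natAbs
      rwa [Nat.gcd_eq_left hprod] at this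
    have hpos2 : 0 < Nat.gcd L (M * n + w).natAbs * Nat.gcd L (M * n - w).natAbs :=
      Nat.mul_pos (Nat.gcd_pos_of_pos_left _ (Nat.pos_of_ne_zero hL0))
        (Nat.gcd_pos_of_pos_left _ (Nat.pos_of_ne_zero hL0))
    have h4 := Nat.le_of_dvd hpos2 h3
    have h5 : ((R + P0).s.den * (R + -P0).s.den) *
        (Nat.gcd L (M * n + w).natAbs * Nat.gcd L (M * n - w).natAbs) = L * L := by
      calc _ = ((R + P0).s.den * Nat.gcd L (M * n + w).natAbs) *
          ((R + -P0).s.den * Nat.gcd L (M * n - w).natAbs) := by ring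
        _ = L * L := by rw [g1, g2]
    have h6 : ((R + P0).s.den * (R + -P0).s.den) * L ≤ L * L := by
      rw [← h5]
      exact Nat.mul_le_mul_left _ h4
    exact Nat.le_of_mul_le_mul_right h6 (Nat.pos_of_ne_zero hL0)

theorem mem_Gam (R : Pt) : R ∈ Gam := by
  induction h : R.s.den using Nat.strong_induction_on generalizing R with
  | _ N ih =>
  have hlt := num_sq_lt R
  have key0 : ∀ Q : Pt, Q.s = 0 → Q ∈ Gam := fun Q hQ =>
    mem_of_s_sq (Q := 0) (zero_mem _) (by rw [hQ, zero_s])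
  by_cases hs : R.s = 0
  · exact key0 R hs
  rcases Nat.mod_two_eq_zero_or_one R.s.den with hev | hodd
  · -- even denominator
    obtain ⟨h1, h2, h3⟩ := neighbours hev
    have hN2 : 2 ≤ R.s.den := by have := R.s.den_pos; omega
    have hM : 3 * R.s.num.natAbs ^ 2 < R.s.den ^ 2 := by
      have : ((3 * R.s.num.natAbs ^ 2 : ℕ) : ℤ) < ((R.s.den ^ 2 : ℕ) : ℤ) := by
        push_cast; rw [sq_abs]; exact hlt
      exact_mod_cast this
    have main : ∀ Q : Pt, Q.s.den % 2 = 1 → Q.s.den ^ 2 ≤ R.s.den ^ 2 + R.s.num.natAbs ^ 2 →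
        Q ∈ Gam := by
      intro Q hQo hQle
      by_cases hQs : Q.s = 0
      · exact key0 Q hQs
      obtain ⟨R', hR', hle⟩ := halve hQo hQs
      have hlt' : R'.s.den < N := by
        rw [← h]
        by_contra hcon
        push Not at hcon
        have e1 : R.s.den ^ 8 ≤ R'.s.den ^ 8 := Nat.pow_le_pow_left hcon 8
        have e2 : R'.s.den ^ 8 ≤ 16 * Q.s.den ^ 2 := by
          have := Nat.mul_le_mul hle hle
          calc R'.s.den ^ 8 = R'.s.den ^ 4 * R'.s.den ^ 4 := by ring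
            _ ≤ 4 * Q.s.den * (4 * Q.s.den) := this
            _ = 16 * Q.s.den ^ 2 := by ring
        have e3 : R.s.den ^ 8 = R.s.den ^ 6 * R.s.den ^ 2 := by ring
        have e4 : 2 ^ 6 ≤ R.s.den ^ 6 := Nat.pow_le_pow_left hN2 6
        have e5 : 2 ^ 6 * R.s.den ^ 2 ≤ R.s.den ^ 6 * R.s.den ^ 2 := Nat.mul_le_mul_right _ e4
        have e6 : 0 < R.s.den ^ 2 := by positivity
        omega
      have := ih R'.s.den hlt' R' rfl
      exact mem_of_s_sq (add_mem this this) hR'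
    rcases Nat.le_total (R + P0).s.den (R + -P0).s.den with hle | hle
    · have h4 := main (R + P0) h1 (by
        calc (R + P0).s.den ^ 2 = (R + P0).s.den * (R + P0).s.den := by ring
          _ ≤ (R + P0).s.den * (R + -P0).s.den := Nat.mul_le_mul_left _ hle
          _ ≤ _ := h3)
      have := add_mem h4 (neg_mem P0_mem)
      rwa [add_neg_cancel_right] at this
    · have h4 := main (R + -P0) h2 (by
        calc (R + -P0).s.den ^ 2 = (R + -P0).s.den * (R + -P0).s.den := by ring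
          _ ≤ (R + P0).s.den * (R + -P0).s.den := Nat.mul_le_mul_right _ hle
          _ ≤ _ := h3)
      have := add_mem h4 P0_mem
      rwa [neg_add_cancel_right] at this
  · -- odd denominator
    have hN3 : 3 ≤ R.s.den := by
      have h4 := R.s.den_pos
      by_contra hcon
      push Not at hcon
      have h5 : R.s.den = 1 := by omega
      rw [h5] at hlt
      have h6 : R.s.num ^ 2 = 0 := by
        have := sq_nonneg R.s.num
        push_cast at hlt
        omega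
      have h7 : R.s.num = 0 := by simpa using h6
      exact hs (Rat.num_eq_zero.1 h7)
    obtain ⟨R', hR', hle⟩ := halve hodd hs
    have hlt' : R'.s.den < N := by
      rw [← h]
      by_contra hcon
      push Not at hcon
      have e1 : R.s.den ^ 4 ≤ R'.s.den ^ 4 := Nat.pow_le_pow_left hcon 4
      have e2 : R.s.den ^ 4 = R.s.den ^ 3 * R.s.den := by ring
      have e3 : 3 ^ 3 ≤ R.s.den ^ 3 := Nat.pow_le_pow_left hN3 3
      have e4 : 3 ^ 3 * R.s.den ≤ R.s.den ^ 3 * R.s.den := Nat.mul_le_mul_right _ e3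
      omega
    have := ih R'.s.den hlt' R' rfl
    exact mem_of_s_sq (add_mem this this) hR'

/-- Every rational point is `n P0` or `n P0 + T0`. -/
theorem mordell_weil (R : Pt) : ∃ n : ℤ, R = n • P0 ∨ R = n • P0 + T0 := by
  obtain ⟨m, n, h⟩ := AddSubgroup.mem_closure_pair.1 (mem_Gam R)
  refine ⟨m, ?_⟩
  rcases Int.even_or_odd' n with ⟨k, rfl | rfl⟩
  · left
    rw [← h, mul_comm, mul_smul, two_zsmul, T0_add_T0, smul_zero, add_zero]
  · right
    rw [← h, add_smul, one_smul, mul_comm, mul_smul, two_zsmul, T0_add_T0, smul_zero, zero_add]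

end Pool.Agent.H700R2.Jac
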