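import Pool.Agent.H700R2.JacDescent

/-!
# Structure of the multiples of `P0`
-/

set_option autoImplicit false
set_option linter.unusedSectionVars false

namespace Pool.Agent.H700R2.Jac

/-! ### The prime two -/

section two

instance fact2 : Fact (Nat.Prime 2) := ⟨Nat.prime_two⟩

theorem not_unit_two (R : Pt) : ¬ padicNorm 2 R.s = 1 := by
  intro h
  have hden : ¬ 2 ∣ R.s.den := (nm_le_one_iff R.s).1 h.le
  have hden1 : padicNorm 2 (R.s.den : ℚ) = 1 := (padicNorm.nat_eq_one_iff _).2 hden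
  have hnum : padicNorm 2 (R.s.num : ℚ) = 1 := by
    rw [nm_eq_div, hden1, div_one] at h; exact h
  have hnum' : ¬ (2 : ℤ) ∣ R.s.num := by
    have := (padicNorm.int_eq_one_iff (p := 2) R.s.num).1 hnum
    exact_mod_cast this
  obtain ⟨W, -, hW⟩ := exists_W R
  have hN : (R.s.den : ℤ) % 2 = 1 := by omega
  have hM : R.s.num % 2 = 1 := by omega
  have e : ((W : ZMod 8)) ^ 2 = (R.s.den : ZMod 8) ^ 4 -
      2 * ((R.s.num : ℤ) : ZMod 8) ^ 2 * (R.s.den : ZMod 8) ^ 2 -
      4 * ((R.s.num : ℤ) : ZMod 8) ^ 4 := by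
    have := congrArg (fun z : ℤ => (z : ZMod 8)) hW
    push_cast at this
    exact this
  obtain ⟨k, hk⟩ : ∃ k : ℤ, (R.s.den : ℤ) = 2 * k + 1 := ⟨(R.s.den : ℤ) / 2, by omega⟩
  obtain ⟨l, hl⟩ : ∃ l : ℤ, R.s.num = 2 * l + 1 := ⟨R.s.num / 2, by omega⟩
  have h4 : (R.s.den : ZMod 8) = 2 * (k : ZMod 8) + 1 := by
    have := congrArg (fun z : ℤ => (z : ZMod 8)) hk
    push_cast at this
    exact this
  rw [h4, hl] at e
  push_cast at e
  generalize (W : ZMod 8) = w at *
  generalize (k : ZMod 8) = k' at *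
  generalize (l : ZMod 8) = l' at *
  clear * - e
  revert w k' l'
  decide

theorem ker_or_big_two (R : Pt) : Ker 2 R ∨ Big 2 R := by
  rcases lt_trichotomy (padicNorm 2 R.s) 1 with h | h | h
  · exact Or.inl h
  · exact absurd h (not_unit_two R)
  · exact Or.inr h

theorem ker_two_P0 : Ker 2 (P0 + P0) := by
  have e : (P0 + P0).s = 2 / 5 := by
    rw [add_s]
    show ((1 / 2 : ℚ) * (1 / 2) + 1 / 2 * (1 / 2)) / (1 + 4 * (1 / 2) ^ 2 * (1 / 2) ^ 2) = 2 / 5
    norm_num
  unfold Ker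
  rw [e, padicNorm.div]
  have h5 : padicNorm 2 (5 : ℚ) = 1 := by
    have := (padicNorm.nat_eq_one_iff (p := 2) 5).2 (by norm_num)
    exact_mod_cast this
  have h2 : padicNorm 2 (2 : ℚ) < 1 := by
    have := (padicNorm.nat_lt_one_iff (p := 2) 2).2 (dvd_refl 2)
    exact_mod_cast this
  rw [h5, div_one]; exact h2

theorem not_ker_P0 : ¬ Ker 2 P0 := by
  have h : Big 2 P0 := by
    unfold Big
    rw [one_lt_nm_iff]
    show 2 ∣ (1 / 2 : ℚ).den
    norm_num
  intro h'
  unfold Big at h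
  unfold Ker at h'
  linarith

theorem ker_T0 (p : ℕ) [Fact p.Prime] : Ker p T0 := by
  unfold Ker
  show padicNorm p 0 < 1
  rw [padicNorm.zero]; exact one_pos

theorem even_ker {n : ℤ} (hn : Even n) : Ker 2 (n • P0) := by
  obtain ⟨k, rfl⟩ := hn
  have : (k + k) • P0 = k • (P0 + P0) := by rw [add_smul, smul_add]
  rw [this]
  exact ker_two_P0.zsmul k

theorem odd_not_ker {n : ℤ} (hn : Odd n) : ¬ Ker 2 (n • P0) := by
  obtain ⟨k, rfl⟩ := hn
  intro h
  have h1 : Ker 2 ((2 * k) • P0) := even_ker ⟨k, by ring⟩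
  have h2 := h.add h1.neg
  have : (2 * k + 1) • P0 + -((2 * k) • P0) = P0 := by
    rw [add_smul, one_smul]; abel
  rw [this] at h2
  exact not_ker_P0 h2

/-- the filtration of the kernel -/
theorem Ker.add_le {A B : Pt} (hA : Ker 2 A) (hB : Ker 2 B) {c : ℚ} (h1 : padicNorm 2 A.s ≤ c)
    (h2 : padicNorm 2 B.s ≤ c) : padicNorm 2 (A + B).s ≤ c := by
  rw [add_s, padicNorm.div, nm_den (nm_mul_lt hA.le hB), div_one]
  apply nm_add_le
  · rw [padicNorm.mul, hB.t, mul_one]; exact h1
  · rw [padicNorm.mul, hA.t, mul_one]; exact h2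

theorem Ker.nsmul_le {A : Pt} (hA : Ker 2 A) (n : ℕ) : padicNorm 2 (n • A).s ≤ padicNorm 2 A.s := by
  induction n with
  | zero => rw [zero_nsmul, zero_s, padicNorm.zero]; exact nm_nonneg _
  | succ n ih => rw [succ_nsmul]; exact (hA.nsmul n).add_le hA ih le_rfl

theorem Good.double_nm {R : Pt} (hR : Good R) : Good (R + R) ∧
    padicNorm 2 (R + R).s < padicNorm 2 R.s := by
  have hk := hR.1
  have hne := hR.2
  have ht0 : R.t ≠ 0 := by
    intro h
    have := hk.t
    rw [h, padicNorm.zero] at this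
    exact zero_ne_one this
  have e : (R + R).s = 2 * R.s * R.t / (1 + 4 * R.s ^ 2 * R.s ^ 2) := by
    rw [add_s]; ring_nf
  refine ⟨⟨hk.add hk, ?_⟩, ?_⟩
  · rw [e]
    have hB := (den_pos R.s R.s).ne'
    exact div_ne_zero (mul_ne_zero (mul_ne_zero two_ne_zero hne) ht0) hB
  · have h2 : padicNorm 2 (2 : ℚ) < 1 := by
      have := (padicNorm.nat_lt_one_iff (p := 2) 2).2 (dvd_refl 2)
      exact_mod_cast this
    rw [e, padicNorm.div, nm_den (nm_mul_lt hk.le hk), div_one, padicNorm.mul, hk.t, mul_one,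
      padicNorm.mul]
    have h3 : 0 < padicNorm 2 R.s := lt_of_le_of_ne (nm_nonneg _) (Ne.symm (padicNorm.nonzero hne))
    calc padicNorm 2 2 * padicNorm 2 R.s < 1 * padicNorm 2 R.s := by
          apply mul_lt_mul_of_pos_right h2 h3
      _ = _ := one_mul _

theorem Good.odd_mul {R : Pt} (hR : Good R) (k : ℕ) : Good (R + k • (R + R)) := by
  have hk := hR.1
  obtain ⟨h1, h2⟩ := hR.double_nm
  have h3 : Ker 2 (k • (R + R)) := h1.1.nsmul k
  have h4 : padicNorm 2 (k • (R + R)).s < padicNorm 2 R.s := lt_of_le_of_lt (h1.1.nsmul_le k) h2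
  refine ⟨hk.add h3, ?_⟩
  intro h0
  rw [add_s, div_eq_zero_iff] at h0
  have hB := (den_pos R.s (k • (R + R)).s).ne'
  have h5 := h0.resolve_right hB
  have h6 : padicNorm 2 (R.s * (k • (R + R)).t + (k • (R + R)).s * R.t) = padicNorm 2 R.s := by
    rw [nm_add_big]
    · rw [padicNorm.mul, h3.t, mul_one]
    · rw [padicNorm.mul, hk.t, mul_one, padicNorm.mul, h3.t, mul_one]; exact h4
  rw [h5, padicNorm.zero] at h6
  exact padicNorm.nonzero hR.2 h6.symm

theorem Good.nsmul {R : Pt} (hR : Good R) {m : ℕ} (hm : m ≠ 0) : Good (m • R) := by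
  induction m using Nat.strong_induction_on with
  | _ m ih =>
  rcases Nat.even_or_odd' m with ⟨k, rfl | rfl⟩
  · have := ih k (by omega) (by omega)
    rw [two_mul, add_smul]
    exact this.double_nm.1
  · have e : (2 * k + 1) • R = R + k • (R + R) := by
      rw [add_smul, one_smul, mul_comm, mul_smul, two_smul, add_comm]
    rw [e]
    exact hR.odd_mul k

/-- the doubled generator -/
def Q0 : Pt := P0 + P0

theorem Q0_s : Q0.s = 2 / 5 := by
  unfold Q0
  rw [add_s]
  show ((1 / 2 : ℚ) * (1 / 2) + 1 / 2 * (1 / 2)) / (1 + 4 * (1 / 2) ^ 2 * (1 / 2) ^ 2) = 2 / 5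
  norm_num

theorem good_Q0 : Good Q0 := by
  refine ⟨ker_two_P0, ?_⟩
  rw [Q0_s]; norm_num

end two

/-! ### Torsion modulo primes -/

section pigeon

variable {p : ℕ} [hp : Fact p.Prime]

/-- residue class of a rational number -/
def res (p : ℕ) [Fact p.Prime] (x : ℚ) : ZMod p := (x.num : ZMod p) * (x.den : ZMod p)⁻¹

theorem res_eq {x y : ℚ} (hx : padicNorm p x ≤ 1) (hy : padicNorm p y ≤ 1)
    (h : res p x = res p y) : padicNorm p (x - y) < 1 := by
  have hx' : ¬ p ∣ x.den := (nm_le_one_iff x).1 hx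
  have hy' : ¬ p ∣ y.den := (nm_le_one_iff y).1 hy
  have hx0 : (x.den : ZMod p) ≠ 0 := fun h' => hx' ((ZMod.natCast_eq_zero_iff _ p).1 h')
  have hy0 : (y.den : ZMod p) ≠ 0 := fun h' => hy' ((ZMod.natCast_eq_zero_iff _ p).1 h')
  have h1 : ((x.num * y.den - y.num * x.den : ℤ) : ZMod p) = 0 := by
    unfold res at h
    rw [← div_eq_mul_inv, ← div_eq_mul_inv, div_eq_div_iff hx0 hy0] at h
    push_cast
    rw [h, sub_self]
  have h2 : (p : ℤ) ∣ x.num * y.den - y.num * x.den := (ZMod.intCast_zmod_eq_zero_iff_dvd _ p).1 h1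
  have hxq : (x.den : ℚ) ≠ 0 := by exact_mod_cast x.den_nz
  have hyq : (y.den : ℚ) ≠ 0 := by exact_mod_cast y.den_nz
  have e : x - y = ((x.num * y.den - y.num * x.den : ℤ) : ℚ) / (x.den * y.den) := by
    conv_lhs => rw [← Rat.num_div_den x, ← Rat.num_div_den y]
    push_cast
    field_simp
  rw [e, padicNorm.div, padicNorm.mul, (padicNorm.nat_eq_one_iff _).2 hx',
    (padicNorm.nat_eq_one_iff _).2 hy', one_mul, div_one]
  exact (padicNorm.int_lt_one_iff _).2 h2

theorem sub_ker {A B : Pt} (h2 : p ≠ 2) (hA : padicNorm p A.s ≤ 1) (hB : padicNorm p B.s ≤ 1)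
    (hs : padicNorm p (A.s - B.s) < 1) (ht : padicNorm p (A.t - B.t) < 1) : Ker p (A + -B) := by
  have hAt := t_le hA
  have hBt := t_le hB
  by_cases hden : padicNorm p (1 + 4 * A.s ^ 2 * (-B).s ^ 2) = 1
  · unfold Ker
    rw [add_s, padicNorm.div, hden, div_one, neg_s, neg_t]
    have e : A.s * B.t + -B.s * A.t = B.t * (A.s - B.s) + (-B.s) * (A.t - B.t) := by ring
    rw [e]
    apply nm_add_lt
    · exact nm_mul_lt hBt hs
    · apply nm_mul_lt _ ht
      rw [padicNorm.neg]; exact hB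
  · have e0 : 1 + 4 * A.s ^ 2 * (-B).s ^ 2 = 1 + 4 * A.s ^ 2 * B.s ^ 2 := by rw [neg_s]; ring
    rw [e0] at hden
    have hle : padicNorm p (1 + 4 * A.s ^ 2 * B.s ^ 2) ≤ 1 := by
      apply nm_add_le
      · rw [padicNorm.one]
      · exact nm_mul_le (nm_mul_le nm_four_le (nm_pow_le hA 2)) (nm_pow_le hB 2)
    have hlt : padicNorm p (1 + 4 * A.s ^ 2 * B.s ^ 2) < 1 := lt_of_le_of_ne hle hden
    have hlt4 : padicNorm p (1 + 4 * A.s ^ 4) < 1 := by
      have e : 1 + 4 * A.s ^ 4 = (1 + 4 * A.s ^ 2 * B.s ^ 2) +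
        (4 * A.s ^ 2 * (A.s + B.s)) * (A.s - B.s) := by ring
      rw [e]
      apply nm_add_lt hlt
      apply nm_mul_lt _ hs
      exact nm_mul_le (nm_mul_le nm_four_le (nm_pow_le hA 2)) (nm_add_le hA hB)
    -- `s` is a unit
    have hs1 : padicNorm p A.s = 1 := by
      by_contra hne
      have hlt' : padicNorm p A.s < 1 := lt_of_le_of_ne hA hne
      have : padicNorm p (1 + 4 * A.s ^ 4) = 1 :=
        nm_one_add (nm_mul_lt nm_four_le (nm_pow_lt hlt' (by norm_num)))
      linarith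
    -- `t` is a unit
    have ht1 : padicNorm p A.t = 1 := by
      by_contra hne
      have hlt' : padicNorm p A.t < 1 := lt_of_le_of_ne hAt hne
      have h5 : padicNorm p (2 * 5 : ℚ) < 1 := by
        -- t² + (1+4s⁴) = 2 - 2 s², 4 (1 - s⁴) + (1 + 4 s⁴) = 5
        have e : (2 * 5 : ℚ) = (4 * (1 + A.s ^ 2)) * (A.t ^ 2 + (1 + 4 * A.s ^ 4)) +
          2 * (1 + 4 * A.s ^ 4) := by rw [A.h]; ring
        rw [e]
        apply nm_add_lt
        · apply nm_mul_lt
          · apply nm_mul_le nm_four_le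
            apply nm_add_le
            · rw [padicNorm.one]
            · exact nm_pow_le hA 2
          · exact nm_add_lt (nm_pow_lt hlt' (by norm_num)) hlt4
        · exact nm_mul_lt nm_two_le hlt4
      rw [padicNorm.mul, nm_two_eq h2, one_mul] at h5
      have hp5 : p = 5 := by
        have : padicNorm p ((5 : ℕ) : ℚ) < 1 := by exact_mod_cast h5
        rw [padicNorm.nat_lt_one_iff] at this
        exact (Nat.prime_dvd_prime_iff_eq hp.out (by norm_num)).1 this
      subst hp5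
      exact t_five hA hlt'
    have key := congrArg (padicNorm p) (add_s' A (-B))
    rw [padicNorm.mul, neg_s, neg_t] at key
    have h6 : padicNorm p (A.s * B.t - -B.s * A.t) = 1 := by
      have e : A.s * B.t - -B.s * A.t = 2 * A.s * A.t +
        ((-A.s) * (A.t - B.t) + (-A.t) * (A.s - B.s)) := by ring
      rw [e]
      apply nm_unit_add
      · rw [padicNorm.mul, padicNorm.mul, nm_two_eq h2, hs1, ht1]; norm_num
      · apply nm_add_lt
        · apply nm_mul_lt _ ht
          rw [padicNorm.neg]; exact hA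
        · apply nm_mul_lt _ hs
          rw [padicNorm.neg]; exact hAt
    rw [h6, mul_one] at key
    unfold Ker
    rw [key]
    have e : A.s ^ 2 - (-B.s) ^ 2 = (A.s + B.s) * (A.s - B.s) := by ring
    rw [e]
    exact nm_mul_lt (nm_add_le hA hB) hs

/-- Modulo every prime, `P0` has finite order. -/
theorem exists_ker (p : ℕ) [hp : Fact p.Prime] : ∃ n : ℕ, n ≠ 0 ∧ Ker p (n • P0) := by
  by_cases h2 : p = 2
  · subst h2
    refine ⟨2, by norm_num, ?_⟩
    rw [two_nsmul]
    exact ker_two_P0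
  by_cases hbig : ∃ n : ℕ, n ≠ 0 ∧ Big p (n • P0)
  · obtain ⟨n, hn, hb⟩ := hbig
    refine ⟨n + n, by omega, ?_⟩
    rw [add_smul]
    exact hb.double h2
  · push Not at hbig
    have hle : ∀ n : ℕ, padicNorm p (n • P0).s ≤ 1 := by
      intro n
      by_cases hn : n = 0
      · rw [hn, zero_nsmul]
        exact (Ker.zero (p := p)).le
      · exact not_lt.1 (hbig n hn)
    obtain ⟨i, j, hij, hg⟩ := Finite.exists_ne_map_eq_of_infinite
      (fun n : ℕ => (res p (n • P0).s, res p (n • P0).t))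
    simp only [Prod.mk.injEq] at hg
    have main : ∀ a b : ℕ, a < b → res p (b • P0).s = res p (a • P0).s →
        res p (b • P0).t = res p (a • P0).t → ∃ n : ℕ, n ≠ 0 ∧ Ker p (n • P0) := by
      intro a b hab h3 h4
      refine ⟨b - a, by omega, ?_⟩
      have h5 := sub_ker h2 (hle b) (hle a) (res_eq (hle b) (hle a) h3)
        (res_eq (t_le (hle b)) (t_le (hle a)) h4)
      have e : b • P0 + -(a • P0) = (b - a) • P0 := by
        have : b • P0 = (b - a) • P0 + a • P0 := by
          rw [← add_smul]; congr 1; omega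
        rw [this, add_neg_cancel_right]
      rwa [e] at h5
    rcases lt_or_gt_of_ne hij with h | h
    · exact main i j h hg.1.symm hg.2.symm
    · exact main j i h hg.1 hg.2

/-- A positive multiple of `P0` lies in the kernel of reduction at all small primes. -/
theorem exists_ker_all (B : ℕ) : ∃ n : ℕ, n ≠ 0 ∧ ∀ q : ℕ, q < B → (hq : q.Prime) →
    Ker q (n • P0) := by
  induction B with
  | zero => exact ⟨1, one_ne_zero, fun q hq => absurd hq (Nat.not_lt_zero _)⟩
  | succ B ih =>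
    obtain ⟨n, hn, h⟩ := ih
    by_cases hB : B.Prime
    · have : Fact B.Prime := ⟨hB⟩
      obtain ⟨m, hm, h'⟩ := exists_ker B
      refine ⟨n * m, Nat.mul_ne_zero hn hm, ?_⟩
      intro q hq hqp
      have : Fact q.Prime := ⟨hqp⟩
      rcases Nat.lt_succ_iff_lt_or_eq.1 hq with h1 | h1
      · rw [mul_comm, mul_smul]
        exact (h q h1 hqp).nsmul m
      · subst h1
        rw [mul_smul]
        exact h'.nsmul n
    · refine ⟨n, hn, ?_⟩
      intro q hq hqp
      rcases Nat.lt_succ_iff_lt_or_eq.1 hq with h1 | h1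
      · exact h q h1 hqp
      · subst h1
        exact absurd hqp hB

end pigeon

end Pool.Agent.H700R2.Jac
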