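import Mathlib

/-!
# The group of rational points of `t² = 1 - 2 s² - 4 s⁴`

The curve is given the group structure with neutral element `(0, 1)` (Jacobi quartic addition law).
-/

set_option autoImplicit false

namespace Pool.Agent.H700R2.Jac

/-- Rational points of the curve. -/
@[ext] structure Pt where
  s : ℚ
  t : ℚ
  h : t ^ 2 = 1 - 2 * s ^ 2 - 4 * s ^ 4

theorem den_pos (s u : ℚ) : 0 < 1 + 4 * s ^ 2 * u ^ 2 := by positivity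

/-- first coordinate of the sum -/
def addS (s t u v : ℚ) : ℚ := (s * v + u * t) / (1 + 4 * s ^ 2 * u ^ 2)

/-- second coordinate of the sum -/
def addT (s t u v : ℚ) : ℚ :=
  ((1 - 4 * s ^ 2 * u ^ 2) * (t * v - 2 * s * u) - 8 * s * u * (s ^ 2 + u ^ 2)) /
    (1 + 4 * s ^ 2 * u ^ 2) ^ 2

theorem add_on {s1 t1 s2 t2 : ℚ} (h1 : t1 ^ 2 = 1 - 2 * s1 ^ 2 - 4 * s1 ^ 4)
    (h2 : t2 ^ 2 = 1 - 2 * s2 ^ 2 - 4 * s2 ^ 4) :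
    addT s1 t1 s2 t2 ^ 2 = 1 - 2 * addS s1 t1 s2 t2 ^ 2 - 4 * addS s1 t1 s2 t2 ^ 4 := by
  have hB := (den_pos s1 s2).ne'
  have key : ((1 - 4 * s1 ^ 2 * s2 ^ 2) * (t1 * t2 - 2 * s1 * s2) -
      8 * s1 * s2 * (s1 ^ 2 + s2 ^ 2)) ^ 2 = (1 + 4 * s1 ^ 2 * s2 ^ 2) ^ 4 -
      2 * (s1 * t2 + s2 * t1) ^ 2 * (1 + 4 * s1 ^ 2 * s2 ^ 2) ^ 2 -
      4 * (s1 * t2 + s2 * t1) ^ 4 := by
    linear_combination (32*s1^4*s2^6 + 16*s1^4*s2^4*t2^2 - 16*s1^4*s2^4 + 8*s1^2*s2^4 +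
      16*s1^2*s2^2*t2^2 + 16*s1*s2^3*t1*t2 + 4*s2^4*t1^2 + 4*s2^4 + 2*s2^2 + t2^2) * h1 +
      (-64*s1^8*s2^4 - 64*s1^6*s2^2 - 24*s1^4*s2^2 + 4*s1^4*t2^2 + 16*s1^3*s2*t1*t2 +
      16*s1^2*s2^2 + 1) * h2
  unfold addS addT
  rw [div_pow, div_pow, div_pow, key]
  field_simp

instance : Zero Pt := ⟨⟨0, 1, by norm_num⟩⟩
instance : Neg Pt := ⟨fun a => ⟨-a.s, a.t, by rw [a.h]; ring⟩⟩
instance : Add Pt := ⟨fun a b => ⟨addS a.s a.t b.s b.t, addT a.s a.t b.s b.t, add_on a.h b.h⟩⟩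

theorem zero_s : (0 : Pt).s = 0 := rfl
theorem zero_t : (0 : Pt).t = 1 := rfl
theorem neg_s (a : Pt) : (-a).s = -a.s := rfl
theorem neg_t (a : Pt) : (-a).t = a.t := rfl
theorem add_s (a b : Pt) : (a + b).s = (a.s * b.t + b.s * a.t) / (1 + 4 * a.s ^ 2 * b.s ^ 2) := rfl
theorem add_t (a b : Pt) : (a + b).t =
    ((1 - 4 * a.s ^ 2 * b.s ^ 2) * (a.t * b.t - 2 * a.s * b.s) -
      8 * a.s * b.s * (a.s ^ 2 + b.s ^ 2)) / (1 + 4 * a.s ^ 2 * b.s ^ 2) ^ 2 := rfl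

theorem add_comm' (a b : Pt) : a + b = b + a := by
  ext
  · rw [add_s, add_s]; ring_nf
  · rw [add_t, add_t]; ring_nf

theorem add_zero' (a : Pt) : a + 0 = a := by
  ext
  · rw [add_s, zero_s, zero_t]; ring
  · rw [add_t, zero_s, zero_t]; ring

theorem neg_add' (a : Pt) : -a + a = 0 := by
  have hB := (den_pos a.s a.s).ne'
  have h := a.h
  ext
  · rw [add_s, neg_s, neg_t, zero_s]; ring
  · rw [add_t, neg_s, neg_t, zero_t]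
    have : (1 + 4 * (-a.s) ^ 2 * a.s ^ 2) ≠ 0 := by
      have : (1 + 4 * (-a.s) ^ 2 * a.s ^ 2) = 1 + 4 * a.s ^ 2 * a.s ^ 2 := by ring
      rw [this]; exact hB
    rw [div_eq_one_iff_eq (pow_ne_zero 2 this)]
    linear_combination (1 - 4 * a.s ^ 4) * h

theorem assoc_s (a b c : Pt) : ((a + b) + c).s = (a + (b + c)).s := by
  obtain ⟨s1, t1, h1⟩ := a
  obtain ⟨s2, t2, h2⟩ := b
  obtain ⟨s3, t3, h3⟩ := c
  have hB12 := (den_pos s1 s2).ne'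
  have hB23 := (den_pos s2 s3).ne'
  have hD12 : (1 + 4 * s1 ^ 2 * s2 ^ 2) ^ 2 + 4 * (s1 * t2 + s2 * t1) ^ 2 * s3 ^ 2 ≠ 0 := by
    positivity
  have hD23 : (1 + 4 * s2 ^ 2 * s3 ^ 2) ^ 2 + 4 * (s2 * t3 + s3 * t2) ^ 2 * s1 ^ 2 ≠ 0 := by
    positivity
  have e1 : (((⟨s1, t1, h1⟩ : Pt) + ⟨s2, t2, h2⟩) + ⟨s3, t3, h3⟩).s =
      ((s1 * t2 + s2 * t1) * (1 + 4 * s1 ^ 2 * s2 ^ 2) * t3 +
        s3 * ((1 - 4 * s1 ^ 2 * s2 ^ 2) * (t1 * t2 - 2 * s1 * s2) -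
          8 * s1 * s2 * (s1 ^ 2 + s2 ^ 2))) /
      ((1 + 4 * s1 ^ 2 * s2 ^ 2) ^ 2 + 4 * (s1 * t2 + s2 * t1) ^ 2 * s3 ^ 2) := by
    have hne : 1 + 4 * ((s1 * t2 + s2 * t1) / (1 + 4 * s1 ^ 2 * s2 ^ 2)) ^ 2 * s3 ^ 2 ≠ 0 := by
      positivity
    rw [add_s, add_s, add_t]
    simp only
    rw [div_eq_div_iff hne hD12]
    field_simp
  have e2 : ((⟨s1, t1, h1⟩ : Pt) + (⟨s2, t2, h2⟩ + ⟨s3, t3, h3⟩)).s =
      ((s2 * t3 + s3 * t2) * (1 + 4 * s2 ^ 2 * s3 ^ 2) * t1 +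
        s1 * ((1 - 4 * s2 ^ 2 * s3 ^ 2) * (t2 * t3 - 2 * s2 * s3) -
          8 * s2 * s3 * (s2 ^ 2 + s3 ^ 2))) /
      ((1 + 4 * s2 ^ 2 * s3 ^ 2) ^ 2 + 4 * (s2 * t3 + s3 * t2) ^ 2 * s1 ^ 2) := by
    have hne : 1 + 4 * s1 ^ 2 * ((s2 * t3 + s3 * t2) / (1 + 4 * s2 ^ 2 * s3 ^ 2)) ^ 2 ≠ 0 := by
      positivity
    rw [add_s, add_s, add_t]
    simp only
    rw [div_eq_div_iff hne hD23]
    field_simp
    ring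
  rw [e1, e2, div_eq_div_iff hD12 hD23]
  linear_combination (-32*s1*s2^5*s3^5 + 32*s1*s2^5*s3^3 - 16*s1*s2^4*s3^4*t2*t3 - 32*s1*s2^3*s3^5*t2^2 +
      32*s1*s2^3*s3^5 + 8*s1*s2^3*s3^3 - 12*s1*s2^2*s3^2*t2*t3 - 8*s1*s2*s3^3*t2^2 -
      16*s2^5*s3^4*t1*t3 - 16*s2^4*s3^5*t1*t2 - 4*s2^3*s3^2*t1*t3 - 4*s2^2*s3^3*t1*t2) * h1 +
    (128*s1^5*s2^3*s3^5 + 32*s1^5*s2^3*s3^3 + 32*s1^5*s2^3*s3*t3^2 + 16*s1^5*s2^2*s3^2*t2*t3 -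
      16*s1^4*s2^3*s3^2*t1*t3 - 16*s1^4*s2^2*s3^3*t1*t2 + 32*s1^3*s2^3*s3^5 +
      16*s1^3*s2^2*s3^4*t2*t3 + 32*s1^3*s2*s3^5 + 16*s1^3*s2*s3^3 + 8*s1^3*s2*s3*t3^2 +
      16*s1^2*s2^3*s3^4*t1*t3 - 16*s1^2*s2^2*s3^5*t1*t2 - 32*s1*s2^3*s3^5 - 8*s1*s2*s3^3) * h2 +
    (-128*s1^5*s2^7*s3 - 32*s1^5*s2^5*s3 + 16*s1^5*s2^4*t2*t3 + 16*s1^4*s2^5*t1*t3 +
      16*s1^4*s2^4*s3*t1*t2 - 64*s1^3*s2^5*s3 - 24*s1^3*s2^3*s3 + 4*s1^3*s2^2*t2*t3 +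
      8*s1^3*s2*s3 + 4*s1^2*s2^3*t1*t3 + 12*s1^2*s2^2*s3*t1*t2) * h3

theorem cancel_t (a b : Pt) : ((a + b) + -b).t = a.t := by
  obtain ⟨s1, t1, h1⟩ := a
  obtain ⟨s2, t2, h2⟩ := b
  have hB12 := (den_pos s1 s2).ne'
  have hD12 : (1 + 4 * s1 ^ 2 * s2 ^ 2) ^ 2 + 4 * (s1 * t2 + s2 * t1) ^ 2 * s2 ^ 2 ≠ 0 := by
    positivity
  have hne : 1 + 4 * ((s1 * t2 + s2 * t1) / (1 + 4 * s1 ^ 2 * s2 ^ 2)) ^ 2 * (-s2) ^ 2 ≠ 0 := by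
    positivity
  have e1 : (((⟨s1, t1, h1⟩ : Pt) + ⟨s2, t2, h2⟩) + -⟨s2, t2, h2⟩).t =
      (((1 + 4 * s1 ^ 2 * s2 ^ 2) ^ 2 - 4 * (s1 * t2 + s2 * t1) ^ 2 * s2 ^ 2) *
        (((1 - 4 * s1 ^ 2 * s2 ^ 2) * (t1 * t2 - 2 * s1 * s2) -
          8 * s1 * s2 * (s1 ^ 2 + s2 ^ 2)) * t2 +
          2 * (s1 * t2 + s2 * t1) * (1 + 4 * s1 ^ 2 * s2 ^ 2) * s2) +
        8 * (s1 * t2 + s2 * t1) * (1 + 4 * s1 ^ 2 * s2 ^ 2) * s2 *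
          ((s1 * t2 + s2 * t1) ^ 2 + (1 + 4 * s1 ^ 2 * s2 ^ 2) ^ 2 * s2 ^ 2)) /
      ((1 + 4 * s1 ^ 2 * s2 ^ 2) ^ 2 + 4 * (s1 * t2 + s2 * t1) ^ 2 * s2 ^ 2) ^ 2 := by
    rw [add_t, add_t, add_s, neg_s, neg_t]
    simp only
    rw [div_eq_div_iff (pow_ne_zero 2 hne) (pow_ne_zero 2 hD12)]
    field_simp
    ring
  rw [e1]
  show _ = t1
  rw [div_eq_iff (pow_ne_zero 2 hD12)]
  linear_combination (-64*s1^4*s2^8*t1 - 32*s1^3*s2^5*t2^3 - 80*s1^2*s2^6*t1*t2^2 - 32*s1^2*s2^6*t1 -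
      64*s1*s2^7*t1^2*t2 - 32*s1*s2^7*t2 - 16*s1*s2^5*t2 - 8*s1*s2^3*t2^3 + 8*s1*s2^3*t2 -
      16*s2^8*t1^3 - 16*s2^8*t1 - 8*s2^6*t1 - 4*s2^4*t1*t2^2) * h1 +
    (128*s1^7*s2^5*t2 + 128*s1^6*s2^6*t1 + 96*s1^5*s2^3*t2 + 96*s1^4*s2^4*t1 + 16*s1^3*s2^3*t2
      + 8*s1^3*s2*t2 + 8*s1^2*s2^4*t1 - 4*s1^2*s2^2*t1*t2^2 + 16*s1^2*s2^2*t1 -
      8*s1*s2^3*t2 - 4*s2^4*t1 + t1) * h2

theorem add_T0_s (a b : Pt) (hb : b.s = 0) : (a + b).s = a.s * b.t := by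
  rw [add_s, hb]; ring

theorem add_T0_t (a b : Pt) (hb : b.s = 0) : (a + b).t = a.t * b.t := by
  rw [add_t, hb]; ring

theorem cancel (a b : Pt) : (a + b) + -b = a := by
  ext
  · rw [assoc_s]
    have : b + -b = 0 := by rw [add_comm', neg_add']
    rw [this, add_zero']
  · exact cancel_t a b

theorem assoc' (a b c : Pt) : (a + b) + c = a + (b + c) := by
  by_cases hc : c.s = 0
  · -- `c` is the neutral element or the point of order two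
    have ht : c.t ^ 2 = 1 := by rw [c.h, hc]; ring
    have e1 : (b + c).s = b.s * c.t := add_T0_s b c hc
    have e2 : (b + c).t = b.t * c.t := add_T0_t b c hc
    ext
    · exact assoc_s a b c
    · rw [add_T0_t _ _ hc, add_t, add_t, e1, e2]
      have h4 : (b.s * c.t) ^ 2 = b.s ^ 2 := by rw [mul_pow, ht, mul_one]
      rw [h4]
      have hB := (den_pos a.s b.s).ne'
      field_simp
  · have hs := assoc_s a b c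
    -- compare the first coordinates after subtracting `c`
    have h1 : (((a + b) + c) + -c).s = ((a + (b + c)) + -c).s := by
      rw [cancel]
      rw [assoc_s a (b + c) (-c), cancel]
    ext
    · exact hs
    · rw [add_s, add_s ((a + (b + c))), hs, neg_s, neg_t] at h1
      have hB := (den_pos (a + (b + c)).s (-c.s)).ne'
      rw [div_left_inj' hB] at h1
      have : c.s * ((a + b) + c).t = c.s * (a + (b + c)).t := by linear_combination -h1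
      exact mul_left_cancel₀ hc this

instance : AddCommGroup Pt where
  add_assoc := assoc'
  zero_add a := by rw [add_comm', add_zero']
  add_zero := add_zero'
  neg_add_cancel := neg_add'
  add_comm := add_comm'
  nsmul := nsmulRec
  zsmul := zsmulRec

end Pool.Agent.H700R2.Jac
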