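import Pool.Agent.H700R2.JacSupp

/-!
# Residues modulo four of the primes in the supports, and signs
-/

set_option autoImplicit false
set_option linter.unusedSectionVars false

namespace Pool.Agent.H700R2.Jac

/-! ### Sums of two squares modulo a prime -/

theorem int_mod_four {p : ℕ} [hp : Fact p.Prime] {x y : ℤ} (hy : ¬ (p : ℤ) ∣ y)
    (h : (p : ℤ) ∣ x ^ 2 + y ^ 2) : p % 4 ≠ 3 := by
  have hy' : ((y : ℤ) : ZMod p) ≠ 0 := fun h' => hy ((ZMod.intCast_zmod_eq_zero_iff_dvd _ p).1 h')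
  have h' : ((x ^ 2 + y ^ 2 : ℤ) : ZMod p) = 0 := (ZMod.intCast_zmod_eq_zero_iff_dvd _ p).2 h
  push_cast at h'
  exact ZMod.mod_four_ne_three_of_sq_eq_neg_sq' hy' (eq_neg_of_add_eq_zero_left h')

theorem rat_mod_four {p : ℕ} [hp : Fact p.Prime] {u v : ℚ} (hu : padicNorm p u ≤ 1)
    (hv : padicNorm p v = 1) (h : padicNorm p (u ^ 2 + v ^ 2) < 1) : p % 4 ≠ 3 := by
  have hud : ¬ p ∣ u.den := (nm_le_one_iff u).1 hu
  have hvd : ¬ p ∣ v.den := (nm_le_one_iff v).1 hv.le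
  have hud1 : padicNorm p (u.den : ℚ) = 1 := (padicNorm.nat_eq_one_iff _).2 hud
  have hvd1 : padicNorm p (v.den : ℚ) = 1 := (padicNorm.nat_eq_one_iff _).2 hvd
  have hvn1 : padicNorm p (v.num : ℚ) = 1 := by
    rw [nm_eq_div, hvd1, div_one] at hv; exact hv
  have hvn : ¬ (p : ℤ) ∣ v.num := (padicNorm.int_eq_one_iff _).1 hvn1
  have hp' : Prime (p : ℤ) := Nat.prime_iff_prime_int.1 hp.out
  apply int_mod_four (p := p) (x := u.num * v.den) (y := v.num * u.den)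
  · intro hd
    rcases hp'.dvd_or_dvd hd with h1 | h1
    · exact hvn h1
    · exact hud (by exact_mod_cast h1)
  · rw [← padicNorm.int_lt_one_iff]
    have huq : (u.den : ℚ) ≠ 0 := by exact_mod_cast u.den_nz
    have hvq : (v.den : ℚ) ≠ 0 := by exact_mod_cast v.den_nz
    have e : (((u.num * v.den) ^ 2 + (v.num * u.den) ^ 2 : ℤ) : ℚ) =
        (u ^ 2 + v ^ 2) * ((u.den : ℚ) ^ 2 * (v.den : ℚ) ^ 2) := by
      have eu : (u.num : ℚ) = u * u.den := (Rat.mul_den_eq_num u).symm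
      have ev : (v.num : ℚ) = v * v.den := (Rat.mul_den_eq_num v).symm
      push_cast
      rw [eu, ev]; ring
    rw [e, padicNorm.mul, padicNorm.mul, nm_pow, nm_pow, hud1, hvd1]
    simpa using h

theorem one_add_mod_four {p : ℕ} [hp : Fact p.Prime] {s : ℚ}
    (hs : padicNorm p s ≤ 1) (h : padicNorm p (1 + 4 * s ^ 4) < 1) : p % 4 ≠ 3 := by
  apply rat_mod_four (u := 2 * s ^ 2) (v := 1)
  · exact nm_mul_le nm_two_le (nm_pow_le hs 2)
  · exact padicNorm.one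
  · have e : (2 * s ^ 2) ^ 2 + 1 ^ 2 = 1 + 4 * s ^ 4 := by ring
    rw [e]; exact h

theorem s_double (R : Pt) : (R + R).s = 2 * R.s * R.t / (1 + 4 * R.s ^ 4) := by
  rw [add_s]; ring_nf

theorem t_double (R : Pt) : (R + R).t =
    (1 - 4 * R.s ^ 2 - 24 * R.s ^ 4 + 16 * R.s ^ 6 + 16 * R.s ^ 8) / (1 + 4 * R.s ^ 4) ^ 2 := by
  rw [add_t]
  have e1 : 1 + 4 * R.s ^ 2 * R.s ^ 2 = 1 + 4 * R.s ^ 4 := by ring
  rw [e1]
  congr 1
  linear_combination (1 - 4 * R.s ^ 4) * R.h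

/-- If the double of `R` reduces to infinity then `1 + 4 s(R)⁴` is divisible by `p`. -/
theorem one_add_of_big {p : ℕ} [hp : Fact p.Prime] (h2 : p ≠ 2) {R : Pt} (h : Big p (R + R)) :
    padicNorm p R.s ≤ 1 ∧ padicNorm p (1 + 4 * R.s ^ 4) < 1 := by
  have h' : 1 < padicNorm p (R + R).s := h
  have hs : padicNorm p R.s ≤ 1 := by
    by_contra hcon
    push Not at hcon
    have hb : Big p R := hcon
    have hk : padicNorm p (R + R).s < 1 := hb.double h2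
    linarith
  refine ⟨hs, ?_⟩
  by_contra hcon
  push Not at hcon
  have hle : padicNorm p (1 + 4 * R.s ^ 4) ≤ 1 := by
    apply nm_add_le
    · rw [padicNorm.one]
    · exact nm_mul_le nm_four_le (nm_pow_le hs 4)
  rw [s_double, padicNorm.div, le_antisymm hle hcon, div_one] at h'
  have := nm_mul_le (nm_mul_le (p := p) nm_two_le hs) (t_le hs)
  linarith

theorem big_mod_four {p : ℕ} [hp : Fact p.Prime] (h2 : p ≠ 2) {R : Pt} (h : Big p (R + R)) :
    p % 4 ≠ 3 := by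
  obtain ⟨h3, h4⟩ := one_add_of_big h2 h
  exact one_add_mod_four h3 h4

/-! ### Signs -/

theorem growth {R : Pt} (h : 0 ≤ (R + R).t) : 3 / 2 * R.s ^ 2 ≤ (R + R).s ^ 2 := by
  have hlt := s_sq_lt R
  rw [t_double] at h
  have hB : 0 < (1 + 4 * R.s ^ 4) := by positivity
  have h1 : 0 ≤ 1 - 4 * R.s ^ 2 - 24 * R.s ^ 4 + 16 * R.s ^ 6 + 16 * R.s ^ 8 := by
    by_contra hcon
    push Not at hcon
    have := div_neg_of_neg_of_pos hcon (pow_pos hB 2)
    linarith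
  rw [s_double, div_pow, le_div_iff₀ (pow_pos hB 2)]
  have e1 : R.s ^ 4 = (R.s ^ 2) ^ 2 := by ring
  have e2 : R.s ^ 6 = (R.s ^ 2) ^ 3 := by ring
  have e3 : R.s ^ 8 = (R.s ^ 2) ^ 4 := by ring
  have e4 : (2 * R.s * R.t) ^ 2 = 4 * R.s ^ 2 * (1 - 2 * R.s ^ 2 - 4 * (R.s ^ 2) ^ 2) := by
    rw [mul_pow, mul_pow, R.h]; ring
  rw [e4, e1]
  rw [e1, e2, e3] at h1
  have h0 : 0 ≤ R.s ^ 2 := sq_nonneg _
  generalize R.s ^ 2 = u at *
  have hu : u ≤ 4 / 25 := by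
    by_contra hcon
    push Not at hcon
    have h3 : u ^ 2 ≤ u / 3 := by nlinarith
    have h4 : u ^ 3 ≤ u ^ 2 / 3 := by nlinarith [sq_nonneg u]
    have h5 : u ^ 4 ≤ u ^ 2 / 9 := by nlinarith [sq_nonneg u]
    nlinarith
  have h5 : 0 ≤ 4 * (1 - 2 * u - 4 * u ^ 2) - 3 / 2 * (1 + 4 * u ^ 2) ^ 2 := by
    have h6 : u ^ 2 ≤ (4 / 25) * u := by nlinarith
    have h7 : u ^ 2 ≤ 16 / 625 := by nlinarith
    have h8 : (1 + 4 * u ^ 2) ^ 2 ≤ (1 + 64 / 625) ^ 2 := by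
      apply pow_le_pow_left₀ (by positivity)
      linarith
    nlinarith
  nlinarith [mul_nonneg h0 h5]

/-- the points `2^k P0` -/
def E (k : ℕ) : Pt := (2 ^ k) • P0

theorem E_succ (k : ℕ) : E (k + 1) = E k + E k := by
  unfold E
  rw [pow_succ, mul_comm, mul_smul, two_smul]

theorem E_good (k : ℕ) : Good (E (k + 1)) := by
  have : E (k + 1) = (2 ^ k) • Q0 := by
    unfold E Q0
    rw [pow_succ, mul_smul, two_smul]
  rw [this]
  exact good_Q0.nsmul (by positivity)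

theorem E_neg (K : ℕ) : ∃ k, K ≤ k ∧ (E k).t < 0 := by
  by_contra hcon
  push Not at hcon
  have h1 : ∀ j : ℕ, (3 / 2 : ℚ) ^ j * (E (K + 1)).s ^ 2 ≤ (E (K + 1 + j)).s ^ 2 := by
    intro j
    induction j with
    | zero => simp
    | succ j ih =>
      have h2 := growth (R := E (K + 1 + j)) (by
        rw [← E_succ]; exact hcon _ (by omega))
      rw [← E_succ] at h2
      calc (3 / 2 : ℚ) ^ (j + 1) * (E (K + 1)).s ^ 2 =
          3 / 2 * ((3 / 2 : ℚ) ^ j * (E (K + 1)).s ^ 2) := by ring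
        _ ≤ 3 / 2 * (E (K + 1 + j)).s ^ 2 := by linarith
        _ ≤ _ := h2
  have h0 : 0 < (E (K + 1)).s ^ 2 := by
    have := (E_good K).2
    positivity
  obtain ⟨j, hj⟩ := pow_unbounded_of_one_lt (1 / (E (K + 1)).s ^ 2) (by norm_num : (1 : ℚ) < 3 / 2)
  have h2 := h1 j
  have h3 := s_sq_lt (E (K + 1 + j))
  rw [div_lt_iff₀ h0] at hj
  linarith

theorem exists_three_mod_four (m : ℕ) (hm : m % 4 = 3) : ∃ q : ℕ, q.Prime ∧ q ∣ m ∧ q % 4 = 3 := by
  induction m using Nat.strong_induction_on with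
  | _ m ih =>
  have h1 : m ≠ 1 := by rintro rfl; omega
  have hq := Nat.minFac_prime h1
  obtain ⟨k, hk⟩ := Nat.minFac_dvd m
  by_cases h3 : m.minFac % 4 = 3
  · exact ⟨_, hq, Nat.minFac_dvd m, h3⟩
  · have h4 : (m.minFac % 4) * (k % 4) % 4 = 3 := by rw [← Nat.mul_mod, ← hk]; exact hm
    have h5 : m.minFac % 4 < 4 := Nat.mod_lt _ (by norm_num)
    have h6 : k % 4 < 4 := Nat.mod_lt _ (by norm_num)
    have h7 : k % 4 = 3 := by
      generalize m.minFac % 4 = a at *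
      generalize k % 4 = b at *
      interval_cases a <;> omega
    have hk0 : 0 < k := by
      rcases Nat.eq_zero_or_pos k with h | h
      · subst h; omega
      · exact h
    have hlt : k < m := by
      rw [hk]
      have := hq.two_le
      have h8 : 2 * k ≤ m.minFac * k := Nat.mul_le_mul_right _ this
      omega
    obtain ⟨q, hq1, hq2, hq3⟩ := ih k hlt h7
    exact ⟨q, hq1, hq2.trans ⟨m.minFac, by rw [mul_comm]; exact hk⟩, hq3⟩

theorem exists_q {R : Pt} (hR : Good R) (ht : (R + R).t < 0) :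
    ∃ q : ℕ, q.Prime ∧ q % 4 = 3 ∧ padicNorm q (R + R).t < 1 := by
  have hodd := hR.odd
  have h2 : (2 : ℤ) ∣ R.s.num := by
    have h3 : padicNorm 2 R.s < 1 := hR.1
    have hden1 : padicNorm 2 (R.s.den : ℚ) = 1 := (padicNorm.nat_eq_one_iff _).2 hodd
    rw [nm_eq_div, hden1, div_one] at h3
    have := (padicNorm.int_lt_one_iff (p := 2) R.s.num).1 h3
    exact_mod_cast this
  have hNq : (R.s.den : ℚ) ≠ 0 := by exact_mod_cast R.s.den_nz
  set N : ℤ := (R.s.den : ℤ) with hN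
  set M : ℤ := R.s.num with hM
  set V : ℤ := N ^ 8 - 4 * M ^ 2 * N ^ 6 - 24 * M ^ 4 * N ^ 4 + 16 * M ^ 6 * N ^ 2 + 16 * M ^ 8 with hV
  have e1 : (R + R).t = (V : ℚ) / ((N ^ 4 + 4 * M ^ 4 : ℤ) : ℚ) ^ 2 := by
    rw [t_double, hV, hN, hM]
    have hd : ((R.s.den : ℚ) ^ 4 + 4 * (R.s.num : ℚ) ^ 4) ≠ 0 := by positivity
    have hd2 : (1 + 4 * R.s ^ 4) ≠ 0 := by positivity
    have es : R.s = (R.s.num : ℚ) / R.s.den := (Rat.num_div_den R.s).symm
    generalize R.s.num = m at *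
    generalize R.s.den = n at *
    rw [es] at hd2 ⊢
    push_cast
    rw [div_eq_div_iff (pow_ne_zero 2 hd2) (pow_ne_zero 2 hd)]
    field_simp
  have hden : (0 : ℤ) < N ^ 4 + 4 * M ^ 4 := by
    have : 0 < N := by rw [hN]; exact_mod_cast R.s.den_pos
    positivity
  have hVneg : V < 0 := by
    by_contra hcon
    push Not at hcon
    have h3 : (0 : ℚ) ≤ (V : ℚ) / ((N ^ 4 + 4 * M ^ 4 : ℤ) : ℚ) ^ 2 := by
      have : (0 : ℚ) ≤ V := by exact_mod_cast hcon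
      positivity
    rw [← e1] at h3
    linarith
  have hVmod : V % 4 = 1 := by
    obtain ⟨n', hn'⟩ : ∃ n' : ℤ, N = 2 * n' + 1 := ⟨N / 2, by omega⟩
    have h3 : N ^ 8 % 4 = 1 := by
      have h4 : N ^ 2 = 4 * (n' ^ 2 + n') + 1 := by rw [hn']; ring
      have h5 : N ^ 8 = 4 * ((64 * (n' ^ 2 + n') ^ 4 + 64 * (n' ^ 2 + n') ^ 3 +
        24 * (n' ^ 2 + n') ^ 2 + 4 * (n' ^ 2 + n'))) + 1 := by
        have : N ^ 8 = (N ^ 2) ^ 4 := by ring
        rw [this, h4]; ring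
      omega
    have h4 : V = N ^ 8 + 4 * (-M ^ 2 * N ^ 6 - 6 * M ^ 4 * N ^ 4 + 4 * M ^ 6 * N ^ 2 + 4 * M ^ 8) := by
      rw [hV]; ring
    omega
  have hmod : V.natAbs % 4 = 3 := by omega
  obtain ⟨q, hq, hqd, hq3⟩ := exists_three_mod_four _ hmod
  have : Fact q.Prime := ⟨hq⟩
  refine ⟨q, hq, hq3, ?_⟩
  have hq2 : q ≠ 2 := by rintro rfl; omega
  have hp' : Prime (q : ℤ) := Nat.prime_iff_prime_int.1 hq
  have hqden : ¬ (q : ℤ) ∣ N ^ 4 + 4 * M ^ 4 := by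
    intro hd
    have h3 : ¬ (q : ℤ) ∣ 2 * M ^ 2 := by
      intro h4
      rcases hp'.dvd_or_dvd h4 with h5 | h5
      · have : q ∣ 2 := by exact_mod_cast h5
        exact hq2 ((Nat.prime_dvd_prime_iff_eq hq Nat.prime_two).1 this)
      · have h6 := hp'.dvd_of_dvd_pow h5
        have h7 : (q : ℤ) ∣ N ^ 4 := by
          have h8 : (q : ℤ) ∣ 4 * M ^ 4 := dvd_mul_of_dvd_right (dvd_pow h6 (by norm_num)) _
          exact (dvd_add_left h8).1 hd
        have h9 := hp'.dvd_of_dvd_pow h7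
        have h10 : q ∣ R.s.den := by rw [hN] at h9; exact_mod_cast h9
        exact dvd_num_of R hq h10 h6
    have h4 := int_mod_four (p := q) (x := N ^ 2) (y := 2 * M ^ 2) h3 (by
      have e : (N ^ 2) ^ 2 + (2 * M ^ 2) ^ 2 = N ^ 4 + 4 * M ^ 4 := by ring
      rw [e]; exact hd)
    exact h4 hq3
  rw [e1, padicNorm.div, nm_pow, (padicNorm.int_eq_one_iff _).2 hqden, one_pow, div_one]
  exact (padicNorm.int_lt_one_iff _).2 (Int.natCast_dvd.2 hqd)

theorem s_le_of_t {p : ℕ} [hp : Fact p.Prime] (h2 : p ≠ 2) {R : Pt} (h : padicNorm p R.t < 1) :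
    padicNorm p R.s ≤ 1 := by
  by_contra hcon
  push Not at hcon
  have hb : Big p R := hcon
  have h3 := hb.t h2
  have : 1 < padicNorm p R.s ^ 2 := one_lt_pow₀ hcon (by norm_num)
  linarith

theorem ker_of_t {q : ℕ} [hp : Fact q.Prime] (hq3 : q % 4 = 3) {R : Pt} (h : padicNorm q R.t < 1) :
    Ker q (R + R) := by
  have h2 : q ≠ 2 := by rintro rfl; omega
  have hs := s_le_of_t h2 h
  have hle : padicNorm q (1 + 4 * R.s ^ 4) ≤ 1 := by
    apply nm_add_le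
    · rw [padicNorm.one]
    · exact nm_mul_le nm_four_le (nm_pow_le hs 4)
  have h1 : padicNorm q (1 + 4 * R.s ^ 4) = 1 := by
    by_contra hne
    exact one_add_mod_four hs (lt_of_le_of_ne hle hne) hq3
  unfold Ker
  rw [s_double, padicNorm.div, h1, div_one]
  exact nm_mul_lt (nm_mul_le nm_two_le hs) h

theorem E_ker_mono {p : ℕ} [hp : Fact p.Prime] {k l : ℕ} (hkl : k ≤ l) (h : Ker p (E k)) :
    Ker p (E l) := by
  obtain ⟨j, rfl⟩ := Nat.exists_eq_add_of_le hkl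
  have : E (k + j) = (2 ^ j) • E k := by
    unfold E
    rw [← mul_smul]; congr 1; ring
  rw [this]
  exact h.nsmul _

end Pool.Agent.H700R2.Jac
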