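import Pool.Agent.H700R2.JacVal

/-!
# New primes in the supports of multiples
-/

set_option autoImplicit false
set_option linter.unusedSectionVars false

namespace Pool.Agent.H700R2.Jac

section tri

variable {p : ℕ} [hp : Fact p.Prime]

/-- `R` reduces to a point of order three with `1 + 2 s² = 0`. -/
def Tri (p : ℕ) (R : Pt) : Prop := padicNorm p R.s ≤ 1 ∧ padicNorm p (1 + 2 * R.s ^ 2) < 1

theorem t_le {R : Pt} (hR : padicNorm p R.s ≤ 1) : padicNorm p R.t ≤ 1 := by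
  have h1 : padicNorm p (R.t ^ 2) ≤ 1 := by
    rw [R.h]
    apply nm_sub_le
    · apply nm_sub_le
      · rw [padicNorm.one]
      · exact nm_mul_le nm_two_le (nm_pow_le hR 2)
    · exact nm_mul_le nm_four_le (nm_pow_le hR 4)
  rw [nm_pow] at h1
  have := nm_nonneg (p := p) R.t
  by_contra hcon
  push Not at hcon
  nlinarith

theorem nm_int' (n : ℤ) {x : ℚ} (hx : padicNorm p x ≤ 1) : padicNorm p (n * x) ≤ 1 :=
  nm_mul_le (nm_int n) hx

theorem Tri.neg {R : Pt} (hR : Tri p R) : Tri p (-R) := by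
  refine ⟨?_, ?_⟩
  · rw [neg_s, padicNorm.neg]; exact hR.1
  · rw [neg_s]
    have : (-R.s) ^ 2 = R.s ^ 2 := by ring
    rw [this]; exact hR.2

theorem Tri.add_ker {R A : Pt} (hR : Tri p R) (hA : Ker p A) : Tri p (R + A) := by
  have hden : padicNorm p (1 + 4 * R.s ^ 2 * A.s ^ 2) = 1 := nm_den (nm_mul_lt hR.1 hA)
  have hRt := t_le hR.1
  have hAs : padicNorm p A.s ≤ 1 := hA.le
  have hAt : padicNorm p A.t ≤ 1 := hA.t.le
  have hs : padicNorm p (R + A).s ≤ 1 := by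
    rw [add_s, padicNorm.div, hden, div_one]
    exact nm_add_le (nm_mul_le hR.1 hAt) (nm_mul_le hAs hRt)
  refine ⟨hs, ?_⟩
  have e : 1 + 2 * (R + A).s ^ 2 = (1 + 2 * R.s ^ 2) + 2 * ((R + A).s ^ 2 - R.s ^ 2) := by ring
  rw [e]
  apply nm_add_lt hR.2
  apply nm_mul_lt nm_two_le
  have hB := (den_pos R.s A.s).ne'
  have e2 : (R + A).s ^ 2 - R.s ^ 2 =
      ((-2) * (R.s ^ 2 * A.s) + (-4) * (R.s ^ 2 * A.s ^ 3) + 2 * (R.s * A.t * R.t) +
        A.s * R.t ^ 2 + (-8) * (R.s ^ 4 * A.s) + (-16) * (R.s ^ 6 * A.s ^ 3)) * A.s /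
        (1 + 4 * R.s ^ 2 * A.s ^ 2) ^ 2 := by
    rw [add_s, eq_div_iff (pow_ne_zero 2 hB)]
    have h1 : ((R.s * A.t + A.s * R.t) / (1 + 4 * R.s ^ 2 * A.s ^ 2)) ^ 2 *
        (1 + 4 * R.s ^ 2 * A.s ^ 2) ^ 2 = (R.s * A.t + A.s * R.t) ^ 2 := by
      field_simp
    rw [sub_mul, h1]
    linear_combination R.s ^ 2 * A.h
  rw [e2, padicNorm.div, nm_pow, hden, one_pow, div_one]
  apply nm_mul_lt _ hA
  have h2 : ∀ (n : ℤ) (x : ℚ), padicNorm p x ≤ 1 → padicNorm p ((n : ℚ) * x) ≤ 1 :=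
    fun n x hx => nm_mul_le (nm_int n) hx
  have t1 := h2 (-2) _ (nm_mul_le (nm_pow_le hR.1 2) hAs)
  have t2 := h2 (-4) _ (nm_mul_le (nm_pow_le hR.1 2) (nm_pow_le hAs 3))
  have t3 := h2 2 _ (nm_mul_le (nm_mul_le hR.1 hAt) hRt)
  have t4 := nm_mul_le hAs (nm_pow_le hRt 2)
  have t5 := h2 (-8) _ (nm_mul_le (nm_pow_le hR.1 4) hAs)
  have t6 := h2 (-16) _ (nm_mul_le (nm_pow_le hR.1 6) (nm_pow_le hAs 3))
  push_cast at t1 t2 t3 t5 t6
  exact nm_add_le (nm_add_le (nm_add_le (nm_add_le (nm_add_le t1 t2) t3) t4) t5) t6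

/-- the product form of the addition law -/
theorem add_mul_sub (A B : Pt) : (A + B).s * (A + -B).s * (1 + 4 * A.s ^ 2 * B.s ^ 2) =
    A.s ^ 2 - B.s ^ 2 := by
  rw [add_s A (-B), neg_s, neg_t]
  have hB := (den_pos A.s B.s).ne'
  have e : 1 + 4 * A.s ^ 2 * (-B.s) ^ 2 = 1 + 4 * A.s ^ 2 * B.s ^ 2 := by ring
  rw [e, mul_div_assoc', div_mul_cancel₀ _ hB]
  have := add_s' A B
  rw [← this]; ring

/-- the tripling formula, multiplied out -/
theorem triple_s (R : Pt) : (R + R + R).s * R.s *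
    ((1 + 4 * R.s ^ 4) ^ 2 + 16 * R.s ^ 4 * R.t ^ 2) =
    R.s ^ 2 * (4 * R.t ^ 2 - (1 + 4 * R.s ^ 4) ^ 2) := by
  have h := add_mul_sub (R + R) R
  have h1 : R + R + -R = R := by abel
  rw [h1] at h
  have h2 : (R + R).s = 2 * R.s * R.t / (1 + 4 * R.s ^ 4) := by
    rw [add_s]; ring_nf
  have hB : (1 + 4 * R.s ^ 4) ≠ 0 := by positivity
  rw [h2] at h
  have h3 : (1 + 4 * (2 * R.s * R.t / (1 + 4 * R.s ^ 4)) ^ 2 * R.s ^ 2) =
      ((1 + 4 * R.s ^ 4) ^ 2 + 16 * R.s ^ 4 * R.t ^ 2) / (1 + 4 * R.s ^ 4) ^ 2 := by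
    field_simp
    ring
  have h4 : (2 * R.s * R.t / (1 + 4 * R.s ^ 4)) ^ 2 - R.s ^ 2 =
      R.s ^ 2 * (4 * R.t ^ 2 - (1 + 4 * R.s ^ 4) ^ 2) / (1 + 4 * R.s ^ 4) ^ 2 := by
    field_simp
    ring
  rw [h3, h4, mul_div_assoc', div_left_inj' (pow_ne_zero 2 hB)] at h
  exact h

theorem Tri.s_eq {R : Pt} (h2 : p ≠ 2) (hR : Tri p R) : padicNorm p R.s = 1 := by
  have h := hR.2
  apply nm_eq_one_of_sq
  have h1 : padicNorm p (2 * R.s ^ 2) = 1 := by
    have : 2 * R.s ^ 2 = -1 + (1 + 2 * R.s ^ 2) := by ring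
    rw [this]
    apply nm_unit_add _ h
    rw [padicNorm.neg, padicNorm.one]
  rwa [padicNorm.mul, nm_two_eq h2, one_mul] at h1

theorem Tri.triple {R : Pt} (h2 : p ≠ 2) (hR : Tri p R) : Ker p (R + R + R) := by
  have hs := hR.s_eq h2
  have he := hR.2
  set e : ℚ := 1 + 2 * R.s ^ 2 with hedef
  have key := congrArg (padicNorm p) (triple_s R)
  have hint : padicNorm p e ≤ 1 := he.le
  have e1 : (1 + 4 * R.s ^ 4) ^ 2 + 16 * R.s ^ 4 * R.t ^ 2 =
      8 + ((-12) + 8 * e ^ 2 + (-3) * e ^ 3) * e := by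
    rw [R.h, hedef]; ring
  have e2 : 4 * R.t ^ 2 - (1 + 4 * R.s ^ 4) ^ 2 =
      (12 + (-12) * e + 4 * e ^ 2 + (-1) * e ^ 3) * e := by
    rw [R.h, hedef]; ring
  have h3 : ∀ (n : ℤ) (x : ℚ), padicNorm p x ≤ 1 → padicNorm p ((n : ℚ) * x) ≤ 1 :=
    fun n x hx => nm_mul_le (nm_int n) hx
  have hF : padicNorm p ((1 + 4 * R.s ^ 4) ^ 2 + 16 * R.s ^ 4 * R.t ^ 2) = 1 := by
    rw [e1]
    apply nm_unit_add (nm_eight_eq h2)
    apply nm_mul_lt _ he
    have t0 := nm_int (p := p) (-12)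
    have t1 := h3 8 _ (nm_pow_le hint 2)
    have t2 := h3 (-3) _ (nm_pow_le hint 3)
    push_cast at t0 t1 t2
    exact nm_add_le (nm_add_le t0 t1) t2
  have hG : padicNorm p (4 * R.t ^ 2 - (1 + 4 * R.s ^ 4) ^ 2) < 1 := by
    rw [e2]
    apply nm_mul_lt _ he
    have t0 := nm_int (p := p) 12
    have t1 := h3 (-12) _ hint
    have t2 := h3 4 _ (nm_pow_le hint 2)
    have t3 := h3 (-1) _ (nm_pow_le hint 3)
    push_cast at t0 t1 t2 t3
    exact nm_add_le (nm_add_le (nm_add_le t0 t1) t2) t3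
  rw [padicNorm.mul, padicNorm.mul, hF, hs, mul_one, mul_one, padicNorm.mul, nm_pow, hs, one_pow,
    one_mul] at key
  unfold Ker
  rw [key]; exact hG

theorem Tri.nsmul {R : Pt} (h2 : p ≠ 2) (hR : Tri p R) {m : ℕ} (hm : ¬ 3 ∣ m) :
    Tri p (m • R) := by
  have h3 : Ker p ((3 : ℕ) • R) := by
    have : (3 : ℕ) • R = R + R + R := by
      rw [succ_nsmul, two_nsmul]
    rw [this]; exact hR.triple h2
  have hmod : m % 3 = 1 ∨ m % 3 = 2 := by omega
  rcases hmod with h | h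
  · have e : m • R = R + (m / 3) • ((3 : ℕ) • R) := by
      rw [← mul_smul]
      conv_lhs => rw [show m = 1 + m / 3 * 3 by omega]
      rw [add_smul, one_smul]
    rw [e]
    exact hR.add_ker (h3.nsmul _)
  · have e : m • R = -R + (m / 3 + 1) • ((3 : ℕ) • R) := by
      rw [← mul_smul]
      have : m • R + R = ((m / 3 + 1) * 3) • R := by
        rw [← succ_nsmul]
        congr 1; omega
      rw [← this]; abel
    rw [e]
    exact hR.neg.add_ker (h3.nsmul _)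

end tri

/-! ### Integral coordinates -/

/-- the second coordinate in lowest terms -/
theorem exists_W (R : Pt) : ∃ W : ℤ, R.t = W / (R.s.den : ℚ) ^ 2 ∧
    W ^ 2 = (R.s.den : ℤ) ^ 4 - 2 * R.s.num ^ 2 * (R.s.den : ℤ) ^ 2 - 4 * R.s.num ^ 4 := by
  have hN : (R.s.den : ℚ) ≠ 0 := by exact_mod_cast R.s.den_nz
  have hs : R.s = R.s.num / (R.s.den : ℚ) := (Rat.num_div_den R.s).symm
  have h1 : (R.t * (R.s.den : ℚ) ^ 2) ^ 2 =
      (((R.s.den : ℤ) ^ 4 - 2 * R.s.num ^ 2 * (R.s.den : ℤ) ^ 2 - 4 * R.s.num ^ 4 : ℤ) : ℚ) := by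
    rw [mul_pow, R.h]
    generalize R.s.den = N at *
    generalize R.s.num = M at *
    rw [hs]
    push_cast
    field_simp
  have h2 : IsSquare ((((R.s.den : ℤ) ^ 4 - 2 * R.s.num ^ 2 * (R.s.den : ℤ) ^ 2 -
      4 * R.s.num ^ 4 : ℤ) : ℚ)) := ⟨R.t * (R.s.den : ℚ) ^ 2, by rw [← h1]; ring⟩
  rw [Rat.isSquare_intCast_iff] at h2
  obtain ⟨W, hW⟩ := h2
  rw [hW] at h1
  have h3 : (R.t * (R.s.den : ℚ) ^ 2) ^ 2 = (W : ℚ) ^ 2 := by rw [h1]; push_cast; ring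
  rcases sq_eq_sq_iff_eq_or_eq_neg.1 h3 with h | h
  · exact ⟨W, by field_simp; exact h, by rw [hW]; ring⟩
  · exact ⟨-W, by field_simp; push_cast; exact h, by rw [hW]; ring⟩

theorem coprime_num_den (R : Pt) : IsCoprime R.s.num (R.s.den : ℤ) := by
  rw [Int.isCoprime_iff_gcd_eq_one]
  exact R.s.reduced

theorem dvd_num_of (R : Pt) {q : ℕ} (hq : q.Prime) (h1 : q ∣ R.s.den) (h2 : (q : ℤ) ∣ R.s.num) :
    False := by
  have h3 : q ∣ R.s.num.natAbs := Int.natCast_dvd.1 h2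
  have h5 : q ∣ Nat.gcd R.s.num.natAbs R.s.den := Nat.dvd_gcd h3 h1
  rw [R.s.reduced] at h5
  exact hq.one_lt.ne' (Nat.dvd_one.1 h5)

theorem not_three_dvd (R : Pt) : ¬ 3 ∣ R.s.den := by
  intro h
  obtain ⟨W, -, hW⟩ := exists_W R
  have hM : ¬ (3 : ℤ) ∣ R.s.num := fun h' => dvd_num_of R Nat.prime_three h h'
  have h3 : (3 : ℤ) ∣ (R.s.den : ℤ) := by exact_mod_cast h
  have e : ((W : ZMod 3)) ^ 2 = (R.s.den : ZMod 3) ^ 4 -
      2 * ((R.s.num : ℤ) : ZMod 3) ^ 2 * (R.s.den : ZMod 3) ^ 2 -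
      4 * ((R.s.num : ℤ) : ZMod 3) ^ 4 := by
    have := congrArg (fun z : ℤ => (z : ZMod 3)) hW
    push_cast at this
    exact this
  have h4 : (R.s.den : ZMod 3) = 0 := (ZMod.natCast_eq_zero_iff _ 3).2 h
  have h5 : ((R.s.num : ℤ) : ZMod 3) ≠ 0 := fun h' => hM ((ZMod.intCast_zmod_eq_zero_iff_dvd _ 3).1 h')
  rw [h4] at e
  generalize ((W : ZMod 3)) = w at *
  generalize ((R.s.num : ℤ) : ZMod 3) = m at *
  revert w m
  decide

/-- `s² < 1/3` -/
theorem s_sq_lt (R : Pt) : R.s ^ 2 < 1 / 3 := by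
  have h := sq_nonneg R.t
  rw [R.h] at h
  by_contra hcon
  push Not at hcon
  nlinarith [sq_nonneg R.s]

theorem num_sq_lt (R : Pt) : 3 * R.s.num ^ 2 < (R.s.den : ℤ) ^ 2 := by
  have h := s_sq_lt R
  have hN : (0 : ℚ) < (R.s.den : ℚ) := by exact_mod_cast R.s.den_pos
  rw [← Rat.num_div_den R.s, div_pow, div_lt_div_iff₀ (by positivity) (by norm_num)] at h
  have : (3 * R.s.num ^ 2 : ℚ) < (R.s.den : ℚ) ^ 2 := by linarith
  exact_mod_cast this

/-- the points in the kernel of reduction modulo two with nonzero first coordinate -/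
def Good (R : Pt) : Prop := Ker 2 R ∧ R.s ≠ 0

theorem Good.odd {R : Pt} (hR : Good R) : ¬ 2 ∣ R.s.den := by
  have : Fact (Nat.Prime 2) := ⟨Nat.prime_two⟩
  rw [← nm_le_one_iff]
  exact hR.1.le

theorem Good.num_ne {R : Pt} (hR : Good R) : R.s.num ≠ 0 := by
  rw [Ne, Rat.num_eq_zero]; exact hR.2

theorem Good.den_ge {R : Pt} (hR : Good R) : 3 ≤ R.s.den := by
  have h1 := num_sq_lt R
  have h2 : 1 ≤ R.s.num ^ 2 := by
    have := hR.num_ne
    have : 0 < R.s.num ^ 2 := by positivity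
    omega
  have h3 := hR.odd
  have h4 := R.s.den_pos
  by_contra hcon
  push Not at hcon
  have h5 : R.s.den = 1 := by
    interval_cases h : R.s.den
    · rfl
    · exact absurd (dvd_refl 2) h3
  rw [h5] at h1
  norm_num at h1
  omega

/-- an odd prime divisor of an odd integer greater than one -/
theorem exists_odd_prime {F : ℤ} (h1 : 1 < F) (h2 : ¬ (2 : ℤ) ∣ F) :
    ∃ p : ℕ, p.Prime ∧ p ≠ 2 ∧ (p : ℤ) ∣ F := by
  have h3 : F.natAbs ≠ 1 := by omega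
  refine ⟨F.natAbs.minFac, Nat.minFac_prime h3, ?_, ?_⟩
  · intro h
    apply h2
    have := Nat.minFac_dvd F.natAbs
    rw [h] at this
    exact Int.natCast_dvd.2 this
  · exact Int.natCast_dvd.2 (Nat.minFac_dvd _)

/-- primes at which a good point reduces to infinity -/
theorem Good.exists_big {R : Pt} (hR : Good R) : ∃ p : ℕ, p.Prime ∧ p ≠ 2 ∧ Big p R := by
  have h1 := hR.den_ge
  obtain ⟨p, hp, hp2, hd⟩ := exists_odd_prime (F := (R.s.den : ℤ)) (by omega) (by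
    have := hR.odd
    omega)
  have : Fact p.Prime := ⟨hp⟩
  refine ⟨p, hp, hp2, ?_⟩
  unfold Big
  rw [one_lt_nm_iff]
  exact_mod_cast hd

/-- the norm of an integral form divided by a power of the denominator -/
theorem nm_form {p : ℕ} [hp : Fact p.Prime] (R : Pt) (F : ℤ) (k : ℕ) (x : ℚ)
    (hx : x = F / (R.s.den : ℚ) ^ k) (hF : (p : ℤ) ∣ F) (hN : ¬ p ∣ R.s.den) :
    padicNorm p x < 1 := by
  have h1 : padicNorm p (R.s.den : ℚ) = 1 := (padicNorm.nat_eq_one_iff _).2 hN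
  rw [hx, padicNorm.div, nm_pow, h1, one_pow, div_one]
  exact (padicNorm.int_lt_one_iff F).2 hF

theorem Good.exists_tri {R : Pt} (hR : Good R) : ∃ p : ℕ, p.Prime ∧ p ≠ 2 ∧ Tri p R := by
  have h1 := hR.den_ge
  have hodd := hR.odd
  obtain ⟨p, hp, hp2, hd⟩ := exists_odd_prime (F := (R.s.den : ℤ) ^ 2 + 2 * R.s.num ^ 2) (by
    have : (3 : ℤ) ≤ R.s.den := by exact_mod_cast h1
    nlinarith [sq_nonneg R.s.num]) (by
    intro h
    have h2 : (2 : ℤ) ∣ (R.s.den : ℤ) ^ 2 := by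
      have := dvd_sub h (Dvd.intro _ rfl : (2 : ℤ) ∣ 2 * R.s.num ^ 2)
      simpa using this
    have := Int.prime_two.dvd_of_dvd_pow h2
    apply hodd
    exact_mod_cast this)
  have : Fact p.Prime := ⟨hp⟩
  have hpN : ¬ p ∣ R.s.den := by
    intro h
    have h3 : (p : ℤ) ∣ (R.s.den : ℤ) := by exact_mod_cast h
    have h4 : (p : ℤ) ∣ 2 * R.s.num ^ 2 := by
      have := dvd_sub hd (dvd_pow h3 (by norm_num : 2 ≠ 0))
      simpa using this
    have hp' : Prime (p : ℤ) := Nat.prime_iff_prime_int.1 hp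
    rcases hp'.dvd_or_dvd h4 with h5 | h5
    · have : p ∣ 2 := by exact_mod_cast h5
      exact hp2 ((Nat.prime_dvd_prime_iff_eq hp Nat.prime_two).1 this)
    · exact dvd_num_of R hp h (hp'.dvd_of_dvd_pow h5)
  have hN : (R.s.den : ℚ) ≠ 0 := by exact_mod_cast R.s.den_nz
  refine ⟨p, hp, hp2, (nm_le_one_iff _).2 hpN, ?_⟩
  apply nm_form R _ 2 _ _ hd hpN
  conv_lhs => rw [← Rat.num_div_den R.s]
  push_cast
  field_simp

/-- Tripling produces a new prime at which the point reduces to infinity. -/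
theorem Good.new_big {R : Pt} (hR : Good R) :
    ∃ p : ℕ, p.Prime ∧ p ≠ 2 ∧ ¬ Big p R ∧ Big p (R + R + R) := by
  have h1 := hR.den_ge
  have hodd := hR.odd
  have hlt := num_sq_lt R
  set N : ℤ := (R.s.den : ℤ) with hN
  set M : ℤ := R.s.num with hM
  have hN3 : (3 : ℤ) ≤ N := by rw [hN]; exact_mod_cast h1
  have hM2 : 0 ≤ M ^ 2 := sq_nonneg M
  obtain ⟨p, hp, hp2, hd⟩ := exists_odd_prime
    (F := N ^ 8 + 24 * M ^ 4 * N ^ 4 - 32 * M ^ 6 * N ^ 2 - 48 * M ^ 8) (by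
      set u := M ^ 2 with hu
      set v := N ^ 2 with hv
      have e1 : N ^ 8 + 24 * M ^ 4 * N ^ 4 - 32 * M ^ 6 * N ^ 2 - 48 * M ^ 8 =
        v ^ 4 + 8 * u ^ 2 * (3 * v ^ 2 - 4 * u * v - 6 * u ^ 2) := by rw [hu, hv]; ring
      rw [e1]
      have hv9 : 9 ≤ v := by rw [hv]; nlinarith
      have h5 : 0 ≤ 3 * v ^ 2 - 4 * u * v - 6 * u ^ 2 := by nlinarith
      have h6 : 0 ≤ 8 * u ^ 2 * (3 * v ^ 2 - 4 * u * v - 6 * u ^ 2) := by positivity
      have h7 : 1 < v ^ 4 := by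
        have : 1 < v ^ 2 := by nlinarith
        nlinarith
      linarith) (by
    intro h
    have h2 : (2 : ℤ) ∣ N ^ 8 := by
      have := dvd_sub h (Dvd.intro _ rfl :
        (2 : ℤ) ∣ 2 * (12 * M ^ 4 * N ^ 4 - 16 * M ^ 6 * N ^ 2 - 24 * M ^ 8))
      have e : N ^ 8 + 24 * M ^ 4 * N ^ 4 - 32 * M ^ 6 * N ^ 2 - 48 * M ^ 8 -
        2 * (12 * M ^ 4 * N ^ 4 - 16 * M ^ 6 * N ^ 2 - 24 * M ^ 8) = N ^ 8 := by ring
      rwa [e] at this
    have := Int.prime_two.dvd_of_dvd_pow h2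
    apply hodd
    rw [hN] at this
    exact_mod_cast this)
  have : Fact p.Prime := ⟨hp⟩
  have hp' : Prime (p : ℤ) := Nat.prime_iff_prime_int.1 hp
  have hpN : ¬ p ∣ R.s.den := by
    intro h
    have h3 : (p : ℤ) ∣ N := by rw [hN]; exact_mod_cast h
    have h4 : (p : ℤ) ∣ 48 * M ^ 8 := by
      have e : 48 * M ^ 8 = N * (N ^ 7 + 24 * M ^ 4 * N ^ 3 - 32 * M ^ 6 * N) -
        (N ^ 8 + 24 * M ^ 4 * N ^ 4 - 32 * M ^ 6 * N ^ 2 - 48 * M ^ 8) := by ring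
      rw [e]
      exact dvd_sub (dvd_mul_of_dvd_left h3 _) hd
    rcases hp'.dvd_or_dvd h4 with h5 | h5
    · have h6 : p ∣ 48 := by exact_mod_cast h5
      have h7 : p ∣ 2 ^ 4 * 3 := by norm_num; exact h6
      rcases (Nat.Prime.dvd_mul hp).1 h7 with h8 | h8
      · exact hp2 ((Nat.prime_dvd_prime_iff_eq hp Nat.prime_two).1 (hp.dvd_of_dvd_pow h8))
      · have := (Nat.prime_dvd_prime_iff_eq hp Nat.prime_three).1 h8
        rw [this] at h
        exact not_three_dvd R h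
    · exact dvd_num_of R hp h (hp'.dvd_of_dvd_pow h5)
  have hs : padicNorm p R.s ≤ 1 := (nm_le_one_iff _).2 hpN
  have hNq : (R.s.den : ℚ) ≠ 0 := by exact_mod_cast R.s.den_nz
  have hF : padicNorm p ((1 + 4 * R.s ^ 4) ^ 2 + 16 * R.s ^ 4 * R.t ^ 2) < 1 := by
    apply nm_form R _ 8 _ _ hd hpN
    rw [R.h]
    rw [hN, hM]
    conv_lhs => rw [← Rat.num_div_den R.s]
    push_cast
    field_simp
    ring
  refine ⟨p, hp, hp2, not_lt.2 hs, ?_⟩
  by_contra hcon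
  unfold Big at hcon
  push Not at hcon
  have key := congrArg (padicNorm p) (triple_s R)
  have hlhs : padicNorm p ((R + R + R).s * R.s *
      ((1 + 4 * R.s ^ 4) ^ 2 + 16 * R.s ^ 4 * R.t ^ 2)) < 1 :=
    nm_mul_lt (nm_mul_le hcon hs) hF
  rw [key] at hlhs
  -- `s` is a unit
  have ht := t_le hs
  have hs1 : padicNorm p R.s = 1 := by
    by_contra hne
    have hlt' : padicNorm p R.s < 1 := lt_of_le_of_ne hs hne
    have : padicNorm p ((1 + 4 * R.s ^ 4) ^ 2 + 16 * R.s ^ 4 * R.t ^ 2) = 1 := by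
      apply nm_unit_add
      · rw [nm_pow, nm_one_add (nm_mul_lt nm_four_le (nm_pow_lt hlt' (by norm_num))), one_pow]
      · have e : 16 * R.s ^ 4 * R.t ^ 2 = (16 * R.t ^ 2) * R.s ^ 4 := by ring
        rw [e]
        apply nm_mul_lt _ (nm_pow_lt hlt' (by norm_num))
        apply nm_mul_le _ (nm_pow_le ht 2)
        exact_mod_cast nm_int (p := p) 16
    linarith
  rw [padicNorm.mul, nm_pow, hs1, one_pow, one_mul] at hlhs
  have hB3 : padicNorm p ((1 + 4 * R.s ^ 4) ^ 3) < 1 := by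
    have e : (1 + 4 * R.s ^ 4) ^ 3 = ((1 + 4 * R.s ^ 4) ^ 2 + 16 * R.s ^ 4 * R.t ^ 2) -
      (4 * R.s ^ 4) * (4 * R.t ^ 2 - (1 + 4 * R.s ^ 4) ^ 2) := by ring
    rw [e]
    apply nm_sub_lt hF
    exact nm_mul_lt (nm_mul_le nm_four_le (nm_pow_le hs 4)) hlhs
  have hB : padicNorm p (1 + 4 * R.s ^ 4) < 1 := by
    rw [nm_pow] at hB3
    by_contra h'
    push Not at h'
    have : 1 ≤ padicNorm p (1 + 4 * R.s ^ 4) ^ 3 := one_le_pow₀ h'
    linarith
  have ht4 : padicNorm p (4 * R.t ^ 2) < 1 := by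
    have e : 4 * R.t ^ 2 = (4 * R.t ^ 2 - (1 + 4 * R.s ^ 4) ^ 2) + (1 + 4 * R.s ^ 4) ^ 2 := by ring
    rw [e]
    exact nm_add_lt hlhs (nm_pow_lt hB (by norm_num))
  have ht2 : padicNorm p R.t < 1 := by
    rw [padicNorm.mul, nm_four_eq hp2, one_mul, nm_pow] at ht4
    by_contra h'
    push Not at h'
    have : 1 ≤ padicNorm p R.t ^ 2 := one_le_pow₀ h'
    linarith
  have h5 : padicNorm p (5 : ℚ) < 1 := by
    have e : (5 : ℚ) = (1 + 4 * R.s ^ 4) + 2 * (1 + R.s ^ 2) * (R.t ^ 2 + (1 + 4 * R.s ^ 4)) := by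
      rw [R.h]; ring
    rw [e]
    apply nm_add_lt hB
    apply nm_mul_lt
    · apply nm_mul_le nm_two_le
      apply nm_add_le
      · rw [padicNorm.one]
      · exact nm_pow_le hs 2
    · exact nm_add_lt (nm_pow_lt ht2 (by norm_num)) hB
  have hp5 : p = 5 := by
    have : padicNorm p ((5 : ℕ) : ℚ) < 1 := by exact_mod_cast h5
    rw [padicNorm.nat_lt_one_iff] at this
    exact (Nat.prime_dvd_prime_iff_eq hp (by norm_num)).1 this
  subst hp5
  exact t_five hs ht2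

/-- Doubling produces a new prime at which the point reduces to a point of order three. -/
theorem Good.new_tri {R : Pt} (hR : Good R) :
    ∃ p : ℕ, p.Prime ∧ p ≠ 2 ∧ ¬ Tri p R ∧ Tri p (R + R) := by
  have h1 := hR.den_ge
  have hodd := hR.odd
  have hlt := num_sq_lt R
  set N : ℤ := (R.s.den : ℤ) with hN
  set M : ℤ := R.s.num with hM
  have hN3 : (3 : ℤ) ≤ N := by rw [hN]; exact_mod_cast h1
  have hM2 : 0 ≤ M ^ 2 := sq_nonneg M
  obtain ⟨p, hp, hp2, hd⟩ := exists_odd_prime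
    (F := N ^ 6 + 6 * M ^ 2 * N ^ 4 - 20 * M ^ 4 * N ^ 2 + 8 * M ^ 6) (by
      set u := M ^ 2 with hu
      set v := N ^ 2 with hv
      have e1 : N ^ 6 + 6 * M ^ 2 * N ^ 4 - 20 * M ^ 4 * N ^ 2 + 8 * M ^ 6 =
        v ^ 3 + u * (6 * v ^ 2 - 20 * u * v + 8 * u ^ 2) := by rw [hu, hv]; ring
      rw [e1]
      have hv9 : 9 ≤ v := by rw [hv]; nlinarith
      have h5 : 0 ≤ 6 * v ^ 2 - 20 * u * v + 8 * u ^ 2 := by
        have e : 6 * v ^ 2 - 20 * u * v + 8 * u ^ 2 = 2 * (v - 3 * u) * (3 * v - u) + 2 * u ^ 2 := by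
          ring
        rw [e]
        have : 0 ≤ (v - 3 * u) := by linarith
        have : 0 ≤ 3 * v - u := by linarith
        positivity
      have h6 : 0 ≤ u * (6 * v ^ 2 - 20 * u * v + 8 * u ^ 2) := mul_nonneg hM2 h5
      have h7 : 1 < v ^ 3 := by
        have : 1 < v ^ 2 := by nlinarith
        nlinarith
      linarith) (by
    intro h
    have h2 : (2 : ℤ) ∣ N ^ 6 := by
      have := dvd_sub h (Dvd.intro _ rfl :
        (2 : ℤ) ∣ 2 * (3 * M ^ 2 * N ^ 4 - 10 * M ^ 4 * N ^ 2 + 4 * M ^ 6))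
      have e : N ^ 6 + 6 * M ^ 2 * N ^ 4 - 20 * M ^ 4 * N ^ 2 + 8 * M ^ 6 -
        2 * (3 * M ^ 2 * N ^ 4 - 10 * M ^ 4 * N ^ 2 + 4 * M ^ 6) = N ^ 6 := by ring
      rwa [e] at this
    have := Int.prime_two.dvd_of_dvd_pow h2
    apply hodd
    rw [hN] at this
    exact_mod_cast this)
  have : Fact p.Prime := ⟨hp⟩
  have hp' : Prime (p : ℤ) := Nat.prime_iff_prime_int.1 hp
  have hpN : ¬ p ∣ R.s.den := by
    intro h
    have h3 : (p : ℤ) ∣ N := by rw [hN]; exact_mod_cast h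
    have h4 : (p : ℤ) ∣ 2 ^ 3 * M ^ 6 := by
      have e : 2 ^ 3 * M ^ 6 = (N ^ 6 + 6 * M ^ 2 * N ^ 4 - 20 * M ^ 4 * N ^ 2 + 8 * M ^ 6) -
        N * (N ^ 5 + 6 * M ^ 2 * N ^ 3 - 20 * M ^ 4 * N) := by ring
      rw [e]
      exact dvd_sub hd (dvd_mul_of_dvd_left h3 _)
    rcases hp'.dvd_or_dvd h4 with h5 | h5
    · have h6 : (p : ℤ) ∣ 2 := hp'.dvd_of_dvd_pow h5
      have h7 : p ∣ 2 := by exact_mod_cast h6
      exact hp2 ((Nat.prime_dvd_prime_iff_eq hp Nat.prime_two).1 h7)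
    · exact dvd_num_of R hp h (hp'.dvd_of_dvd_pow h5)
  have hs : padicNorm p R.s ≤ 1 := (nm_le_one_iff _).2 hpN
  have ht := t_le hs
  have hNq : (R.s.den : ℚ) ≠ 0 := by exact_mod_cast R.s.den_nz
  set u : ℚ := R.s ^ 2 with hu
  have hui : padicNorm p u ≤ 1 := nm_pow_le hs 2
  have hTh : padicNorm p (1 + 6 * u - 20 * u ^ 2 + 8 * u ^ 3) < 1 := by
    apply nm_form R _ 6 _ _ hd hpN
    rw [hN, hM, hu]
    conv_lhs => rw [← Rat.num_div_den R.s]
    push_cast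
    field_simp
  have hint : ∀ (n : ℤ), padicNorm p (n : ℚ) ≤ 1 := nm_int
  -- the denominator is a unit
  have hB : padicNorm p (1 + 4 * u ^ 2) = 1 := by
    by_contra hne
    have hle : padicNorm p (1 + 4 * u ^ 2) ≤ 1 := by
      apply nm_add_le
      · rw [padicNorm.one]
      · exact nm_mul_le nm_four_le (nm_pow_le hui 2)
    have hBlt : padicNorm p (1 + 4 * u ^ 2) < 1 := lt_of_le_of_ne hle hne
    have h3 : padicNorm p (3 + 2 * u) < 1 := by
      have h4 : padicNorm p (2 * (3 + 2 * u)) < 1 := by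
        have e : 2 * (3 + 2 * u) = (1 + 6 * u - 20 * u ^ 2 + 8 * u ^ 3) -
          (2 * u - 5) * (1 + 4 * u ^ 2) := by ring
        rw [e]
        apply nm_sub_lt hTh
        apply nm_mul_lt _ hBlt
        apply nm_sub_le
        · exact nm_mul_le nm_two_le hui
        · exact_mod_cast hint 5
      rwa [padicNorm.mul, nm_two_eq hp2, one_mul] at h4
    have h10 : padicNorm p (2 * 5 : ℚ) < 1 := by
      have e : (2 * 5 : ℚ) = (3 - 2 * u) * (3 + 2 * u) + (1 + 4 * u ^ 2) := by ring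
      rw [e]
      apply nm_add_lt _ hBlt
      apply nm_mul_lt _ h3
      apply nm_sub_le
      · exact_mod_cast hint 3
      · exact nm_mul_le nm_two_le hui
    rw [padicNorm.mul, nm_two_eq hp2, one_mul] at h10
    have hp5 : p = 5 := by
      have : padicNorm p ((5 : ℕ) : ℚ) < 1 := by exact_mod_cast h10
      rw [padicNorm.nat_lt_one_iff] at this
      exact (Nat.prime_dvd_prime_iff_eq hp (by norm_num)).1 this
    have ht2 : padicNorm p (R.t ^ 2) < 1 := by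
      have e : R.t ^ 2 = 5 - (3 + 2 * u) - (1 + 4 * u ^ 2) := by rw [R.h, hu]; ring
      rw [e]
      exact nm_sub_lt (nm_sub_lt h10 h3) hBlt
    have ht1 : padicNorm p R.t < 1 := by
      rw [nm_pow] at ht2
      by_contra h'
      push Not at h'
      have : 1 ≤ padicNorm p R.t ^ 2 := one_le_pow₀ h'
      linarith
    subst hp5
    exact t_five hs ht1
  have hB' : (1 + 4 * u ^ 2) ≠ 0 := by positivity
  have hs2 : (R + R).s = 2 * R.s * R.t / (1 + 4 * u ^ 2) := by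
    rw [add_s, hu]; ring_nf
  refine ⟨p, hp, hp2, ?_, ?_, ?_⟩
  · rintro ⟨-, h3⟩
    rw [← hu] at h3
    have h8 : padicNorm p (8 : ℚ) < 1 := by
      have e : (8 : ℚ) = (16 - 8 * (1 + 2 * u) + (1 + 2 * u) ^ 2) * (1 + 2 * u) -
          (1 + 6 * u - 20 * u ^ 2 + 8 * u ^ 3) := by ring
      rw [e]
      apply nm_sub_lt _ hTh
      apply nm_mul_lt _ h3
      apply nm_add_le
      · apply nm_sub_le
        · exact_mod_cast hint 16
        · exact nm_mul_le nm_eight_le h3.le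
      · exact nm_pow_le h3.le 2
    rw [nm_eight_eq hp2] at h8
    exact lt_irrefl _ h8
  · rw [hs2, padicNorm.div, hB, div_one]
    exact nm_mul_le (nm_mul_le nm_two_le hs) ht
  · have e : 1 + 2 * (R + R).s ^ 2 = (1 + 2 * u) * (1 + 6 * u - 20 * u ^ 2 + 8 * u ^ 3) /
      (1 + 4 * u ^ 2) ^ 2 := by
      rw [hs2, div_pow, mul_pow, mul_pow, R.h, eq_div_iff (pow_ne_zero 2 hB'), add_mul]
      rw [mul_assoc 2 _ ((1 + 4 * u ^ 2) ^ 2), div_mul_cancel₀ _ (pow_ne_zero 2 hB')]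
      rw [hu]; ring
    rw [e, padicNorm.div, nm_pow, hB, one_pow, div_one]
    apply nm_mul_lt _ hTh
    apply nm_add_le
    · rw [padicNorm.one]
    · exact nm_mul_le nm_two_le hui

end Pool.Agent.H700R2.Jac
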