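import Pool.Agent.H700R2.JacDyn

/-!
# Primes forced into the supports of the multiples of `P0`
-/

set_option autoImplicit false
set_option linter.unusedSectionVars false

namespace Pool.Agent.H700R2.Jac

theorem big_congr {p : ℕ} {A B : Pt} (h : A.s = B.s ∨ A.s = -B.s) : Big p A ↔ Big p B := by
  unfold Big
  rcases h with h | h
  · rw [h]
  · rw [h, padicNorm.neg]

theorem tri_congr {p : ℕ} {A B : Pt} (h : A.s = B.s ∨ A.s = -B.s) : Tri p A ↔ Tri p B := by
  unfold Tri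
  rcases h with h | h
  · rw [h]
  · rw [h, padicNorm.neg, neg_sq]

/-- the special multiples -/
def Rab (a b : ℕ) : Pt := (2 ^ a * 3 ^ b) • Q0

theorem good_Rab (a b : ℕ) : Good (Rab a b) := good_Q0.nsmul (by positivity)

theorem Rab_succ_left (a b : ℕ) : Rab (a + 1) b = Rab a b + Rab a b := by
  unfold Rab
  rw [← two_nsmul, ← mul_smul]
  congr 1; ring

theorem Rab_succ_right (a b : ℕ) : Rab a (b + 1) = Rab a b + Rab a b + Rab a b := by
  unfold Rab
  rw [← add_smul, ← add_smul]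
  congr 1; ring

theorem bigs (a b : ℕ) : ∃ F : Finset ℕ, F.card = b + 1 ∧
    ∀ p ∈ F, p.Prime ∧ p ≠ 2 ∧ Big p (Rab a b) := by
  induction b with
  | zero =>
    obtain ⟨p, hp, hp2, hb⟩ := (good_Rab a 0).exists_big
    exact ⟨{p}, by simp, fun q hq => by
      rw [Finset.mem_singleton] at hq; subst hq; exact ⟨hp, hp2, hb⟩⟩
  | succ b ih =>
    obtain ⟨F, hF, h⟩ := ih
    obtain ⟨p, hp, hp2, hn, hb⟩ := (good_Rab a b).new_big
    have hpF : p ∉ F := fun hm => hn (h p hm).2.2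
    refine ⟨insert p F, by rw [Finset.card_insert_of_notMem hpF, hF], ?_⟩
    intro q hq
    rw [Rab_succ_right]
    rcases Finset.mem_insert.1 hq with h1 | h1
    · subst h1; exact ⟨hp, hp2, hb⟩
    · obtain ⟨h2, h3, h4⟩ := h q h1
      have : Fact q.Prime := ⟨h2⟩
      refine ⟨h2, h3, ?_⟩
      have := h4.odd_nsmul h3 (m := 3) (by decide)
      rwa [succ_nsmul, two_nsmul] at this

theorem tris (a b : ℕ) : ∃ F : Finset ℕ, F.card = a + 1 ∧
    ∀ p ∈ F, p.Prime ∧ p ≠ 2 ∧ Tri p (Rab a b) := by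
  induction a with
  | zero =>
    obtain ⟨p, hp, hp2, hb⟩ := (good_Rab 0 b).exists_tri
    exact ⟨{p}, by simp, fun q hq => by
      rw [Finset.mem_singleton] at hq; subst hq; exact ⟨hp, hp2, hb⟩⟩
  | succ a ih =>
    obtain ⟨F, hF, h⟩ := ih
    obtain ⟨p, hp, hp2, hn, hb⟩ := (good_Rab a b).new_tri
    have hpF : p ∉ F := fun hm => hn (h p hm).2.2
    refine ⟨insert p F, by rw [Finset.card_insert_of_notMem hpF, hF], ?_⟩
    intro q hq
    rw [Rab_succ_left]
    rcases Finset.mem_insert.1 hq with h1 | h1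
    · subst h1; exact ⟨hp, hp2, hb⟩
    · obtain ⟨h2, h3, h4⟩ := h q h1
      have : Fact q.Prime := ⟨h2⟩
      refine ⟨h2, h3, ?_⟩
      have := h4.nsmul h3 (m := 2) (by decide)
      rwa [two_nsmul] at this

/-- the number of primes we need -/
def cnt (a b : ℕ) : ℕ := if a = 0 ∧ b = 0 then 3 else a + b + 2

theorem small_case : ∀ p ∈ ({5, 3, 11} : Finset ℕ), p.Prime ∧ p ≠ 2 ∧
    (Big p (Rab 0 0) ∨ Tri p (Rab 0 0)) := by
  have hs : (Rab 0 0).s = 2 / 5 := by
    unfold Rab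
    rw [pow_zero, pow_zero, mul_one, one_smul, Q0_s]
  have hden : (2 / 5 : ℚ).den = 5 := by norm_num
  have h33 : (1 : ℚ) + 2 * (2 / 5) ^ 2 = 33 / 25 := by norm_num
  intro p hp
  simp only [Finset.mem_insert, Finset.mem_singleton] at hp
  rcases hp with rfl | rfl | rfl
  · have : Fact (Nat.Prime 5) := ⟨by norm_num⟩
    refine ⟨by norm_num, by norm_num, Or.inl ?_⟩
    unfold Big
    rw [hs, one_lt_nm_iff, hden]
  · have : Fact (Nat.Prime 3) := ⟨by norm_num⟩
    refine ⟨by norm_num, by norm_num, Or.inr ⟨?_, ?_⟩⟩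
    · rw [hs, nm_le_one_iff, hden]; norm_num
    · rw [hs, h33]
      have e : (33 / 25 : ℚ) = ((33 : ℤ) : ℚ) / ((25 : ℕ) : ℚ) := by norm_num
      rw [e, padicNorm.div, (padicNorm.nat_eq_one_iff _).2 (by norm_num), div_one]
      exact (padicNorm.int_lt_one_iff _).2 (by norm_num)
  · have : Fact (Nat.Prime 11) := ⟨by norm_num⟩
    refine ⟨by norm_num, by norm_num, Or.inr ⟨?_, ?_⟩⟩
    · rw [hs, nm_le_one_iff, hden]; norm_num
    · rw [hs, h33]
      have e : (33 / 25 : ℚ) = ((33 : ℤ) : ℚ) / ((25 : ℕ) : ℚ) := by norm_num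
      rw [e, padicNorm.div, (padicNorm.nat_eq_one_iff _).2 (by norm_num), div_one]
      exact (padicNorm.int_lt_one_iff _).2 (by norm_num)

theorem exists_set (a b : ℕ) : ∃ F : Finset ℕ, F.card = cnt a b ∧
    ∀ p ∈ F, p.Prime ∧ p ≠ 2 ∧ (Big p (Rab a b) ∨ Tri p (Rab a b)) := by
  unfold cnt
  by_cases h : a = 0 ∧ b = 0
  · rw [if_pos h]
    obtain ⟨rfl, rfl⟩ := h
    exact ⟨{5, 3, 11}, by decide, small_case⟩
  · rw [if_neg h]
    obtain ⟨F1, h1, h1'⟩ := bigs a b
    obtain ⟨F2, h2, h2'⟩ := tris a b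
    have hdisj : Disjoint F1 F2 := by
      rw [Finset.disjoint_left]
      intro p hp1 hp2
      have h3 := (h1' p hp1).2.2
      have h4 := (h2' p hp2).2.2.1
      unfold Big at h3
      linarith
    refine ⟨F1 ∪ F2, by rw [Finset.card_union_of_disjoint hdisj, h1, h2]; ring, ?_⟩
    intro p hp
    rcases Finset.mem_union.1 hp with h5 | h5
    · obtain ⟨h6, h7, h8⟩ := h1' p h5
      exact ⟨h6, h7, Or.inl h8⟩
    · obtain ⟨h6, h7, h8⟩ := h2' p h5
      exact ⟨h6, h7, Or.inr h8⟩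

/-- every point in the kernel modulo two is a multiple of `Q0` up to sign and `T0` -/
theorem exists_mult {R : Pt} (hk : Ker 2 R) (h0 : R.s ≠ 0) : ∃ k : ℕ, k ≠ 0 ∧
    (R.s = (k • Q0).s ∨ R.s = -(k • Q0).s) := by
  obtain ⟨n, hn⟩ := mordell_weil R
  have hs : R.s = (n • P0).s ∨ R.s = -(n • P0).s := by
    rcases hn with h | h
    · left; rw [h]
    · right; rw [h, (add_T0 _).1]
  have hker : Ker 2 (n • P0) := by
    rcases hn with h | h
    · rw [← h]; exact hk
    · have : n • P0 = R + -T0 := by rw [h, add_neg_cancel_right]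
      rw [this]
      exact hk.add (ker_T0 2).neg
  have hev : Even n := by
    by_contra hcon
    rw [Int.not_even_iff_odd] at hcon
    exact odd_not_ker hcon hker
  obtain ⟨k, hk'⟩ := hev
  have e : n • P0 = k • Q0 := by
    rw [hk', add_smul]; unfold Q0; rw [smul_add]
  rw [e] at hs
  have hk0 : k ≠ 0 := by
    rintro rfl
    rw [zero_smul, zero_s, neg_zero, or_self] at hs
    exact h0 hs
  refine ⟨k.natAbs, Int.natAbs_ne_zero.2 hk0, ?_⟩
  rcases Int.natAbs_eq k with h | h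
  · have e2 : k • Q0 = k.natAbs • Q0 := by
      conv_lhs => rw [h]
      rw [natCast_zsmul]
    rwa [e2] at hs
  · have e2 : k • Q0 = -(k.natAbs • Q0) := by
      conv_lhs => rw [h]
      rw [neg_smul, natCast_zsmul]
    rw [e2, neg_s, neg_neg] at hs
    exact hs.symm

theorem support {R : Pt} (hk : Ker 2 R) (h0 : R.s ≠ 0) : ∃ a b : ℕ, ∀ p : ℕ, p.Prime → p ≠ 2 →
    (Big p (Rab a b) → Big p R) ∧ (Tri p (Rab a b) → Tri p R) := by
  obtain ⟨k, hk0, hs⟩ := exists_mult hk h0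
  obtain ⟨a, k1, h2, rfl⟩ := Nat.exists_eq_pow_mul_and_not_dvd hk0 2 (by norm_num)
  have hk1 : k1 ≠ 0 := by rintro rfl; simp at h2
  obtain ⟨b, m, h3, rfl⟩ := Nat.exists_eq_pow_mul_and_not_dvd hk1 3 (by norm_num)
  have hm : Odd m := by
    rw [← Nat.not_even_iff_odd, even_iff_two_dvd]
    intro h
    exact h2 (h.mul_left _)
  refine ⟨a, b, fun p hp hp2 => ?_⟩
  have : Fact p.Prime := ⟨hp⟩
  have e : (2 ^ a * (3 ^ b * m)) • Q0 = m • Rab a b := by
    unfold Rab
    rw [← mul_smul]; congr 1; ring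
  rw [e] at hs
  refine ⟨fun h => ?_, fun h => ?_⟩
  · rw [big_congr hs]; exact h.odd_nsmul hp2 hm
  · rw [tri_congr hs]; exact h.nsmul hp2 h3

end Pool.Agent.H700R2.Jac
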