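import Pool.Agent.H700R2.JacGroup

/-!
# Reduction modulo primes, in terms of `p`-adic norms
-/

set_option autoImplicit false
set_option linter.unusedSectionVars false

namespace Pool.Agent.H700R2.Jac

section norm

variable {p : ℕ} [hp : Fact p.Prime]

theorem nm_add_lt {x y c : ℚ} (hx : padicNorm p x < c) (hy : padicNorm p y < c) :
    padicNorm p (x + y) < c :=
  lt_of_le_of_lt padicNorm.nonarchimedean (max_lt hx hy)

theorem nm_add_le {x y c : ℚ} (hx : padicNorm p x ≤ c) (hy : padicNorm p y ≤ c) :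
    padicNorm p (x + y) ≤ c :=
  le_trans padicNorm.nonarchimedean (max_le hx hy)

theorem nm_sub_lt {x y c : ℚ} (hx : padicNorm p x < c) (hy : padicNorm p y < c) :
    padicNorm p (x - y) < c :=
  lt_of_le_of_lt padicNorm.sub (max_lt hx hy)

theorem nm_sub_le {x y c : ℚ} (hx : padicNorm p x ≤ c) (hy : padicNorm p y ≤ c) :
    padicNorm p (x - y) ≤ c :=
  le_trans padicNorm.sub (max_le hx hy)

theorem nm_pow (x : ℚ) (n : ℕ) : padicNorm p (x ^ n) = padicNorm p x ^ n := by
  induction n with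
  | zero => simp
  | succ n ih => rw [pow_succ, padicNorm.mul, ih, pow_succ]

theorem nm_nonneg (x : ℚ) : 0 ≤ padicNorm p x := padicNorm.nonneg x

theorem nm_int (n : ℤ) : padicNorm p (n : ℚ) ≤ 1 := padicNorm.of_int n

theorem nm_mul_le {x y : ℚ} (hx : padicNorm p x ≤ 1) (hy : padicNorm p y ≤ 1) :
    padicNorm p (x * y) ≤ 1 := by
  rw [padicNorm.mul]
  exact mul_le_one₀ hx (nm_nonneg y) hy

theorem nm_mul_lt {x y : ℚ} (hx : padicNorm p x ≤ 1) (hy : padicNorm p y < 1) :
    padicNorm p (x * y) < 1 := by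
  rw [padicNorm.mul]
  calc padicNorm p x * padicNorm p y ≤ 1 * padicNorm p y :=
        mul_le_mul_of_nonneg_right hx (nm_nonneg y)
    _ < 1 := by rw [one_mul]; exact hy

theorem nm_pow_le {x : ℚ} (hx : padicNorm p x ≤ 1) (n : ℕ) : padicNorm p (x ^ n) ≤ 1 := by
  rw [nm_pow]; exact pow_le_one₀ (nm_nonneg x) hx

theorem nm_pow_lt {x : ℚ} (hx : padicNorm p x < 1) {n : ℕ} (hn : n ≠ 0) :
    padicNorm p (x ^ n) < 1 := by
  rw [nm_pow]; exact pow_lt_one₀ (nm_nonneg x) hx hn

theorem nm_one_add {x : ℚ} (hx : padicNorm p x < 1) : padicNorm p (1 + x) = 1 := by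
  have h1 : padicNorm p (1 : ℚ) = 1 := padicNorm.one
  rw [padicNorm.add_eq_max_of_ne (by rw [h1]; exact hx.ne'), h1, max_eq_left hx.le]

theorem nm_unit_add {x y : ℚ} (hx : padicNorm p x = 1) (hy : padicNorm p y < 1) :
    padicNorm p (x + y) = 1 := by
  rw [padicNorm.add_eq_max_of_ne (by rw [hx]; exact hy.ne'), hx, max_eq_left hy.le]

theorem nm_add_big {x y : ℚ} (h : padicNorm p y < padicNorm p x) :
    padicNorm p (x + y) = padicNorm p x := by
  rw [padicNorm.add_eq_max_of_ne h.ne', max_eq_left h.le]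

theorem nm_two_le : padicNorm p (2 : ℚ) ≤ 1 := by exact_mod_cast nm_int (p := p) 2
theorem nm_four_le : padicNorm p (4 : ℚ) ≤ 1 := by exact_mod_cast nm_int (p := p) 4
theorem nm_eight_le : padicNorm p (8 : ℚ) ≤ 1 := by exact_mod_cast nm_int (p := p) 8

theorem nm_two_eq (h2 : p ≠ 2) : padicNorm p (2 : ℚ) = 1 := by
  have := (padicNorm.nat_eq_one_iff (p := p) 2).2 (by
    intro h
    exact h2 ((Nat.prime_dvd_prime_iff_eq hp.out Nat.prime_two).1 h))
  exact_mod_cast this

theorem nm_four_eq (h2 : p ≠ 2) : padicNorm p (4 : ℚ) = 1 := by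
  have : (4 : ℚ) = 2 * 2 := by norm_num
  rw [this, padicNorm.mul, nm_two_eq h2, one_mul]

theorem nm_eight_eq (h2 : p ≠ 2) : padicNorm p (8 : ℚ) = 1 := by
  have : (8 : ℚ) = 4 * 2 := by norm_num
  rw [this, padicNorm.mul, nm_two_eq h2, nm_four_eq h2, one_mul]

theorem nm_eq_one_of_sq {x : ℚ} (h : padicNorm p (x ^ 2) = 1) : padicNorm p x = 1 := by
  rw [nm_pow] at h
  have := nm_nonneg (p := p) x
  nlinarith [sq_nonneg (padicNorm p x - 1)]

/-- the norm of a rational number in terms of numerator and denominator -/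
theorem nm_eq_div (x : ℚ) : padicNorm p x = padicNorm p (x.num : ℚ) / padicNorm p (x.den : ℚ) := by
  conv_lhs => rw [← Rat.num_div_den x]
  rw [padicNorm.div]

theorem one_lt_nm_iff (x : ℚ) : 1 < padicNorm p x ↔ p ∣ x.den := by
  have hden : (x.den : ℚ) ≠ 0 := by exact_mod_cast x.den_nz
  have hpos : 0 < padicNorm p (x.den : ℚ) :=
    lt_of_le_of_ne (nm_nonneg _) (Ne.symm (padicNorm.nonzero hden))
  rw [nm_eq_div, lt_div_iff₀ hpos, one_mul]
  constructor
  · intro h
    rw [← padicNorm.nat_lt_one_iff]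
    exact lt_of_lt_of_le h (padicNorm.of_int x.num)
  · intro h
    have h1 := (padicNorm.nat_lt_one_iff (p := p) x.den).2 h
    have h2 : padicNorm p (x.num : ℚ) = 1 := by
      rw [padicNorm.int_eq_one_iff]
      intro h3
      have h4 : p ∣ x.num.natAbs := Int.natCast_dvd.1 h3
      have h5 : p ∣ Nat.gcd x.num.natAbs x.den := Nat.dvd_gcd h4 h
      rw [x.reduced] at h5
      exact hp.out.one_lt.ne' (Nat.dvd_one.1 h5)
    rw [h2]; exact h1

theorem nm_le_one_iff (x : ℚ) : padicNorm p x ≤ 1 ↔ ¬ p ∣ x.den := by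
  rw [← one_lt_nm_iff, not_lt]

end norm

section curve

variable {p : ℕ} [hp : Fact p.Prime]

/-- the kernel of reduction (up to the point of order two) -/
def Ker (p : ℕ) (R : Pt) : Prop := padicNorm p R.s < 1

/-- the points reducing to infinity -/
def Big (p : ℕ) (R : Pt) : Prop := 1 < padicNorm p R.s

theorem Ker.t {R : Pt} (hR : Ker p R) : padicNorm p R.t = 1 := by
  apply nm_eq_one_of_sq
  have : R.t ^ 2 = 1 + ((-2) * R.s ^ 2 + (-4) * R.s ^ 4) := by rw [R.h]; ring
  rw [this]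
  apply nm_one_add
  apply nm_add_lt
  · apply nm_mul_lt _ (nm_pow_lt hR (by norm_num))
    rw [padicNorm.neg]; exact nm_two_le
  · apply nm_mul_lt _ (nm_pow_lt hR (by norm_num))
    rw [padicNorm.neg]; exact nm_four_le

theorem nm_den {x y : ℚ} (h : padicNorm p (x * y) < 1) :
    padicNorm p (1 + 4 * x ^ 2 * y ^ 2) = 1 := by
  apply nm_one_add
  have : 4 * x ^ 2 * y ^ 2 = 4 * (x * y) ^ 2 := by ring
  rw [this]
  exact nm_mul_lt nm_four_le (nm_pow_lt h (by norm_num))

theorem Ker.add {R A : Pt} (hR : Ker p R) (hA : Ker p A) : Ker p (R + A) := by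
  unfold Ker
  rw [add_s, padicNorm.div, nm_den (nm_mul_lt hR.le hA), div_one]
  apply nm_add_lt
  · rw [mul_comm]; exact nm_mul_lt hA.t.le hR
  · rw [mul_comm]; exact nm_mul_lt hR.t.le hA

theorem Ker.neg {R : Pt} (hR : Ker p R) : Ker p (-R) := by
  unfold Ker
  rw [neg_s, padicNorm.neg]; exact hR

theorem Ker.zero : Ker p (0 : Pt) := by
  unfold Ker
  rw [zero_s, padicNorm.zero]; exact one_pos

theorem Ker.nsmul {R : Pt} (hR : Ker p R) (n : ℕ) : Ker p (n • R) := by
  induction n with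
  | zero => rw [zero_nsmul]; exact Ker.zero
  | succ n ih => rw [succ_nsmul]; exact ih.add hR

theorem Ker.zsmul {R : Pt} (hR : Ker p R) (n : ℤ) : Ker p (n • R) := by
  obtain ⟨m, rfl | rfl⟩ := n.eq_nat_or_neg
  · rw [natCast_zsmul]; exact hR.nsmul m
  · rw [neg_smul, natCast_zsmul]; exact (hR.nsmul m).neg

theorem Big.neg {R : Pt} (hR : Big p R) : Big p (-R) := by
  unfold Big
  rw [neg_s, padicNorm.neg]; exact hR

theorem Big.t {R : Pt} (h2 : p ≠ 2) (hR : Big p R) :
    padicNorm p R.t = padicNorm p R.s ^ 2 := by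
  have hR' : 1 < padicNorm p R.s := hR
  have h0 := nm_nonneg (p := p) R.t
  have e : R.t ^ 2 = (-4) * R.s ^ 4 + (1 + (-2) * R.s ^ 2) := by rw [R.h]; ring
  have h4 : padicNorm p ((-4) * R.s ^ 4) = padicNorm p R.s ^ 4 := by
    rw [padicNorm.mul, padicNorm.neg, nm_four_eq h2, one_mul, nm_pow]
  have h5 : padicNorm p (1 + (-2) * R.s ^ 2) ≤ padicNorm p R.s ^ 2 := by
    apply nm_add_le
    · rw [padicNorm.one]; nlinarith
    · rw [padicNorm.mul, padicNorm.neg, nm_two_eq h2, one_mul, nm_pow]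
  have h6 : padicNorm p R.s ^ 2 < padicNorm p R.s ^ 4 := by
    have : 1 < padicNorm p R.s ^ 2 := by nlinarith
    nlinarith
  have h7 : padicNorm p (R.t ^ 2) = padicNorm p R.s ^ 4 := by
    rw [e, nm_add_big (by rw [h4]; exact lt_of_le_of_lt h5 h6), h4]
  rw [nm_pow] at h7
  have h8 : (padicNorm p R.t) ^ 2 = (padicNorm p R.s ^ 2) ^ 2 := by rw [h7]; ring
  exact (pow_left_inj₀ h0 (by positivity) (by norm_num)).1 h8

/-- twice a point at infinity lies in the kernel -/
theorem Big.double {R : Pt} (h2 : p ≠ 2) (hR : Big p R) : Ker p (R + R) := by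
  have hR' : 1 < padicNorm p R.s := hR
  unfold Ker
  rw [add_s]
  have e1 : R.s * R.t + R.s * R.t = 2 * (R.s * R.t) := by ring
  have e2 : 1 + 4 * R.s ^ 2 * R.s ^ 2 = 4 * R.s ^ 4 + 1 := by ring
  have h3 : padicNorm p (4 * R.s ^ 4) = padicNorm p R.s ^ 4 := by
    rw [padicNorm.mul, nm_four_eq h2, one_mul, nm_pow]
  have h6 : 1 < padicNorm p R.s ^ 4 := by
    have : 1 < padicNorm p R.s ^ 2 := by nlinarith
    nlinarith
  rw [e1, e2, padicNorm.div, padicNorm.mul, padicNorm.mul, nm_two_eq h2, one_mul, hR.t h2,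
    nm_add_big (by rw [h3, padicNorm.one]; exact h6), h3, div_lt_one (by linarith)]
  have : 0 < padicNorm p R.s := by linarith
  calc padicNorm p R.s * padicNorm p R.s ^ 2 = padicNorm p R.s ^ 3 * 1 := by ring
    _ < padicNorm p R.s ^ 3 * padicNorm p R.s := by
        apply mul_lt_mul_of_pos_left hR'; positivity
    _ = padicNorm p R.s ^ 4 := by ring

/-- the second form of the addition law -/
theorem add_s' (A B : Pt) : (A + B).s * (A.s * B.t - B.s * A.t) = A.s ^ 2 - B.s ^ 2 := by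
  rw [add_s]
  have hB := (den_pos A.s B.s).ne'
  field_simp
  linear_combination A.s ^ 2 * B.h - B.s ^ 2 * A.h

theorem Big.add_ker {R A : Pt} (h2 : p ≠ 2) (hR : Big p R) (hA : Ker p A) : Big p (R + A) := by
  have hR' : 1 < padicNorm p R.s := hR
  have hA' : padicNorm p A.s < 1 := hA
  have key := congrArg (padicNorm p) (add_s' R A)
  rw [padicNorm.mul] at key
  have h1 : padicNorm p (R.s ^ 2 - A.s ^ 2) = padicNorm p R.s ^ 2 := by
    have h4 : padicNorm p (-(A.s ^ 2)) < padicNorm p (R.s ^ 2) := by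
      rw [padicNorm.neg, nm_pow, nm_pow]
      have := nm_nonneg (p := p) A.s
      nlinarith
    rw [sub_eq_add_neg, nm_add_big h4, nm_pow]
  have h3 : padicNorm p (R.s * A.t - A.s * R.t) < padicNorm p R.s ^ 2 := by
    apply nm_sub_lt
    · rw [padicNorm.mul, hA.t, mul_one]; nlinarith
    · rw [padicNorm.mul, hR.t h2]
      have : 0 < padicNorm p R.s ^ 2 := by positivity
      nlinarith
  rw [h1] at key
  unfold Big
  by_contra hcon
  push Not at hcon
  have h5 := nm_nonneg (p := p) (R.s * A.t - A.s * R.t)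
  have : padicNorm p (R + A).s * padicNorm p (R.s * A.t - A.s * R.t) ≤
      1 * padicNorm p (R.s * A.t - A.s * R.t) := mul_le_mul_of_nonneg_right hcon h5
  linarith

/-- odd multiples of a point at infinity -/
theorem Big.odd_nsmul {R : Pt} (h2 : p ≠ 2) (hR : Big p R) {m : ℕ} (hm : Odd m) :
    Big p (m • R) := by
  obtain ⟨k, rfl⟩ := hm
  have : (2 * k + 1) • R = R + k • (R + R) := by
    rw [add_smul, one_smul, mul_comm, mul_smul, two_smul, add_comm]
  rw [this]
  exact hR.add_ker h2 ((hR.double h2).nsmul k)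

/-- A point of the curve does not reduce to a singular point modulo five. -/
theorem t_five {R : Pt} (hs : padicNorm 5 R.s ≤ 1) : ¬ padicNorm 5 R.t < 1 := by
  haveI : Fact (Nat.Prime 5) := ⟨by norm_num⟩
  intro ht
  -- the norms are powers of five
  have hval : ∀ x : ℚ, padicNorm 5 x < 1 → padicNorm 5 x ≤ 1 / 5 := by
    intro x hx
    by_cases h0 : x = 0
    · rw [h0, padicNorm.zero]; norm_num
    · obtain ⟨z, hz⟩ := padicNorm.values_discrete (p := 5) h0
      rw [hz] at hx ⊢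
      have hz1 : -z < 0 := by
        by_contra hcon
        push Not at hcon
        have : (1 : ℚ) ≤ ((5 : ℕ) : ℚ) ^ (-z) := one_le_zpow₀ (by norm_num) hcon
        linarith
      have : ((5 : ℕ) : ℚ) ^ (-z) ≤ ((5 : ℕ) : ℚ) ^ (-1 : ℤ) :=
        zpow_le_zpow_right₀ (by norm_num) (by omega)
      calc ((5 : ℕ) : ℚ) ^ (-z) ≤ ((5 : ℕ) : ℚ) ^ (-1 : ℤ) := this
        _ = 1 / 5 := by norm_num
  have h5 : padicNorm 5 (5 : ℚ) = 1 / 5 := by
    have := padicNorm.padicNorm_p_of_prime (p := 5)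
    push_cast at this
    rw [this]; norm_num
  have e : (1 - R.s ^ 2) ^ 2 = R.t ^ 2 + 5 * R.s ^ 4 := by rw [R.h]; ring
  have h1 : padicNorm 5 ((1 - R.s ^ 2) ^ 2) < 1 := by
    rw [e]
    apply nm_add_lt
    · exact nm_pow_lt ht (by norm_num)
    · rw [mul_comm]
      apply nm_mul_lt (nm_pow_le hs 4)
      rw [h5]; norm_num
  have h2 : padicNorm 5 (1 - R.s ^ 2) < 1 := by
    rw [nm_pow] at h1
    by_contra hcon
    push Not at hcon
    nlinarith
  have h3 : padicNorm 5 ((1 - R.s ^ 2) ^ 2) ≤ 1 / 25 := by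
    rw [nm_pow]
    have h := hval _ h2
    have h0 := nm_nonneg (p := 5) (1 - R.s ^ 2)
    nlinarith
  have h4 : padicNorm 5 (R.t ^ 2) ≤ 1 / 25 := by
    rw [nm_pow]
    have h := hval _ ht
    have h0 := nm_nonneg (p := 5) R.t
    nlinarith
  have hs1 : padicNorm 5 (R.s ^ 2) = 1 := by
    have : R.s ^ 2 = 1 + (-(1 - R.s ^ 2)) := by ring
    rw [this]
    apply nm_one_add
    rw [padicNorm.neg]; exact h2
  have h6 : padicNorm 5 (5 * R.s ^ 4) = 1 / 5 := by
    have : R.s ^ 4 = R.s ^ 2 * R.s ^ 2 := by ring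
    rw [padicNorm.mul, this, padicNorm.mul, hs1, h5]; norm_num
  have h7 : padicNorm 5 (5 * R.s ^ 4) ≤ 1 / 25 := by
    have : 5 * R.s ^ 4 = (1 - R.s ^ 2) ^ 2 - R.t ^ 2 := by rw [e]; ring
    rw [this]
    exact nm_sub_le h3 h4
  rw [h6] at h7
  norm_num at h7

end curve

end Pool.Agent.H700R2.Jac
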