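import Pool.Agent.H700R2.PcatDefs

/-! Object level and count level. -/

set_option autoImplicit false
set_option linter.unusedSectionVars false

namespace Pool.Agent.H700R2.Pcat

open Relation

variable {U S : Type} [DecidableEq U] [DecidableEq S] [Fintype U] (D : Sys U S)

/-- objects of the first catalyst -/
def is1 {m : ℕ} : Ob U S m → Prop
  | .a _ => True
  | .f2 => True
  | .f1 => True
  | .p _ _ => True
  | _ => False

/-- hot objects -/
def hotO {m : ℕ} : Ob U S m → ℕ
  | .g => 1
  | .th => 1
  | .w _ _ => 1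
  | _ => 0

/-- objects of the second catalyst -/
def is2 {m : ℕ} : Ob U S m → Prop
  | .b _ => True
  | .kp => True
  | .g => True
  | .th => True
  | .w _ _ => True
  | _ => False

theorem is_ne {m : ℕ} {a b : Ob U S m} (ha : is1 a) (hb : is2 b) : a ≠ b := by
  rintro rfl
  cases a <;> simp [is1, is2] at ha hb

theorem count_emit (s : S) (z : Ob U S D.m) : (emit D s).count z = match z with
    | .b i => D.em s i
    | .kp => D.ek s
    | .o => D.eo s
    | _ => 0 := by
  unfold emit
  rw [Multiset.count_add, Multiset.count_add, Multiset.count_sum']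
  cases z <;> simp [Multiset.count_nsmul, Multiset.count_singleton]

theorem val_p {c : Cfg U S D.m} {s : S} {j : Fin (D.m + 1)} (h : 1 ≤ c.val (.p s j)) :
    c.tok = .p s j := by
  by_contra hc
  simp [Cfg.val, hc] at h

theorem val_w {c : Cfg U S D.m} {s : S} {j : Fin (D.m + 1)} (h : 1 ≤ c.val (.w s j)) :
    c.tok = .w s j := by
  by_contra hc
  simp [Cfg.val, hc] at h

theorem h1_a {c : Cfg U S D.m} (i : U) (hi : 1 ≤ c.a i) (z : Ob U S D.m) :
    ({ c with
      a := fun k => c.a k - (if k = i then 1 else 0)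
      b := fun k => c.b k + (if k = i then 1 else 0) + (if k = D.d ∧ i = D.x then 4 else 0)
      g := c.g + 1 } : Cfg U S D.m).val z + Multiset.count z {Ob.a i} = c.val z +
      Multiset.count z ({.b i} + {.g} + (if i = D.x then 4 • {.b D.d} else 0)) := by
  have h4 : Multiset.count z (if i = D.x then 4 • {(.b D.d : Ob U S D.m)} else 0) =
      if z = .b D.d ∧ i = D.x then 4 else 0 := by
    by_cases hx : i = D.x
    · rw [if_pos hx, Multiset.count_nsmul, Multiset.count_singleton]
      by_cases hz : z = .b D.d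
      · simp [hz, hx]
      · simp [hz]
    · rw [if_neg hx, if_neg (fun h => hx h.2)]; rfl
  rw [Multiset.count_add, Multiset.count_add, h4]
  simp only [Multiset.count_singleton]
  cases z with
  | a k =>
    simp only [Cfg.val, Ob.a.injEq, reduceCtorEq, if_false, false_and]
    by_cases hk : k = i
    · subst hk; simp only [if_true]; omega
    · simp only [if_neg hk]; omega
  | b k =>
    simp only [Cfg.val, Ob.b.injEq, reduceCtorEq, if_false]
    omega
  | _ => simp [Cfg.val]

theorem h1_f2 {c : Cfg U S D.m} (hi : 1 ≤ c.f2) (z : Ob U S D.m) :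
    ({ c with f2 := c.f2 - 1, f1 := c.f1 + 1 } : Cfg U S D.m).val z +
      Multiset.count z {Ob.f2} = c.val z + Multiset.count z {.f1} := by
  simp only [Multiset.count_singleton]
  cases z <;> simp [Cfg.val]
  omega

theorem h1_f1 {c : Cfg U S D.m} (hi : 1 ≤ c.f1) (z : Ob U S D.m) :
    ({ c with f1 := c.f1 - 1, g := c.g + 1 } : Cfg U S D.m).val z +
      Multiset.count z {Ob.f1} = c.val z + Multiset.count z {.g} := by
  simp only [Multiset.count_singleton]
  cases z <;> simp [Cfg.val]
  omega

theorem h1_p {c : Cfg U S D.m} (s : S) (j j' : Fin (D.m + 1)) (hc : c.tok = .p s j)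
    (z : Ob U S D.m) :
    ({ c with tok := .p s j' } : Cfg U S D.m).val z +
      Multiset.count z {Ob.p s j} = c.val z + Multiset.count z {.p s j'} := by
  simp only [Multiset.count_singleton]
  cases z with
  | p t k =>
    simp only [Cfg.val, hc, Tok.p.injEq, Ob.p.injEq]
    have e1 : (s = t ∧ j' = k) ↔ (t = s ∧ k = j') := by
      constructor <;> rintro ⟨rfl, rfl⟩ <;> exact ⟨rfl, rfl⟩
    have e2 : (s = t ∧ j = k) ↔ (t = s ∧ k = j) := by
      constructor <;> rintro ⟨rfl, rfl⟩ <;> exact ⟨rfl, rfl⟩
    simp only [e1, e2]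
    omega
  | _ => simp [Cfg.val, hc]

theorem h1_pw {c : Cfg U S D.m} (s : S) (j j' : Fin (D.m + 1)) (hc : c.tok = .p s j)
    (z : Ob U S D.m) :
    ({ c with
        tok := .w s j'
        b := fun k => c.b k + D.em s k
        kp := c.kp + D.ek s
        o := c.o + D.eo s } : Cfg U S D.m).val z +
      Multiset.count z {Ob.p s j} = c.val z + Multiset.count z ({.w s j'} + emit D s) := by
  rw [Multiset.count_add, count_emit]
  simp only [Multiset.count_singleton]
  cases z with
  | p t k =>
    simp only [Cfg.val, hc, Tok.p.injEq, Ob.p.injEq, reduceCtorEq, if_false]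
    have e2 : (s = t ∧ j = k) ↔ (t = s ∧ k = j) := by
      constructor <;> rintro ⟨rfl, rfl⟩ <;> exact ⟨rfl, rfl⟩
    simp only [e2]
    omega
  | w t k =>
    simp only [Cfg.val, hc, Tok.w.injEq, Ob.w.injEq, reduceCtorEq, if_false]
    have e2 : (s = t ∧ j' = k) ↔ (t = s ∧ k = j') := by
      constructor <;> rintro ⟨rfl, rfl⟩ <;> exact ⟨rfl, rfl⟩
    simp only [e2]
    omega
  | _ => simp [Cfg.val]

/-- the first catalyst, from objects to counts -/
theorem obj1 {c : Cfg U S D.m} {a : Ob U S D.m} {v : Multiset (Ob U S D.m)} (h : R1 D a v)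
    (ha : 1 ≤ c.val a) (hv : Ob.trap ∉ v) :
    is1 a ∧ ∃ c1, H1 D c c1 ∧
      ∀ z, c1.val z + Multiset.count z {a} = c.val z + Multiset.count z v := by
  cases h with
  | a i => exact ⟨trivial, _, H1.a i ha, h1_a D i ha⟩
  | f2 => exact ⟨trivial, _, H1.f2 ha, h1_f2 D ha⟩
  | f1 => exact ⟨trivial, _, H1.f1 ha, h1_f1 D ha⟩
  | p s j j' h1 h2 => exact ⟨trivial, _, H1.p s j j' (val_p D ha) h1 h2, h1_p D s j j' (val_p D ha)⟩
  | pw s j j' h1 h2 =>
    exact ⟨trivial, _, H1.pw s j j' (val_p D ha) h1 h2, h1_pw D s j j' (val_p D ha)⟩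
  | _ => exact absurd (Multiset.mem_singleton_self _) hv

/-- the first catalyst, from counts to objects -/
theorem cfg1 {c c1 : Cfg U S D.m} (h : H1 D c c1) :
    ∃ a v, R1 D a v ∧ 1 ≤ c.val a ∧ is1 a ∧
      ∀ z, c1.val z + Multiset.count z {a} = c.val z + Multiset.count z v := by
  cases h with
  | a i ha => exact ⟨_, _, R1.a i, ha, trivial, h1_a D i ha⟩
  | f2 ha => exact ⟨_, _, R1.f2, ha, trivial, h1_f2 D ha⟩
  | f1 ha => exact ⟨_, _, R1.f1, ha, trivial, h1_f1 D ha⟩
  | p s j j' hc h1 h2 =>
    exact ⟨_, _, R1.p s j j' h1 h2, by simp [Cfg.val, hc], trivial, h1_p D s j j' hc⟩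
  | pw s j j' hc h1 h2 =>
    exact ⟨_, _, R1.pw s j j' h1 h2, by simp [Cfg.val, hc], trivial, h1_pw D s j j' hc⟩

theorem h2_b {c : Cfg U S D.m} (i : U) (hi : 1 ≤ c.b i) (z : Ob U S D.m) :
    ({ c with
      b := fun k => c.b k - (if k = i then 1 else 0)
      a := fun k => c.a k + (if k = i then 1 else 0)
      f2 := c.f2 + 1 } : Cfg U S D.m).val z + Multiset.count z {Ob.b i} = c.val z +
      Multiset.count z ({.a i} + {.f2}) := by
  rw [Multiset.count_add]
  simp only [Multiset.count_singleton]
  cases z with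
  | a k => simp [Cfg.val]
  | b k =>
    simp only [Cfg.val, Ob.b.injEq, reduceCtorEq, if_false]
    by_cases hk : k = i
    · subst hk; simp only [if_true]; omega
    · simp only [if_neg hk]; omega
  | _ => simp [Cfg.val]

theorem h2_v {c : Cfg U S D.m} (i : U) (hi : 1 ≤ c.b i) (z : Ob U S D.m) :
    ({ c with
      b := fun k => c.b k - (if k = i then 1 else 0)
      th := c.th + (D.n i - 1) } : Cfg U S D.m).val z + Multiset.count z {Ob.b i} = c.val z +
      Multiset.count z ((D.n i - 1) • {.th}) := by
  rw [Multiset.count_nsmul]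
  simp only [Multiset.count_singleton]
  cases z with
  | b k =>
    simp only [Cfg.val, Ob.b.injEq, reduceCtorEq, if_false]
    by_cases hk : k = i
    · subst hk; simp only [if_true]; omega
    · simp only [if_neg hk]; omega
  | _ => simp [Cfg.val]

theorem h2_vk {c : Cfg U S D.m} (hi : 1 ≤ c.kp) (z : Ob U S D.m) :
    ({ c with kp := c.kp - 1, th := c.th + (D.nk - 1) } : Cfg U S D.m).val z +
      Multiset.count z {Ob.kp} = c.val z + Multiset.count z ((D.nk - 1) • {.th}) := by
  rw [Multiset.count_nsmul]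
  simp only [Multiset.count_singleton]
  cases z <;> simp [Cfg.val]
  omega

theorem h2_g {c : Cfg U S D.m} (hi : 1 ≤ c.g) (z : Ob U S D.m) :
    ({ c with g := c.g - 1 } : Cfg U S D.m).val z +
      Multiset.count z {Ob.g} = c.val z + Multiset.count z 0 := by
  simp only [Multiset.count_singleton, Multiset.count_zero]
  cases z <;> simp [Cfg.val]
  omega

theorem h2_th {c : Cfg U S D.m} (hi : 1 ≤ c.th) (z : Ob U S D.m) :
    ({ c with th := c.th - 1 } : Cfg U S D.m).val z +
      Multiset.count z {Ob.th} = c.val z + Multiset.count z 0 := by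
  simp only [Multiset.count_singleton, Multiset.count_zero]
  cases z <;> simp [Cfg.val]
  omega

theorem h2_w {c : Cfg U S D.m} (s : S) (j j' : Fin (D.m + 1)) (hc : c.tok = .w s j)
    (z : Ob U S D.m) :
    ({ c with tok := .w s j' } : Cfg U S D.m).val z +
      Multiset.count z {Ob.w s j} = c.val z + Multiset.count z {.w s j'} := by
  simp only [Multiset.count_singleton]
  cases z with
  | w t k =>
    simp only [Cfg.val, hc, Tok.w.injEq, Ob.w.injEq]
    have e1 : (s = t ∧ j' = k) ↔ (t = s ∧ k = j') := by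
      constructor <;> rintro ⟨rfl, rfl⟩ <;> exact ⟨rfl, rfl⟩
    have e2 : (s = t ∧ j = k) ↔ (t = s ∧ k = j) := by
      constructor <;> rintro ⟨rfl, rfl⟩ <;> exact ⟨rfl, rfl⟩
    simp only [e1, e2]
    omega
  | _ => simp [Cfg.val, hc]

theorem h2_wp {c : Cfg U S D.m} (s s' : S) (j j' : Fin (D.m + 1)) (hc : c.tok = .w s j)
    (z : Ob U S D.m) :
    ({ c with tok := .p s' j', g := c.g + 2 } : Cfg U S D.m).val z +
      Multiset.count z {Ob.w s j} = c.val z + Multiset.count z ({.p s' j'} + 2 • {.g}) := by
  rw [Multiset.count_add, Multiset.count_nsmul]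
  simp only [Multiset.count_singleton]
  cases z with
  | w t k =>
    simp only [Cfg.val, hc, Tok.w.injEq, Ob.w.injEq, reduceCtorEq, if_false]
    have e2 : (s = t ∧ j = k) ↔ (t = s ∧ k = j) := by
      constructor <;> rintro ⟨rfl, rfl⟩ <;> exact ⟨rfl, rfl⟩
    simp only [e2]
    omega
  | p t k =>
    simp only [Cfg.val, hc, Tok.p.injEq, Ob.p.injEq, reduceCtorEq, if_false]
    have e2 : (s' = t ∧ j' = k) ↔ (t = s' ∧ k = j') := by
      constructor <;> rintro ⟨rfl, rfl⟩ <;> exact ⟨rfl, rfl⟩
    simp only [e2]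
    omega
  | _ => simp [Cfg.val]

theorem h2_wz {c : Cfg U S D.m} (s : S) (j : Fin (D.m + 1)) (hc : c.tok = .w s j)
    (z : Ob U S D.m) :
    ({ c with tok := .z } : Cfg U S D.m).val z +
      Multiset.count z {Ob.w s j} = c.val z + Multiset.count z 0 := by
  simp only [Multiset.count_singleton, Multiset.count_zero]
  cases z with
  | w t k =>
    simp only [Cfg.val, hc, Tok.w.injEq, Ob.w.injEq, reduceCtorEq, if_false]
    have e2 : (s = t ∧ j = k) ↔ (t = s ∧ k = j) := by
      constructor <;> rintro ⟨rfl, rfl⟩ <;> exact ⟨rfl, rfl⟩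
    simp only [e2]
    omega
  | _ => simp [Cfg.val, hc]

/-- the second catalyst, from objects to counts -/
theorem obj2 {c c1 : Cfg U S D.m} {a : Ob U S D.m} {v : Multiset (Ob U S D.m)} (h : R2 D a v)
    (ha : 1 ≤ c.val a) (ha1 : 1 ≤ c1.val a) (hv : Ob.trap ∉ v) :
    is2 a ∧ ∃ c', H2 D c c1 (hotO a) c' ∧
      ∀ z, c'.val z + Multiset.count z {a} = c1.val z + Multiset.count z v := by
  cases h with
  | b i => exact ⟨trivial, _, H2.b i ha, h2_b D i ha1⟩
  | v i => exact ⟨trivial, _, H2.v i ha, h2_v D i ha1⟩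
  | vk => exact ⟨trivial, _, H2.vk ha, h2_vk D ha1⟩
  | g => exact ⟨trivial, _, H2.g ha, h2_g D ha1⟩
  | th => exact ⟨trivial, _, H2.th ha, h2_th D ha1⟩
  | w s j j' h1 h2 =>
    exact ⟨trivial, _, H2.w s j j' (val_w D ha) h1 h2, h2_w D s j j' (val_w D ha1)⟩
  | wp s s' j j' h1 h2 h3 =>
    exact ⟨trivial, _, H2.wp s s' j j' (val_w D ha) h1 h2 h3, h2_wp D s s' j j' (val_w D ha1)⟩
  | wz s j h1 h2 =>
    exact ⟨trivial, _, H2.wz s j (val_w D ha) h1 h2, h2_wz D s j (val_w D ha1)⟩
  | tw s j => exact absurd (Multiset.mem_singleton_self _) hv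

/-- the second catalyst, from counts to objects -/
theorem cfg2 {c c1 c' : Cfg U S D.m} {h : ℕ} (hh : H2 D c c1 h c') :
    (c' = c1 ∧ h = 0 ∧ (∀ i, c.b i = 0) ∧ c.kp = 0 ∧ hot c = 0) ∨
    ∃ a v, R2 D a v ∧ 1 ≤ c.val a ∧ is2 a ∧ h = hotO a ∧ (1 ≤ c1.val a →
      ∀ z, c'.val z + Multiset.count z {a} = c1.val z + Multiset.count z v) := by
  cases hh with
  | b i ha => exact Or.inr ⟨_, _, R2.b i, ha, trivial, rfl, h2_b D i⟩
  | v i ha => exact Or.inr ⟨_, _, R2.v i, ha, trivial, rfl, h2_v D i⟩
  | vk ha => exact Or.inr ⟨_, _, R2.vk, ha, trivial, rfl, h2_vk D⟩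
  | g ha => exact Or.inr ⟨_, _, R2.g, ha, trivial, rfl, h2_g D⟩
  | th ha => exact Or.inr ⟨_, _, R2.th, ha, trivial, rfl, h2_th D⟩
  | w s j j' hc h1 h2 =>
    exact Or.inr ⟨_, _, R2.w s j j' h1 h2, by simp [Cfg.val, hc], trivial, rfl,
      fun h => h2_w D s j j' (val_w D h)⟩
  | wp s s' j j' hc h1 h2 h3 =>
    exact Or.inr ⟨_, _, R2.wp s s' j j' h1 h2 h3, by simp [Cfg.val, hc], trivial, rfl,
      fun h => h2_wp D s s' j j' (val_w D h)⟩
  | wz s j hc h1 h2 =>
    exact Or.inr ⟨_, _, R2.wz s j h1 h2, by simp [Cfg.val, hc], trivial, rfl,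
      fun h => h2_wz D s j (val_w D h)⟩
  | idle h1 h2 h3 => exact Or.inl ⟨rfl, rfl, h1, h2, h3⟩

theorem R1_of_is1 {z : Ob U S D.m} (h : is1 z) : ∃ v, R1 D z v := by
  cases z with
  | a i => exact ⟨_, R1.a i⟩
  | f2 => exact ⟨_, R1.f2⟩
  | f1 => exact ⟨_, R1.f1⟩
  | p s j => exact ⟨_, R1.tp s j⟩
  | _ => exact absurd h (by simp [is1])

theorem R1_of_hot {z : Ob U S D.m} (h : hotO z ≠ 0) : ∃ v, R1 D z v := by
  cases z with
  | g => exact ⟨_, R1.tg⟩
  | th => exact ⟨_, R1.tth⟩
  | w s j => exact ⟨_, R1.tw s j⟩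
  | _ => exact absurd rfl h

theorem R2_of_is2 {z : Ob U S D.m} (h : is2 z) : ∃ v, R2 D z v := by
  cases z with
  | b i => exact ⟨_, R2.b i⟩
  | kp => exact ⟨_, R2.vk⟩
  | g => exact ⟨_, R2.g⟩
  | th => exact ⟨_, R2.th⟩
  | w s j => exact ⟨_, R2.tw s j⟩
  | _ => exact absurd h (by simp [is2])

theorem is2_of_R2 {a : Ob U S D.m} {v : Multiset (Ob U S D.m)} (h : R2 D a v) : is2 a := by
  cases h <;> trivial

theorem hot_le {c : Cfg U S D.m} {b : Ob U S D.m} (hg : c.g ≤ Multiset.count .g {b})
    (hth : c.th ≤ Multiset.count .th {b})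
    (hw : ∀ s j, c.tok = .w s j → 1 ≤ Multiset.count (.w s j) {b}) : hot c ≤ hotO b := by
  simp only [Multiset.count_singleton] at hg hth hw
  unfold hot
  cases ht : c.tok with
  | w s j =>
    have h1 := hw s j ht
    by_cases h2 : Ob.w s j = b
    · subst h2
      simp only [reduceCtorEq, if_false] at hg hth
      simp only [isW, hotO]
      omega
    · rw [if_neg h2] at h1; omega
  | p s j =>
    simp only [isW]
    cases b with
    | g => simp at hg hth; simp only [hotO]; omega
    | th => simp at hg hth; simp only [hotO]; omega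
    | _ => simp at hg hth; simp [hotO, hg, hth]
  | z =>
    simp only [isW]
    cases b with
    | g => simp at hg hth; simp only [hotO]; omega
    | th => simp at hg hth; simp only [hotO]; omega
    | _ => simp at hg hth; simp [hotO, hg, hth]

theorem hot_ge {c : Cfg U S D.m} {b z : Ob U S D.m} (hb : 1 ≤ c.val b) (hz : hotO z ≠ 0)
    (h : 1 + Multiset.count z {b} ≤ c.val z) : 1 + hotO b ≤ hot c := by
  simp only [Multiset.count_singleton] at h
  unfold hot
  cases z with
  | g =>
    cases b with
    | g => simp only [if_true, Cfg.val] at h; simp only [hotO]; omega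
    | th => simp only [Cfg.val] at hb h; simp at h; simp only [hotO]; omega
    | w s j =>
      rw [val_w D hb]
      simp only [Cfg.val] at hb h; simp at h; simp only [hotO, isW]; omega
    | _ => simp only [Cfg.val] at h; simp at h; simp only [hotO]; omega
  | th =>
    cases b with
    | g => simp only [Cfg.val] at hb h; simp at h; simp only [hotO]; omega
    | th => simp only [if_true, Cfg.val] at h; simp only [hotO]; omega
    | w s j =>
      rw [val_w D hb]
      simp only [Cfg.val] at hb h; simp at h; simp only [hotO, isW]; omega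
    | _ => simp only [Cfg.val] at h; simp at h; simp only [hotO]; omega
  | w s j =>
    have ht : c.tok = .w s j := val_w D (by omega)
    rw [ht]
    cases b with
    | g => simp only [Cfg.val] at hb; simp only [hotO, isW]; omega
    | th => simp only [Cfg.val] at hb; simp only [hotO, isW]; omega
    | w s' j' =>
      have h2 := val_w D hb
      rw [ht] at h2
      injection h2 with h3 h4
      subst h3
      subst h4
      simp [Cfg.val, ht] at h
    | _ => simp only [hotO, isW]; omega
  | _ => exact absurd rfl hz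

theorem step_obj {M M' : Multiset (Ob U S D.m)} {c : Cfg U S D.m} (hr : Rep M c)
    (hs : Step (R1 D) (R2 D) M M') : Ob.trap ∈ M' ∨ ∃ c', Rep M' c' ∧ CStep D c c' := by
  obtain ⟨x, y, rest, lx, ly, hM, i1, i2, hM'⟩ := hs
  by_cases htr : Ob.trap ∈ M'
  · exact Or.inl htr
  right
  have hc : ∀ z, c.val z = Multiset.count z (lhs x) + Multiset.count z (lhs y) +
      Multiset.count z rest := fun z => by
    rw [← hr z, hM, Multiset.count_add, Multiset.count_add]
  have hc' : ∀ z, Multiset.count z M' = Multiset.count z rest + Multiset.count z (rhs x) +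
      Multiset.count z (rhs y) := fun z => by
    rw [hM', Multiset.count_add, Multiset.count_add]
  have tx : Ob.trap ∉ rhs x := fun h => htr (by rw [hM']; simp [h])
  have ty : Ob.trap ∉ rhs y := fun h => htr (by rw [hM']; simp [h])
  -- first catalyst
  have hx : (x = none ∨ ∃ a v, x = some (a, v) ∧ is1 a) ∧ ∃ c1, (∀ z, c1.val z +
      Multiset.count z (lhs x) = c.val z + Multiset.count z (rhs x)) ∧
      ((x = none ∧ c1 = c) ∨ H1 D c c1) := by
    rcases x with _ | ⟨a, v⟩
    · exact ⟨Or.inl rfl, c, fun z => rfl, Or.inl ⟨rfl, rfl⟩⟩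
    · obtain ⟨h1, c1, h2, h3⟩ := obj1 D (c := c) (lx a v rfl) (by
        have := hc a
        simp only [lhs, Multiset.count_singleton_self] at this
        omega) tx
      exact ⟨Or.inr ⟨a, v, rfl, h1⟩, c1, h3, Or.inr h2⟩
  obtain ⟨hx1, c1, hx2, hx3⟩ := hx
  have nx : ∀ z, is2 z → Multiset.count z (lhs x) = 0 := by
    intro z hz
    rcases hx1 with rfl | ⟨a, v, rfl, ha⟩
    · rfl
    · simp only [lhs, Multiset.count_singleton]
      rw [if_neg (fun e => is_ne ha hz e.symm)]
  have ny : ∀ z, is1 z → Multiset.count z (lhs y) = 0 := by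
    intro z hz
    rcases y with _ | ⟨b, w⟩
    · rfl
    · simp only [lhs, Multiset.count_singleton]
      rw [if_neg (fun e => is_ne hz (is2_of_R2 D (ly b w rfl)) e)]
  have hy : ∃ c' h, H2 D c c1 h c' ∧ (∀ z, c'.val z +
      Multiset.count z (lhs y) = c1.val z + Multiset.count z (rhs y)) ∧
      (y = none ∨ ∃ b w, y = some (b, w) ∧ h = hotO b) := by
    rcases y with _ | ⟨b, w⟩
    · refine ⟨c1, 0, H2.idle ?_ ?_ ?_, fun z => rfl, Or.inl rfl⟩
      all_goals
        have key : ∀ z : Ob U S D.m, is2 z → c.val z = 0 := by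
          intro z hz
          rw [hc z, nx z hz]
          obtain ⟨v, hv⟩ := R2_of_is2 D hz
          rw [Multiset.count_eq_zero.2 (fun h => i2 rfl z h v hv)]
          rfl
      · exact fun i => key (.b i) trivial
      · exact key .kp trivial
      · unfold hot
        have h1 := key .g trivial
        have h2 := key .th trivial
        simp only [Cfg.val] at h1 h2
        rw [h1, h2]
        cases ht : c.tok with
        | w s j =>
          have := key (.w s j) trivial
          simp [Cfg.val, ht] at this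
        | _ => rfl
    · have hb := is2_of_R2 D (ly b w rfl)
      have h1 : 1 ≤ c.val b := by
        have := hc b
        simp only [lhs, Multiset.count_singleton_self] at this
        omega
      obtain ⟨-, c', h2, h3⟩ := obj2 D (c := c) (c1 := c1) (ly b w rfl) h1 (by
        have := hx2 b
        rw [nx b hb] at this
        omega) ty
      exact ⟨c', _, h2, h3, Or.inr ⟨b, w, rfl, rfl⟩⟩
  obtain ⟨c', h, hy1, hy2, hy3⟩ := hy
  refine ⟨c', fun z => ?_, h, c1, hy1, ?_⟩
  · have e1 := hc z
    have e2 := hc' z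
    have e3 := hx2 z
    have e4 := hy2 z
    omega
  · rcases hx3 with ⟨hx3, hx4⟩ | hx3
    · right
      refine ⟨hx4, ?_, ?_⟩
      · have key : ∀ z : Ob U S D.m, is1 z → c.val z = 0 := by
          intro z hz
          rw [hc z, ny z hz, hx3]
          obtain ⟨v, hv⟩ := R1_of_is1 D hz
          rw [Multiset.count_eq_zero.2 (fun h => i1 hx3 z h v hv)]
          rfl
        refine ⟨fun i => key (.a i) trivial, key .f2 trivial, key .f1 trivial, fun s j ht => ?_⟩
        have := key (.p s j) trivial
        simp [Cfg.val, ht] at this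
      · have key : ∀ z : Ob U S D.m, hotO z ≠ 0 → c.val z = Multiset.count z (lhs y) := by
          intro z hz
          rw [hc z, hx3]
          obtain ⟨v, hv⟩ := R1_of_hot D hz
          rw [Multiset.count_eq_zero.2 (fun h => i1 hx3 z h v hv)]
          simp [lhs]
        rcases hy3 with rfl | ⟨b, w, rfl, rfl⟩
        · have h1 := key .g (by simp [hotO])
          have h2 := key .th (by simp [hotO])
          simp only [Cfg.val, lhs, Multiset.count_zero] at h1 h2
          unfold hot
          rw [h1, h2]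
          cases ht : c.tok with
          | w s j =>
            have := key (.w s j) (by simp [hotO])
            simp [Cfg.val, ht, lhs] at this
          | _ => simp [isW]
        · apply hot_le D
          · exact (key .g (by simp [hotO])).le
          · exact (key .th (by simp [hotO])).le
          · intro s j ht
            have := key (.w s j) (by simp [hotO])
            simp only [Cfg.val, ht, if_true] at this
            exact this.le
    · exact Or.inl hx3

theorem step_cfg {M : Multiset (Ob U S D.m)} {c c' : Cfg U S D.m} (hr : Rep M c)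
    (hs : CStep D c c') : ∃ M', Rep M' c' ∧ Step (R1 D) (R2 D) M M' := by
  obtain ⟨h, c1, h2, h1⟩ := hs
  have hx : ∃ x : Option (Ob U S D.m × Multiset (Ob U S D.m)), Legal (R1 D) x ∧
      (∀ z, c1.val z + Multiset.count z (lhs x) = c.val z + Multiset.count z (rhs x)) ∧
      (∀ z, Multiset.count z (lhs x) ≤ c.val z) ∧
      (∀ z, is2 z → Multiset.count z (lhs x) = 0) ∧
      (∀ z, Multiset.count z (lhs x) ≠ 0 → is1 z) ∧
      (x = none → NoM1 c ∧ hot c ≤ h) := by
    rcases h1 with h1 | ⟨rfl, h3, h4⟩
    · obtain ⟨a, v, e1, e2, e3, e4⟩ := cfg1 D h1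
      refine ⟨some (a, v), ?_, e4, ?_, ?_, ?_, fun h => by cases h⟩
      · rintro a' v' h
        cases h
        exact e1
      · intro z
        simp only [lhs, Multiset.count_singleton]
        split_ifs with hz
        · rw [hz]; exact e2
        · exact Nat.zero_le _
      · intro z hz
        simp only [lhs, Multiset.count_singleton]
        rw [if_neg (fun e => is_ne e3 hz e.symm)]
      · intro z hz
        simp only [lhs, Multiset.count_singleton] at hz
        split_ifs at hz with h5
        · rw [h5]; exact e3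
        · exact absurd rfl hz
    · exact ⟨none, fun a v h => (by cases h), fun z => rfl, fun z => Nat.zero_le _, fun z _ => rfl,
        fun z hz => absurd rfl hz, fun _ => ⟨h3, h4⟩⟩
  obtain ⟨x, lx, x1, x2, x3, x4, x5⟩ := hx
  have hy : ∃ y : Option (Ob U S D.m × Multiset (Ob U S D.m)), Legal (R2 D) y ∧
      (∀ z, c'.val z + Multiset.count z (lhs y) = c1.val z + Multiset.count z (rhs y)) ∧
      (∀ z, Multiset.count z (lhs y) ≤ c.val z) ∧
      (∀ z, is1 z → Multiset.count z (lhs y) = 0) ∧
      ((y = none ∧ h = 0 ∧ (∀ i, c.b i = 0) ∧ c.kp = 0 ∧ hot c = 0) ∨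
        ∃ b w, y = some (b, w) ∧ h = hotO b ∧ 1 ≤ c.val b) := by
    rcases cfg2 D h2 with ⟨rfl, e1⟩ | ⟨b, w, e1, e2, e3, e4, e5⟩
    · exact ⟨none, fun a v h => (by cases h), fun z => rfl, fun z => Nat.zero_le _, fun z _ => rfl,
        Or.inl ⟨rfl, e1⟩⟩
    · refine ⟨some (b, w), ?_, e5 ?_, ?_, ?_, Or.inr ⟨b, w, rfl, e4, e2⟩⟩
      · rintro a' v' h
        cases h
        exact e1
      · have := x1 b
        rw [x3 b e3] at this
        omega
      · intro z
        simp only [lhs, Multiset.count_singleton]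
        split_ifs with hz
        · rw [hz]; exact e2
        · exact Nat.zero_le _
      · intro z hz
        simp only [lhs, Multiset.count_singleton]
        rw [if_neg (fun e => is_ne hz e3 e)]
  obtain ⟨y, ly, y1, y2, y3, y4⟩ := hy
  have hle : lhs x + lhs y ≤ M := by
    rw [Multiset.le_iff_count]
    intro z
    rw [Multiset.count_add, hr z]
    by_cases hz : Multiset.count z (lhs x) = 0
    · have := y2 z
      omega
    · have := x2 z
      have := y3 z (x4 z hz)
      omega
  obtain ⟨rest, hrest⟩ := Multiset.le_iff_exists_add.1 hle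
  have hc : ∀ z, c.val z = Multiset.count z (lhs x) + Multiset.count z (lhs y) +
      Multiset.count z rest := fun z => by
    rw [← hr z, hrest, Multiset.count_add, Multiset.count_add]
  refine ⟨rest + rhs x + rhs y, fun z => ?_, x, y, rest, lx, ly, hrest, ?_, ?_, rfl⟩
  · rw [Multiset.count_add, Multiset.count_add]
    have e1 := hc z
    have e3 := x1 z
    have e4 := y1 z
    omega
  · intro hx0 a ha v hv
    obtain ⟨⟨n1, n2, n3, n4⟩, n5⟩ := x5 hx0
    have h5 : 1 ≤ Multiset.count a rest := Multiset.one_le_count_iff_mem.2 ha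
    have h6 := hc a
    have h7 : hotO a ≠ 0 → False := by
      intro h8
      rcases y4 with ⟨rfl, rfl, -, -, y5⟩ | ⟨b, w, rfl, rfl, y5⟩
      · have h9 : 1 ≤ c.val a := by omega
        unfold hot at y5
        cases a with
        | g => simp only [Cfg.val] at h9; omega
        | th => simp only [Cfg.val] at h9; omega
        | w s j => rw [val_w D h9] at y5; simp [isW] at y5
        | _ => exact h8 rfl
      · have := hot_ge D y5 h8 (by simp only [lhs] at h6; omega)
        omega
    cases hv with
    | a i => simp only [Cfg.val] at h6; have := n1 i; omega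
    | f2 => simp only [Cfg.val] at h6; omega
    | f1 => simp only [Cfg.val] at h6; omega
    | p s j j' _ _ => exact n4 s j (val_p D (by omega))
    | pw s j j' _ _ => exact n4 s j (val_p D (by omega))
    | tp s j => exact n4 s j (val_p D (by omega))
    | tt => simp only [Cfg.val] at h6; omega
    | _ => exact h7 (by simp [hotO])
  · intro hy0 a ha v hv
    rcases y4 with ⟨-, -, y5, y6, y7⟩ | ⟨b, w, y5, -⟩
    · have h5 : 1 ≤ Multiset.count a rest := Multiset.one_le_count_iff_mem.2 ha
      have h6 := hc a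
      have h9 : 1 ≤ c.val a := by omega
      unfold hot at y7
      have h10 := is2_of_R2 D hv
      cases a with
      | b i => simp only [Cfg.val] at h9; have := y5 i; omega
      | kp => simp only [Cfg.val] at h9; omega
      | g => simp only [Cfg.val] at h9; omega
      | th => simp only [Cfg.val] at h9; omega
      | w s j => rw [val_w D h9] at y7; simp [isW] at y7
      | _ => exact absurd h10 (by simp [is2])
    · rw [hy0] at y5
      cases y5

theorem trap_step {M M' : Multiset (Ob U S D.m)} (ht : Ob.trap ∈ M)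
    (hs : Step (R1 D) (R2 D) M M') : Ob.trap ∈ M' := by
  obtain ⟨x, y, rest, lx, ly, hM, i1, i2, hM'⟩ := hs
  rw [hM, Multiset.mem_add, Multiset.mem_add] at ht
  rw [hM', Multiset.mem_add, Multiset.mem_add]
  rcases ht with (ht | ht) | ht
  · rcases x with _ | ⟨a, v⟩
    · exact absurd ht (Multiset.notMem_zero _)
    · have h1 : Ob.trap = a := Multiset.mem_singleton.1 ht
      subst h1
      have h2 := lx _ _ rfl
      cases h2
      exact Or.inl (Or.inr (Multiset.mem_singleton_self _))
  · rcases y with _ | ⟨a, v⟩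
    · exact absurd ht (Multiset.notMem_zero _)
    · have h1 : Ob.trap = a := Multiset.mem_singleton.1 ht
      subst h1
      have h2 := ly _ _ rfl
      cases h2
  · exact Or.inl (Or.inl ht)

theorem halt_iff {M : Multiset (Ob U S D.m)} {c : Cfg U S D.m} (hr : Rep M c) :
    Halt (R1 D) (R2 D) M ↔ CHalt c := by
  constructor
  · intro h
    have k1 : ∀ z : Ob U S D.m, (∃ v, R1 D z v) → c.val z = 0 := by
      rintro z ⟨v, hv⟩
      rw [← hr z, Multiset.count_eq_zero]
      exact fun hz => (h z hz v).1 hv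
    have k2 : ∀ z : Ob U S D.m, (∃ v, R2 D z v) → c.val z = 0 := by
      rintro z ⟨v, hv⟩
      rw [← hr z, Multiset.count_eq_zero]
      exact fun hz => (h z hz v).2 hv
    refine ⟨⟨fun i => k1 (.a i) (R1_of_is1 D trivial), k1 .f2 (R1_of_is1 D trivial),
      k1 .f1 (R1_of_is1 D trivial), fun s j ht => ?_⟩, ?_,
      fun i => k2 (.b i) (R2_of_is2 D trivial), k2 .kp (R2_of_is2 D trivial)⟩
    · have := k1 (.p s j) (R1_of_is1 D trivial)
      simp [Cfg.val, ht] at this
    · have h1 := k2 .g (R2_of_is2 D trivial)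
      have h2 := k2 .th (R2_of_is2 D trivial)
      simp only [Cfg.val] at h1 h2
      unfold hot
      rw [h1, h2]
      cases ht : c.tok with
      | w s j =>
        have := k2 (.w s j) (R2_of_is2 D trivial)
        simp [Cfg.val, ht] at this
      | _ => rfl
  · rintro ⟨⟨n1, n2, n3, n4⟩, h5, h6, h7⟩ z hz v
    have h8 : 1 ≤ c.val z := by rw [← hr z]; exact Multiset.one_le_count_iff_mem.2 hz
    unfold hot at h5
    have h9 : z = .o := by
      cases z with
      | a i => simp only [Cfg.val] at h8; have := n1 i; omega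
      | b i => simp only [Cfg.val] at h8; have := h6 i; omega
      | f2 => simp only [Cfg.val] at h8; omega
      | f1 => simp only [Cfg.val] at h8; omega
      | kp => simp only [Cfg.val] at h8; omega
      | g => simp only [Cfg.val] at h8; omega
      | th => simp only [Cfg.val] at h8; omega
      | p s j => exact absurd (val_p D h8) (n4 s j)
      | w s j => rw [val_w D h8] at h5; simp [isW] at h5
      | trap => simp only [Cfg.val] at h8; omega
      | o => rfl
    subst h9
    constructor <;> intro h <;> cases h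

theorem rep_init (j : Fin (D.m + 1)) : Rep (M0 D j) (startC D (fun _ => 0) 0 0 D.s0 j) := by
  intro z
  unfold M0
  rw [Multiset.count_add, Multiset.count_nsmul]
  simp only [Multiset.count_singleton]
  cases z with
  | p t k =>
    simp only [Cfg.val, startC, Tok.p.injEq, Ob.p.injEq, reduceCtorEq, if_false]
    have e2 : (D.s0 = t ∧ j = k) ↔ (t = D.s0 ∧ k = j) := by
      constructor
      · rintro ⟨h, rfl⟩; exact ⟨h.symm, rfl⟩
      · rintro ⟨h, rfl⟩; exact ⟨h.symm, rfl⟩
    simp only [e2]
    omega
  | _ => simp [Cfg.val, startC]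

theorem count_inst {α : Type} (i1 i2 : DecidableEq α) (a : α) (M : Multiset α) :
    @Multiset.count α i1 a M = @Multiset.count α i2 a M := by
  have : i1 = i2 := Subsingleton.elim _ _
  rw [this]

theorem bridge (j : Fin (D.m + 1)) :
    Res (R1 D) (R2 D) (M0 D j) .o = {n | ∃ c : Cfg U S D.m,
      ReflTransGen (CStep D) (startC D (fun _ => 0) 0 0 D.s0 j) c ∧ CHalt c ∧ c.o = n} := by
  ext n
  constructor
  · rintro ⟨H, h1, h2, h3⟩
    have key : ∀ M, ReflTransGen (Step (R1 D) (R2 D)) (M0 D j) M → Ob.trap ∈ M ∨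
        ∃ c, Rep M c ∧ ReflTransGen (CStep D) (startC D (fun _ => 0) 0 0 D.s0 j) c := by
      intro M hM
      induction hM with
      | refl => exact Or.inr ⟨_, rep_init D j, ReflTransGen.refl⟩
      | tail _ hs ih =>
        rcases ih with ih | ⟨c, e1, e2⟩
        · exact Or.inl (trap_step D ih hs)
        · rcases step_obj D e1 hs with h | ⟨c', e3, e4⟩
          · exact Or.inl h
          · exact Or.inr ⟨c', e3, e2.tail e4⟩
    rcases key H h1 with h | ⟨c, e1, e2⟩
    · exact absurd (R1.tt) ((h2 _ h _).1)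
    · refine ⟨c, e2, (halt_iff D e1).1 h2, ?_⟩
      have := e1 .o
      simp only [Cfg.val] at this
      rw [← this, ← h3]
      exact count_inst _ _ _ _
  · rintro ⟨c, h1, h2, h3⟩
    have key : ∀ c, ReflTransGen (CStep D) (startC D (fun _ => 0) 0 0 D.s0 j) c →
        ∃ M, Rep M c ∧ ReflTransGen (Step (R1 D) (R2 D)) (M0 D j) M := by
      intro c hc
      induction hc with
      | refl => exact ⟨_, rep_init D j, ReflTransGen.refl⟩
      | tail _ hs ih =>
        obtain ⟨M, e1, e2⟩ := ih
        obtain ⟨M', e3, e4⟩ := step_cfg D e1 hs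
        exact ⟨M', e3, e2.tail e4⟩
    obtain ⟨M, e1, e2⟩ := key c h1
    refine ⟨M, e2, (halt_iff D e1).2 h2, ?_⟩
    have := e1 .o
    simp only [Cfg.val] at this
    rw [← h3, ← this]
    exact count_inst _ _ _ _

end Pool.Agent.H700R2.Pcat
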