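import Pool.Agent.H700R2.PcatDefs

/-! Completeness: explicit runs of segments. -/

set_option autoImplicit false
set_option linter.unusedSectionVars false

namespace Pool.Agent.H700R2.Pcat

open Relation

variable {U S : Type} [DecidableEq U] (D : Sys U S)

theorem st {c c1 c' : Cfg U S D.m} {h : ℕ} (h1 : H1 D c c1) (h2 : H2 D c c1 h c') :
    CStep D c c' := ⟨h, c1, h2, Or.inl h1⟩

/-- windows -/
theorem window (b : U → ℕ) (kp o : ℕ) (s : S) (jq : Fin (D.m + 1)) (hq : jq.val = D.q) :
    ∀ (t : ℕ) (j : Fin (D.m + 1)), j.val + t = D.q →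
      ReflTransGen (CStep D) (endC D b kp o s j) (endC D b kp o s jq) := by
  intro t
  induction t with
  | zero =>
    intro j hj
    have : j = jq := Fin.ext (by omega)
    rw [this]
  | succ t ih =>
    intro j hj
    have hlt : j.val + 1 < D.m + 1 := by have := jq.isLt; omega
    refine ReflTransGen.head ?_ (ih ⟨j.val + 1, hlt⟩ (by simp only; omega))
    refine ⟨1, endC D b kp o s j, H2.w s j ⟨j.val + 1, hlt⟩ rfl rfl (by simp only; omega),
      Or.inr ⟨rfl, ⟨fun _ => rfl, rfl, rfl, ?_⟩, ?_⟩⟩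
    · intro s' j' h
      cases h
    · simp [hot, endC, isW]

/-- consumption of the objects `th` -/
theorem th_run (b : U → ℕ) (kp o : ℕ) (s : S) :
    ∀ (t : ℕ) (j j' : Fin (D.m + 1)), j.val = j'.val + t → 2 ≤ j'.val →
      ReflTransGen (CStep D) (⟨.p s j, fun _ => 0, b, 0, 0, kp, 2, t, o⟩ : Cfg U S D.m)
        ⟨.p s j', fun _ => 0, b, 0, 0, kp, 2, 0, o⟩ := by
  intro t
  induction t with
  | zero =>
    intro j j' hj h2
    have : j = j' := Fin.ext (by omega)
    rw [this]
  | succ t ih =>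
    intro j j' hj h2
    have hlt : j.val - 1 < D.m + 1 := by have := j.isLt; omega
    refine ReflTransGen.head ?_ (ih ⟨j.val - 1, hlt⟩ j' (by simp only; omega) h2)
    exact st D (H1.p s j ⟨j.val - 1, hlt⟩ rfl (by simp only; omega) (by simp only; omega))
      (H2.th (by simp))

/-- consumption of a unit -/
theorem unit_run (hn : ∀ i, 1 ≤ D.n i) (b : U → ℕ) (kp o : ℕ) (s : S) (i : U) (hi : 1 ≤ b i)
    (j j' : Fin (D.m + 1)) (hj : j.val = j'.val + D.n i) (h2 : 2 ≤ j'.val) :
      ReflTransGen (CStep D) (⟨.p s j, fun _ => 0, b, 0, 0, kp, 2, 0, o⟩ : Cfg U S D.m)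
        ⟨.p s j', fun _ => 0, fun k => b k - (if k = i then 1 else 0), 0, 0, kp, 2, 0, o⟩ := by
  have hlt : j.val - 1 < D.m + 1 := by have := j.isLt; omega
  have := hn i
  refine ReflTransGen.head ?_ (th_run D _ kp o s (D.n i - 1) ⟨j.val - 1, hlt⟩ j'
    (by simp only; omega) h2)
  have h3 := st D (c := ⟨.p s j, fun _ => 0, b, 0, 0, kp, 2, 0, o⟩)
    (H1.p s j ⟨j.val - 1, hlt⟩ rfl (by simp only; omega) (by simp only; omega))
    (H2.v i hi)
  simpa using h3

/-- consumption of a special unit -/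
theorem kp_run (hn : 1 ≤ D.nk) (b : U → ℕ) (kp o : ℕ) (s : S) (hi : 1 ≤ kp)
    (j j' : Fin (D.m + 1)) (hj : j.val = j'.val + D.nk) (h2 : 2 ≤ j'.val) :
      ReflTransGen (CStep D) (⟨.p s j, fun _ => 0, b, 0, 0, kp, 2, 0, o⟩ : Cfg U S D.m)
        ⟨.p s j', fun _ => 0, b, 0, 0, kp - 1, 2, 0, o⟩ := by
  have hlt : j.val - 1 < D.m + 1 := by have := j.isLt; omega
  refine ReflTransGen.head ?_ (th_run D _ (kp - 1) o s (D.nk - 1) ⟨j.val - 1, hlt⟩ j'
    (by simp only; omega) h2)
  have h3 := st D (c := ⟨.p s j, fun _ => 0, b, 0, 0, kp, 2, 0, o⟩)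
    (H1.p s j ⟨j.val - 1, hlt⟩ rfl (by simp only; omega) (by simp only; omega))
    (H2.vk hi)
  simpa using h3

/-- consumption of special units -/
theorem kps_run (hn : 1 ≤ D.nk) (b : U → ℕ) (o : ℕ) (s : S) : ∀ (e kp : ℕ), e ≤ kp →
    ∀ (j j' : Fin (D.m + 1)), j.val = j'.val + e * D.nk → 2 ≤ j'.val →
      ReflTransGen (CStep D) (⟨.p s j, fun _ => 0, b, 0, 0, kp, 2, 0, o⟩ : Cfg U S D.m)
        ⟨.p s j', fun _ => 0, b, 0, 0, kp - e, 2, 0, o⟩ := by
  intro e
  induction e with
  | zero =>
    intro kp _ j j' hj _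
    have : j = j' := Fin.ext (by omega)
    rw [this, Nat.sub_zero]
  | succ e ih =>
    intro kp he j j' hj h2
    rw [add_mul, one_mul] at hj
    have hlt : j.val - D.nk < D.m + 1 := by have := j.isLt; omega
    refine (kp_run D hn b kp o s (by omega) j ⟨j.val - D.nk, hlt⟩ (by simp only; omega)
      (by simp only; omega)).trans ?_
    have := ih (kp - 1) (by omega) ⟨j.val - D.nk, hlt⟩ j' (by simp only; omega) h2
    rw [Nat.sub_sub, add_comm 1 e] at this
    exact this

/-- consumption of a set of units -/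
theorem set_run (hn : ∀ i, 1 ≤ D.n i) (kp o : ℕ) (s : S) (E : Finset U) :
    ∀ (b : U → ℕ), (∀ i ∈ E, 1 ≤ b i) →
    ∀ (j j' : Fin (D.m + 1)), j.val = j'.val + ∑ i ∈ E, D.n i → 2 ≤ j'.val →
      ReflTransGen (CStep D) (⟨.p s j, fun _ => 0, b, 0, 0, kp, 2, 0, o⟩ : Cfg U S D.m)
        ⟨.p s j', fun _ => 0, fun k => b k - (if k ∈ E then 1 else 0), 0, 0, kp, 2, 0, o⟩ := by
  induction E using Finset.induction_on with
  | empty =>
    intro b _ j j' hj _
    have : j = j' := Fin.ext (by simpa using hj)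
    rw [this]
    simp only [Finset.notMem_empty, if_false, Nat.sub_zero]
    exact ReflTransGen.refl
  | insert i E hiE ih =>
    intro b hb j j' hj h2
    rw [Finset.sum_insert hiE] at hj
    have hlt : j.val - D.n i < D.m + 1 := by have := j.isLt; omega
    refine (unit_run D hn b kp o s i (hb i (Finset.mem_insert_self i E)) j ⟨j.val - D.n i, hlt⟩
      (by simp only; omega) (by simp only; omega)).trans ?_
    have := ih (fun k => b k - (if k = i then 1 else 0)) (by
      intro k hk
      have h3 : k ≠ i := fun e => hiE (e ▸ hk)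
      simp only [if_neg h3]
      have := hb k (Finset.mem_insert_of_mem hk)
      omega) ⟨j.val - D.n i, hlt⟩ j' (by simp only; omega) h2
    convert this using 2
    funext k
    by_cases hk : k = i
    · subst hk
      simp [hiE]
    · simp [hk]

/-- the last steps of a segment -/
theorem last_run {Fm : ℕ} [Fintype U] (hD : D.OK Fm) (b : U → ℕ) (kp o : ℕ) (s : S)
    (j jq : Fin (D.m + 1)) (hj : j.val = 1) (hq : jq.val = D.q) :
    ReflTransGen (CStep D) (⟨.p s j, fun _ => 0, b, 0, 0, kp, 1, 0, o⟩ : Cfg U S D.m)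
      (endC D (fun k => b k + D.em s k) (kp + D.ek s) (o + D.eo s) s jq) := by
  refine ReflTransGen.head ?_ (window D _ _ _ s jq hq (D.q - 1) j (by have := hD.qF; omega))
  exact st D (H1.pw s j j rfl hj hj) (H2.g (by simp))

theorem comp_V [Fintype U] {Fm : ℕ} (hD : D.OK Fm)
    (s : S) (b : U → ℕ) (kp o : ℕ) (E : Finset U) (e : ℕ) (he : e ≤ kp) (hE : ∀ i ∈ E, 1 ≤ b i)
    (hF : D.F s = ∑ i ∈ E, D.n i + e * D.nk) {j jq : Fin (D.m + 1)} (hj : j.val = D.F s + 2)
    (hq : jq.val = D.q) :
    ReflTransGen (CStep D) (startC D b kp o s j)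
      (endC D (fun k => b k - (if k ∈ E then 1 else 0) + D.em s k) (kp - e + D.ek s)
        (o + D.eo s) s jq) := by
  have hn : ∀ i, 1 ≤ D.n i := fun i => by have := hD.n3 i; omega
  have hnk : 1 ≤ D.nk := by have := hD.nk3; omega
  have hlt : e * D.nk + 2 < D.m + 1 := by have := j.isLt; omega
  have hlt2 : 2 < D.m + 1 := by omega
  have hlt1 : 1 < D.m + 1 := by omega
  refine (set_run D hn kp o s E b hE j ⟨e * D.nk + 2, hlt⟩ (by simp only; omega)
    (by simp only; omega)).trans ?_
  refine (kps_run D hnk _ o s e kp he ⟨e * D.nk + 2, hlt⟩ ⟨2, hlt2⟩ (by simp only; omega)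
    (by simp only; omega)).trans ?_
  refine ReflTransGen.head ?_ (last_run D hD _ _ _ s ⟨1, hlt1⟩ jq rfl hq)
  exact st D (H1.p s ⟨2, hlt2⟩ ⟨1, hlt1⟩ rfl rfl (le_refl 1)) (H2.g (by simp))

theorem sum_sub_one [Fintype U] (b : U → ℕ) (i : U) (hi : 1 ≤ b i) :
    ∑ k, (b k - (if k = i then 1 else 0)) + 1 = ∑ k, b k := by
  have h : ∀ k, b k = (b k - (if k = i then 1 else 0)) + (if k = i then 1 else 0) := by
    intro k
    by_cases hk : k = i
    · subst hk; simp only [if_true]; omega
    · simp [hk]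
  conv_rhs => rw [Finset.sum_congr rfl (fun k _ => h k)]
  rw [Finset.sum_add_distrib, Finset.sum_ite_eq', if_pos (Finset.mem_univ i)]

/-- conversion of all units: the state with one `f2` and two `g` -/
theorem conv_run [Fintype U] (kp o : ℕ) (s : S) (j : Fin (D.m + 1)) :
    ∀ (t : ℕ) (a b : U → ℕ), ∑ i, b i = t →
      ReflTransGen (CStep D) (⟨.p s j, a, b, 1, 0, kp, 2, 0, o⟩ : Cfg U S D.m)
        ⟨.p s j, fun k => a k + b k, fun _ => 0, 1, 0, kp, 2, 0, o⟩ := by
  intro t
  induction t with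
  | zero =>
    intro a b hb
    have : ∀ i, b i = 0 := fun i => by
      have := (Finset.sum_eq_zero_iff.1 hb) i (Finset.mem_univ i)
      exact this
    have h2 : b = fun _ => 0 := funext this
    subst h2
    simp only [Nat.add_zero]
    exact ReflTransGen.refl
  | succ t ih =>
    intro a b hb
    obtain ⟨i, hi⟩ : ∃ i, 1 ≤ b i := by
      by_contra h
      push Not at h
      rw [Finset.sum_eq_zero (fun i _ => by have := h i; omega)] at hb
      omega
    have hsum : ∑ k, (b k - (if k = i then 1 else 0)) = t := by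
      have h3 := sum_sub_one b i hi
      omega
    have h4 := ih (fun k => a k + (if k = i then 1 else 0))
      (fun k => b k - (if k = i then 1 else 0)) hsum
    have h5 : (fun k => a k + (if k = i then 1 else 0) + (b k - (if k = i then 1 else 0))) =
        fun k => a k + b k := by
      funext k
      by_cases hk : k = i
      · subst hk; simp only [if_true]; omega
      · simp [hk]
    rw [h5] at h4
    have h6 := st D (c := ⟨.p s j, a, b, 0, 1, kp, 1, 0, o⟩) (H1.f1 (by simp)) (H2.b i hi)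
    have h7 : CStep D (⟨.p s j, a, b, 1, 0, kp, 2, 0, o⟩ : Cfg U S D.m)
      ⟨.p s j, a, b, 0, 1, kp, 1, 0, o⟩ := st D (H1.f2 (by simp)) (H2.g (by simp))
    exact ReflTransGen.head h7 (ReflTransGen.head h6 h4)

/-- reconversion of all units -/
theorem reconv_run [Fintype U] (kp o : ℕ) (s : S) (j : Fin (D.m + 1)) :
    ∀ (t : ℕ) (a b : U → ℕ), ∑ i, a i = t →
      ReflTransGen (CStep D) (⟨.p s j, a, b, 0, 0, kp, 1, 0, o⟩ : Cfg U S D.m)
        ⟨.p s j, fun _ => 0, fun k => a k + b k + (if k = D.d then 4 * a D.x else 0), 0, 0, kp,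
          1, 0, o⟩ := by
  intro t
  induction t with
  | zero =>
    intro a b ha
    have : ∀ i, a i = 0 := fun i => by
      have := (Finset.sum_eq_zero_iff.1 ha) i (Finset.mem_univ i)
      exact this
    have h2 : a = fun _ => 0 := funext this
    subst h2
    simp only [Nat.zero_add, Nat.mul_zero, ite_self, Nat.add_zero]
    exact ReflTransGen.refl
  | succ t ih =>
    intro a b ha
    obtain ⟨i, hi⟩ : ∃ i, 1 ≤ a i := by
      by_contra h
      push Not at h
      rw [Finset.sum_eq_zero (fun i _ => by have := h i; omega)] at ha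
      omega
    have hsum : ∑ k, (a k - (if k = i then 1 else 0)) = t := by
      have h3 := sum_sub_one a i hi
      omega
    have h4 := ih (fun k => a k - (if k = i then 1 else 0))
      (fun k => b k + (if k = i then 1 else 0) + (if k = D.d ∧ i = D.x then 4 else 0)) hsum
    have h5 : (fun k => (a k - (if k = i then 1 else 0)) +
        (b k + (if k = i then 1 else 0) + (if k = D.d ∧ i = D.x then 4 else 0)) +
        (if k = D.d then 4 * (a D.x - (if D.x = i then 1 else 0)) else 0)) =
        fun k => a k + b k + (if k = D.d then 4 * a D.x else 0) := by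
      funext k
      by_cases hk : k = i
      · subst hk
        simp only [if_true]
        by_cases hkd : k = D.d
        · simp only [hkd, if_true, true_and]
          by_cases hx : D.x = D.d
          · rw [← hkd] at hx
            rw [hx, ← hkd]
            simp only [if_true]
            omega
          · rw [if_neg (fun e => hx e.symm), if_neg hx]
            rw [hkd] at hi
            omega
        · simp only [hkd, if_false, false_and]
          omega
      · simp only [if_neg hk]
        by_cases hkd : k = D.d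
        · simp only [hkd, if_true, true_and]
          by_cases hx : i = D.x
          · subst hx
            simp only [if_true]
            omega
          · rw [if_neg hx, if_neg (fun e => hx e.symm)]
            omega
        · simp only [hkd, if_false, false_and]
          omega
    rw [h5] at h4
    refine ReflTransGen.head ?_ h4
    have h6 := st D (c := ⟨.p s j, a, b, 0, 0, kp, 1, 0, o⟩) (H1.a i hi) (H2.g (by simp))
    exact h6

theorem comp_gen [Fintype U] {Fm : ℕ} (hD : D.OK Fm)
    (s : S) (b : U → ℕ) (o : ℕ)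
    (hF : D.F s = 1) {j jq : Fin (D.m + 1)} (hj : j.val = D.F s + 2) (hq : jq.val = D.q) :
    ReflTransGen (CStep D) (startC D b 0 o s j)
      (endC D (fun k => b k + D.em s k + (if k = D.d then 4 * b D.x else 0)) (D.ek s)
        (o + D.eo s) s jq) := by
  have hlt2 : 2 < D.m + 1 := by omega
  have hlt1 : 1 < D.m + 1 := by omega
  have hqF := hD.qF
  by_cases hb : ∃ i, 1 ≤ b i
  · obtain ⟨i, hi⟩ := hb
    -- first conversion
    have s1 : CStep D (startC D b 0 o s j)
        ⟨.p s ⟨2, hlt2⟩, fun k => 0 + (if k = i then 1 else 0),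
          fun k => b k - (if k = i then 1 else 0), 0 + 1, 0, 0, 2, 0, o⟩ :=
      st D (H1.p s j ⟨2, hlt2⟩ rfl (by simp only; omega) (by simp)) (H2.b i hi)
    have s2 := conv_run D 0 o s ⟨2, hlt2⟩ _ (fun k => 0 + (if k = i then 1 else 0))
      (fun k => b k - (if k = i then 1 else 0)) rfl
    have e2 : (fun k => 0 + (if k = i then 1 else 0) + (b k - (if k = i then 1 else 0))) = b := by
      funext k
      by_cases hk : k = i
      · subst hk; simp only [if_true]; omega
      · simp [hk]
    rw [e2] at s2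
    have s3 : CStep D (⟨.p s ⟨2, hlt2⟩, b, fun _ => 0, 1, 0, 0, 2, 0, o⟩ : Cfg U S D.m)
        ⟨.p s ⟨2, hlt2⟩, b, fun _ => 0, 0, 1, 0, 1, 0, o⟩ :=
      st D (H1.f2 (by simp)) (H2.g (by simp))
    have s4 : CStep D (⟨.p s ⟨2, hlt2⟩, b, fun _ => 0, 0, 1, 0, 1, 0, o⟩ : Cfg U S D.m)
        ⟨.p s ⟨2, hlt2⟩, b, fun _ => 0, 0, 0, 0, 1, 0, o⟩ :=
      st D (H1.f1 (by simp)) (H2.g (by simp))
    have s5 : CStep D (⟨.p s ⟨2, hlt2⟩, b, fun _ => 0, 0, 0, 0, 1, 0, o⟩ : Cfg U S D.m)
        ⟨.p s ⟨1, hlt1⟩, b, fun _ => 0, 0, 0, 0, 0, 0, o⟩ :=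
      st D (H1.p s ⟨2, hlt2⟩ ⟨1, hlt1⟩ rfl rfl (le_refl 1)) (H2.g (by simp))
    have s6 : CStep D (⟨.p s ⟨1, hlt1⟩, b, fun _ => 0, 0, 0, 0, 0, 0, o⟩ : Cfg U S D.m)
        ⟨.p s ⟨1, hlt1⟩, fun k => b k - (if k = i then 1 else 0),
          fun k => 0 + (if k = i then 1 else 0) + (if k = D.d ∧ i = D.x then 4 else 0),
          0, 0, 0, 1, 0, o⟩ :=
      st D (H1.a i hi) (H2.idle (fun _ => rfl) rfl (by simp [hot, isW]))
    have s7 := reconv_run D 0 o s ⟨1, hlt1⟩ _ (fun k => b k - (if k = i then 1 else 0))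
      (fun k => 0 + (if k = i then 1 else 0) + (if k = D.d ∧ i = D.x then 4 else 0)) rfl
    have e7 : (fun k => (b k - (if k = i then 1 else 0)) +
        (0 + (if k = i then 1 else 0) + (if k = D.d ∧ i = D.x then 4 else 0)) +
        (if k = D.d then 4 * (b D.x - (if D.x = i then 1 else 0)) else 0)) =
        fun k => b k + (if k = D.d then 4 * b D.x else 0) := by
      funext k
      have hxd := hD.xd
      by_cases hx : i = D.x
      · subst hx
        by_cases hkd : k = D.d
        · subst hkd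
          simp only [if_true, true_and, if_neg (Ne.symm hxd)]
          omega
        · simp only [hkd, if_false, false_and]
          by_cases hk : k = D.x
          · subst hk; simp only [if_true]; omega
          · simp [hk]
      · have hx' : D.x ≠ i := fun e => hx e.symm
        simp only [hx, hx', and_false, if_false]
        by_cases hk : k = i
        · subst hk; simp only [if_true, Nat.sub_zero]; omega
        · simp [hk]
    rw [e7] at s7
    have s8 := last_run D hD (fun k => b k + (if k = D.d then 4 * b D.x else 0)) 0 o s ⟨1, hlt1⟩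
      jq rfl hq
    have e8 : (fun k => b k + (if k = D.d then 4 * b D.x else 0) + D.em s k) =
        (fun k => b k + D.em s k + (if k = D.d then 4 * b D.x else 0)) := by
      funext k; omega
    rw [e8, Nat.zero_add] at s8
    exact ReflTransGen.head s1 (s2.trans (ReflTransGen.head s3 (ReflTransGen.head s4
      (ReflTransGen.head s5 (ReflTransGen.head s6 (s7.trans s8))))))
  · push Not at hb
    have hb0 : b = fun _ => 0 := funext fun i => by have := hb i; omega
    subst hb0
    have s1 : CStep D (startC D (fun _ => 0) 0 o s j)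
        ⟨.p s ⟨2, hlt2⟩, fun _ => 0, fun _ => 0, 0, 0, 0, 1, 0, o⟩ :=
      st D (H1.p s j ⟨2, hlt2⟩ rfl (by simp only; omega) (by simp)) (H2.g (by simp [startC]))
    have s2 : CStep D (⟨.p s ⟨2, hlt2⟩, fun _ => 0, fun _ => 0, 0, 0, 0, 1, 0, o⟩ : Cfg U S D.m)
        ⟨.p s ⟨1, hlt1⟩, fun _ => 0, fun _ => 0, 0, 0, 0, 0, 0, o⟩ :=
      st D (H1.p s ⟨2, hlt2⟩ ⟨1, hlt1⟩ rfl rfl (le_refl 1)) (H2.g (by simp))
    have s3 : CStep D (⟨.p s ⟨1, hlt1⟩, fun _ => 0, fun _ => 0, 0, 0, 0, 0, 0, o⟩ : Cfg U S D.m)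
        ⟨.w s ⟨1, hlt1⟩, fun _ => 0, fun k => 0 + D.em s k, 0, 0, 0 + D.ek s, 0, 0, o + D.eo s⟩ :=
      st D (H1.pw s ⟨1, hlt1⟩ ⟨1, hlt1⟩ rfl rfl rfl)
        (H2.idle (fun _ => rfl) rfl (by simp [hot, isW]))
    refine ReflTransGen.head s1 (ReflTransGen.head s2 (ReflTransGen.head s3 ?_))
    have s4 := window D (fun k => 0 + D.em s k) (0 + D.ek s) (o + D.eo s) s jq hq (D.q - 1)
      ⟨1, hlt1⟩ (by simp only; omega)
    simp only [Nat.mul_zero, ite_self, Nat.add_zero, Nat.zero_add] at s4 ⊢
    exact s4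

end Pool.Agent.H700R2.Pcat
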