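import Mathlib

/-!
# Purely catalytic P systems with two catalysts: the system and its abstract semantics

Object level (`Ob`, `R1`, `R2`, `Step`): one region, two catalysts; `R1 a v` means that the first
catalyst has the rule `a → v`, `R2 a v` that the second one has it. The object `o` is the output.

Count level (`Cfg`, `CStep`): computations in which no trap object is produced.
-/

set_option autoImplicit false

namespace Pool.Agent.H700R2.Pcat

/-! ## Two catalysts, one region -/

section gen

variable {O : Type} (R1 R2 : O → Multiset O → Prop)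

/-- what a choice consumes -/
def lhs (x : Option (O × Multiset O)) : Multiset O := match x with
  | none => 0
  | some (a, _) => {a}

/-- what a choice produces -/
def rhs (x : Option (O × Multiset O)) : Multiset O := match x with
  | none => 0
  | some (_, v) => v

/-- a choice of a catalyst with rules `R` -/
def Legal (R : O → Multiset O → Prop) (x : Option (O × Multiset O)) : Prop :=
  ∀ a v, x = some (a, v) → R a v

/-- one step with two catalysts: each uses at most one rule, on different objects, and an idle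
catalyst has no applicable rule on the remaining objects -/
def Step (M M' : Multiset O) : Prop :=
  ∃ (x y : Option (O × Multiset O)) (rest : Multiset O),
    Legal R1 x ∧ Legal R2 y ∧ M = lhs x + lhs y + rest ∧
    (x = none → ∀ a ∈ rest, ∀ v, ¬ R1 a v) ∧ (y = none → ∀ a ∈ rest, ∀ v, ¬ R2 a v) ∧
    M' = rest + rhs x + rhs y

/-- no rule is applicable -/
def Halt (M : Multiset O) : Prop := ∀ a ∈ M, ∀ v, ¬ R1 a v ∧ ¬ R2 a v

open Classical in
/-- the set of results -/
def Res (M0 : Multiset O) (o : O) : Set ℕ :=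
  {n | ∃ H, Relation.ReflTransGen (Step R1 R2) M0 H ∧ Halt R1 R2 H ∧ H.count o = n}

end gen

/-! ## The system -/

/-- objects; `U` unit types, `S` segments -/
inductive Ob (U S : Type) (m : ℕ)
  | a (i : U)
  | b (i : U)
  | f2
  | f1
  | kp
  | g
  | th
  | p (s : S) (j : Fin (m + 1))
  | w (s : S) (j : Fin (m + 1))
  | trap
  | o
  deriving DecidableEq

/-- data of the system -/
structure Sys (U S : Type) where
  /-- bound for the indices of tokens -/
  m : ℕ
  /-- lengths of units -/
  n : U → ℕ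
  /-- length of the special unit `kp` -/
  nk : ℕ
  /-- length of windows -/
  q : ℕ
  /-- number of free steps -/
  F : S → ℕ
  /-- units emitted -/
  em : S → U → ℕ
  /-- special units emitted -/
  ek : S → ℕ
  /-- output emitted -/
  eo : S → ℕ
  /-- successors -/
  succ : S → S → Prop
  /-- final segments -/
  fin : S → Prop
  /-- first segment -/
  s0 : S
  /-- special unit types -/
  x : U
  /-- special unit types -/
  d : U

/-- the hypotheses on the data -/
structure Sys.OK {U S : Type} (D : Sys U S) (Fm : ℕ) : Prop where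
  n3 : ∀ i, 3 ≤ D.n i
  nk3 : 3 ≤ D.nk
  FF : ∀ s, D.F s ≤ Fm
  qF : 2 * Fm + 1 < D.q
  mq : D.q ≤ D.m
  mF : ∀ s, D.F s + 2 ≤ D.m
  xd : D.x ≠ D.d

section sys

variable {U S : Type} [DecidableEq U] [DecidableEq S] [Fintype U] (D : Sys U S)

/-- emission of a segment -/
def emit (s : S) : Multiset (Ob U S D.m) :=
  (∑ i, D.em s i • ({.b i} : Multiset (Ob U S D.m))) + D.ek s • {.kp} + D.eo s • {.o}

/-- rules of the first catalyst -/
inductive R1 : Ob U S D.m → Multiset (Ob U S D.m) → Prop
  | a (i : U) : R1 (.a i) ({.b i} + {.g} + (if i = D.x then 4 • {.b D.d} else 0))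
  | f2 : R1 .f2 {.f1}
  | f1 : R1 .f1 {.g}
  | p (s : S) (j j' : Fin (D.m + 1)) : j.val = j'.val + 1 → 1 ≤ j'.val → R1 (.p s j) {.p s j'}
  | pw (s : S) (j j' : Fin (D.m + 1)) : j.val = 1 → j'.val = 1 →
      R1 (.p s j) ({.w s j'} + emit D s)
  | tg : R1 .g {.trap}
  | tth : R1 .th {.trap}
  | tw (s : S) (j : Fin (D.m + 1)) : R1 (.w s j) {.trap}
  | tt : R1 .trap {.trap}
  | tp (s : S) (j : Fin (D.m + 1)) : R1 (.p s j) {.trap}

/-- rules of the second catalyst -/
inductive R2 : Ob U S D.m → Multiset (Ob U S D.m) → Prop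
  | b (i : U) : R2 (.b i) ({.a i} + {.f2})
  | v (i : U) : R2 (.b i) ((D.n i - 1) • {.th})
  | vk : R2 .kp ((D.nk - 1) • {.th})
  | g : R2 .g 0
  | th : R2 .th 0
  | w (s : S) (j j' : Fin (D.m + 1)) : j.val + 1 = j'.val → j'.val ≤ D.q → R2 (.w s j) {.w s j'}
  | wp (s s' : S) (j j' : Fin (D.m + 1)) : j.val = D.q → D.succ s s' → j'.val = D.F s' + 2 →
      R2 (.w s j) ({.p s' j'} + 2 • {.g})
  | wz (s : S) (j : Fin (D.m + 1)) : j.val = D.q → D.fin s → R2 (.w s j) 0
  | tw (s : S) (j : Fin (D.m + 1)) : R2 (.w s j) {.trap}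

/-- the initial contents (for the index `j` with value `F s0 + 2`) -/
def M0 (j : Fin (D.m + 1)) : Multiset (Ob U S D.m) := {.p D.s0 j} + 2 • {.g}

/-! ## Count level -/

end sys

/-- the token -/
inductive Tok (S : Type) (m : ℕ)
  | p (s : S) (j : Fin (m + 1))
  | w (s : S) (j : Fin (m + 1))
  | z
  deriving DecidableEq

/-- configurations without trap -/
structure Cfg (U S : Type) (m : ℕ) where
  tok : Tok S m
  a : U → ℕ
  b : U → ℕ
  f2 : ℕ
  f1 : ℕ
  kp : ℕ
  g : ℕ
  th : ℕ
  o : ℕ

/-- number of objects of a kind -/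
def Cfg.val {U S : Type} [DecidableEq S] {m : ℕ} (c : Cfg U S m) : Ob U S m → ℕ
  | .a i => c.a i
  | .b i => c.b i
  | .f2 => c.f2
  | .f1 => c.f1
  | .kp => c.kp
  | .g => c.g
  | .th => c.th
  | .p s j => if c.tok = .p s j then 1 else 0
  | .w s j => if c.tok = .w s j then 1 else 0
  | .trap => 0
  | .o => c.o

/-- the multiset `M` is described by `c` -/
def Rep {U S : Type} [DecidableEq U] [DecidableEq S] {m : ℕ} (M : Multiset (Ob U S m))
    (c : Cfg U S m) : Prop := ∀ z, M.count z = c.val z

/-- is the token a `w`? -/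
def isW {S : Type} {m : ℕ} : Tok S m → ℕ
  | .w _ _ => 1
  | _ => 0

/-- no object for the first catalyst, apart from traps for hot objects -/
def NoM1 {U S : Type} {m : ℕ} (c : Cfg U S m) : Prop :=
  (∀ i, c.a i = 0) ∧ c.f2 = 0 ∧ c.f1 = 0 ∧ ∀ s j, c.tok ≠ .p s j

/-- number of hot objects -/
def hot {U S : Type} {m : ℕ} (c : Cfg U S m) : ℕ := c.g + c.th + isW c.tok

section steps

variable {U S : Type} [DecidableEq U] (D : Sys U S)

/-- the action of the first catalyst, not idle and no trap -/
inductive H1 (c : Cfg U S D.m) : Cfg U S D.m → Prop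
  | a (i : U) : 1 ≤ c.a i → H1 c { c with
      a := fun k => c.a k - (if k = i then 1 else 0)
      b := fun k => c.b k + (if k = i then 1 else 0) + (if k = D.d ∧ i = D.x then 4 else 0)
      g := c.g + 1 }
  | f2 : 1 ≤ c.f2 → H1 c { c with f2 := c.f2 - 1, f1 := c.f1 + 1 }
  | f1 : 1 ≤ c.f1 → H1 c { c with f1 := c.f1 - 1, g := c.g + 1 }
  | p (s : S) (j j' : Fin (D.m + 1)) : c.tok = .p s j → j.val = j'.val + 1 → 1 ≤ j'.val →
      H1 c { c with tok := .p s j' }
  | pw (s : S) (j j' : Fin (D.m + 1)) : c.tok = .p s j → j.val = 1 → j'.val = 1 →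
      H1 c { c with
        tok := .w s j'
        b := fun k => c.b k + D.em s k
        kp := c.kp + D.ek s
        o := c.o + D.eo s }

/-- the action of the second catalyst: possible in `c`, changes `c1` to the result. The number is
`1` if a hot object is consumed. -/
inductive H2 (c c1 : Cfg U S D.m) : ℕ → Cfg U S D.m → Prop
  | b (i : U) : 1 ≤ c.b i → H2 c c1 0 { c1 with
      b := fun k => c1.b k - (if k = i then 1 else 0)
      a := fun k => c1.a k + (if k = i then 1 else 0)
      f2 := c1.f2 + 1 }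
  | v (i : U) : 1 ≤ c.b i → H2 c c1 0 { c1 with
      b := fun k => c1.b k - (if k = i then 1 else 0)
      th := c1.th + (D.n i - 1) }
  | vk : 1 ≤ c.kp → H2 c c1 0 { c1 with kp := c1.kp - 1, th := c1.th + (D.nk - 1) }
  | g : 1 ≤ c.g → H2 c c1 1 { c1 with g := c1.g - 1 }
  | th : 1 ≤ c.th → H2 c c1 1 { c1 with th := c1.th - 1 }
  | w (s : S) (j j' : Fin (D.m + 1)) : c.tok = .w s j → j.val + 1 = j'.val → j'.val ≤ D.q →
      H2 c c1 1 { c1 with tok := .w s j' }
  | wp (s s' : S) (j j' : Fin (D.m + 1)) : c.tok = .w s j → j.val = D.q → D.succ s s' →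
      j'.val = D.F s' + 2 → H2 c c1 1 { c1 with tok := .p s' j', g := c1.g + 2 }
  | wz (s : S) (j : Fin (D.m + 1)) : c.tok = .w s j → j.val = D.q → D.fin s →
      H2 c c1 1 { c1 with tok := .z }
  | idle : (∀ i, c.b i = 0) → c.kp = 0 → hot c = 0 → H2 c c1 0 c1

/-- a step without trap -/
def CStep (c c' : Cfg U S D.m) : Prop :=
  ∃ h c1, H2 D c c1 h c' ∧ (H1 D c c1 ∨ (c1 = c ∧ NoM1 c ∧ hot c ≤ h))

/-- halting configurations -/
def CHalt {U S : Type} {m : ℕ} (c : Cfg U S m) : Prop :=
  NoM1 c ∧ hot c = 0 ∧ (∀ i, c.b i = 0) ∧ c.kp = 0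

/-- a configuration at the beginning of a segment (`j` should have value `F s + 2`) -/
def startC (b : U → ℕ) (kp o : ℕ) (s : S) (j : Fin (D.m + 1)) : Cfg U S D.m where
  tok := .p s j
  a := fun _ => 0
  b := b
  f2 := 0
  f1 := 0
  kp := kp
  g := 2
  th := 0
  o := o

/-- a configuration at the end of the window of a segment (`j` should have value `q`) -/
def endC (b : U → ℕ) (kp o : ℕ) (s : S) (j : Fin (D.m + 1)) : Cfg U S D.m where
  tok := .w s j
  a := fun _ => 0
  b := b
  f2 := 0
  f1 := 0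
  kp := kp
  g := 0
  th := 0
  o := o

/-- what a segment can do: `μ` and `mk` are the numbers of units transformed into `th`, `i` is the
number of idle moments of the second catalyst and `w` the noise on `d` -/
def Macro [Fintype U] (s : S) (b : U → ℕ) (kp o : ℕ) (b' : U → ℕ) (kp' o' : ℕ) : Prop :=
  ∃ (μ : U → ℕ) (mk i w : ℕ), i + ∑ k, μ k * D.n k + mk * D.nk = D.F s ∧
    (∀ k, b' k + μ k = b k + D.em s k + (if k = D.d then w else 0)) ∧
    kp' + mk = kp + D.ek s ∧ o' = o + D.eo s ∧
    (0 < i → 4 * b D.x ≤ w + 4 * μ D.x) ∧ (0 < i → kp = mk) ∧ (∀ k, D.em s k ≤ b' k)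

end steps

end Pool.Agent.H700R2.Pcat
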