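import Pool.Agent.H700R2.PcatSeg

/-! The runs which simulate a counter system. -/

set_option autoImplicit false
set_option linter.unusedSectionVars false

namespace Pool.Agent.H700R2.Pcat

open Relation Pool.Agent.Helper273.Budget

section gen

variable {U S : Type} [DecidableEq U] [Fintype U] (D : Sys U S) {Fm : ℕ}

/-- first index of a segment -/
def jst (hD : D.OK Fm) (s : S) : Fin (D.m + 1) := ⟨D.F s + 2, by have := hD.mF s; omega⟩

/-- last index of windows -/
def jqq (hD : D.OK Fm) : Fin (D.m + 1) := ⟨D.q, by have := hD.mq; omega⟩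

theorem next_step (hD : D.OK Fm) (b : U → ℕ) (kp o : ℕ) {s s' : S} (hs : D.succ s s') :
    CStep D (endC D b kp o s (jqq D hD)) (startC D b kp o s' (jst D hD s')) :=
  ⟨1, endC D b kp o s (jqq D hD), H2.wp s s' (jqq D hD) (jst D hD s') rfl rfl hs rfl,
    Or.inr ⟨rfl, ⟨fun _ => rfl, rfl, rfl, fun _ _ h => by cases h⟩, by simp [hot, endC, isW]⟩⟩

theorem final_step (hD : D.OK Fm) (b : U → ℕ) (kp o : ℕ) {s : S} (hs : D.fin s) :
    CStep D (endC D b kp o s (jqq D hD)) ⟨.z, fun _ => 0, b, 0, 0, kp, 0, 0, o⟩ :=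
  ⟨1, endC D b kp o s (jqq D hD), H2.wz s (jqq D hD) rfl rfl hs,
    Or.inr ⟨rfl, ⟨fun _ => rfl, rfl, rfl, fun _ _ h => by cases h⟩, by simp [hot, endC, isW]⟩⟩

theorem run_V (hD : D.OK Fm)
    (s s' : S) (b : U → ℕ) (kp o : ℕ) (E : Finset U) (e : ℕ) (he : e ≤ kp) (hE : ∀ i ∈ E, 1 ≤ b i)
    (hF : D.F s = ∑ i ∈ E, D.n i + e * D.nk) (hs : D.succ s s') :
    ReflTransGen (CStep D) (startC D b kp o s (jst D hD s))
      (startC D (fun k => b k - (if k ∈ E then 1 else 0) + D.em s k) (kp - e + D.ek s)
        (o + D.eo s) s' (jst D hD s')) :=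
  (comp_V D hD s b kp o E e he hE hF rfl rfl).tail (next_step D hD _ _ _ hs)

theorem run_gen (hD : D.OK Fm) (s s' : S) (b : U → ℕ) (o : ℕ) (hF : D.F s = 1)
    (hs : D.succ s s') :
    ReflTransGen (CStep D) (startC D b 0 o s (jst D hD s))
      (startC D (fun k => b k + D.em s k + (if k = D.d then 4 * b D.x else 0)) (D.ek s)
        (o + D.eo s) s' (jst D hD s')) :=
  (comp_gen D hD s b o hF rfl rfl).tail (next_step D hD _ _ _ hs)

end gen

section

variable {T K : Type} [Fintype K] [DecidableEq K] (A : CS T K) (d : K) (em : K → ℕ)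
  (n : Option K → ℕ)

/-- contents during the first phase -/
def bv (i B : ℕ) : Option K → ℕ
  | none => i
  | some k => v0 d em B 0 k

theorem gen_run (hn : ∀ i, 3 ≤ n i) (s' : Seg T) (hs : s' = .gen ∨ s' = .mid) (i : ℕ) :
    ReflTransGen (CStep (sys A d em n))
      (startC (sys A d em n) (bv d em i i) 0 0 .gen (jst _ (sys_ok A d em n hn) .gen))
      (startC (sys A d em n) (bv d em (i + 1) (i + 1)) 0 0 s'
        (jst _ (sys_ok A d em n hn) s')) := by
  have h := run_gen (sys A d em n) (sys_ok A d em n hn) .gen s' (bv d em i i) 0 rfl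
    (by rcases hs with rfl | rfl
        · exact Succ.gg
        · exact Succ.gm)
  have e : (fun k => bv d em i i k + (sys A d em n).em Seg.gen k +
      if k = (sys A d em n).d then 4 * bv d em i i (sys A d em n).x else 0) =
      bv d em (i + 1) (i + 1) := by
    funext k
    symm
    cases k with
    | none =>
      show i + 1 = i + 1 + (if (none : Option K) = some d then 4 * i else 0)
      simp
    | some k =>
      show v0 d em (i + 1) 0 k = v0 d em i 0 k + em k + (if some k = some d then 4 * i else 0)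
      unfold v0
      by_cases hkd : k = d
      · subst hkd
        simp only [if_true]
        rcases Nat.eq_zero_or_pos i with h0 | h0
        · rw [h0]; simp
        · obtain ⟨B, hB⟩ : ∃ B, i = B + 1 := ⟨i - 1, by omega⟩
          rw [hB]
          simp only [Nat.add_sub_cancel]
          ring
      · have hkd' : ¬ (some k = some d) := fun e => hkd (Option.some.inj e)
        simp only [hkd, hkd', if_false]
        ring
  rw [e] at h
  exact h

theorem gens_run (hn : ∀ i, 3 ≤ n i) (i : ℕ) :
    ReflTransGen (CStep (sys A d em n))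
      (startC (sys A d em n) (bv d em 0 0) 0 0 .gen (jst _ (sys_ok A d em n hn) .gen))
      (startC (sys A d em n) (bv d em i i) 0 0 .gen
        (jst _ (sys_ok A d em n hn) .gen)) := by
  induction i with
  | zero => exact ReflTransGen.refl
  | succ i ih => exact ih.trans (gen_run A d em n hn .gen (Or.inl rfl) i)

theorem mid_run (hn : ∀ i, 3 ≤ n i) (i B : ℕ) :
    ReflTransGen (CStep (sys A d em n))
      (startC (sys A d em n) (bv d em i B) 0 0 .mid (jst _ (sys_ok A d em n hn) .mid))
      (startC (sys A d em n) (bv d em i B) 1 0 .xx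
        (jst _ (sys_ok A d em n hn) .xx)) := by
  have h := run_V (sys A d em n) (sys_ok A d em n hn) .mid .xx (bv d em i B) 0 0 ∅ 0 le_rfl
    (by simp) (by show 0 = _; simp) Succ.mx
  have e : (fun k => (bv d em i B k - if k ∈ (∅ : Finset (Option K)) then 1 else 0) +
      (sys A d em n).em Seg.mid k) = bv d em i B := by
    funext k
    symm
    cases k with
    | none => show i = i - (if (none : Option K) ∈ (∅ : Finset (Option K)) then 1 else 0) + 0; simp
    | some k =>
      show v0 d em B 0 k = v0 d em B 0 k -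
        (if (some k) ∈ (∅ : Finset (Option K)) then 1 else 0) + 0
      simp
  rw [e] at h
  exact h

theorem x_run (hn : ∀ i, 3 ≤ n i) (i B : ℕ) (s' : Seg T) (hs : s' = .xx ∨
    ∃ t, s' = .tr t ∧ A.start t) :
    ReflTransGen (CStep (sys A d em n))
      (startC (sys A d em n) (bv d em (i + 1) B) 1 0 .xx (jst _ (sys_ok A d em n hn) .xx))
      (startC (sys A d em n) (bv d em i B) 1 0 s'
        (jst _ (sys_ok A d em n hn) s')) := by
  have h := run_V (sys A d em n) (sys_ok A d em n hn) .xx s' (bv d em (i + 1) B) 1 0 {none} 0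
    (by omega) (by intro k hk; rw [Finset.mem_singleton] at hk; subst hk; show 1 ≤ i + 1; omega)
    (by show n none = ∑ i ∈ {none}, n i + 0 * _; simp)
    (by rcases hs with rfl | ⟨t, rfl, ht⟩
        · exact Succ.xx
        · exact Succ.xt t ht)
  have e : (fun k => (bv d em (i + 1) B k - if k ∈ ({none} : Finset (Option K)) then 1 else 0) +
      (sys A d em n).em Seg.xx k) = bv d em i B := by
    funext k
    symm
    cases k with
    | none =>
      show i = i + 1 - (if (none : Option K) ∈ ({none} : Finset (Option K)) then 1 else 0) + 0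
      simp
    | some k =>
      show v0 d em B 0 k = v0 d em B 0 k -
        (if (some k) ∈ ({none} : Finset (Option K)) then 1 else 0) + 0
      simp
  rw [e] at h
  exact h

theorem xs_run (hn : ∀ i, 3 ≤ n i) (i B : ℕ) :
    ReflTransGen (CStep (sys A d em n))
      (startC (sys A d em n) (bv d em (i + 1) B) 1 0 .xx (jst _ (sys_ok A d em n hn) .xx))
      (startC (sys A d em n) (bv d em 1 B) 1 0 .xx
        (jst _ (sys_ok A d em n hn) .xx)) := by
  induction i with
  | zero => exact ReflTransGen.refl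
  | succ i ih => exact (x_run A d em n hn (i + 1) B .xx (Or.inl rfl)).trans ih

/-- contents during the second phase -/
def bw (v : K → ℕ) : Option K → ℕ
  | none => 0
  | some k => v k

theorem tr_F (t : T) : (sys A d em n).F (.tr t) =
    ∑ i ∈ (A.dc t).map Function.Embedding.some, n i + 0 * (sys A d em n).nk := by
  rw [zero_mul, add_zero, ← sum_some]
  rfl

theorem tr_b (t : T) (v : K → ℕ) : (fun k => bw v k -
    (if k ∈ (A.dc t).map Function.Embedding.some then 1 else 0) + (sys A d em n).em (.tr t) k) =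
    bw (upd A d t v 0) := by
  funext k
  cases k with
  | none => simp [bw, sys]
  | some k =>
    show v k - (if some k ∈ (A.dc t).map Function.Embedding.some then 1 else 0) +
      (if k ∈ A.ic t then 1 else 0) = upd A d t v 0 k
    unfold upd
    simp

theorem tr_run (hn : ∀ i, 3 ≤ n i) (v : K → ℕ) (t : T) (o : ℕ) (s' : Seg T)
    (hv : ∀ k ∈ A.dc t, 1 ≤ v k)
    (hs : (∃ t', s' = .tr t' ∧ A.nx t t') ∨ (s' = .kap ∧ A.fin t)) :
    ReflTransGen (CStep (sys A d em n))
      (startC (sys A d em n) (bw v) 1 o (.tr t) (jst _ (sys_ok A d em n hn) (.tr t)))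
      (startC (sys A d em n) (bw (upd A d t v 0)) 1 (o + A.out t) s'
        (jst _ (sys_ok A d em n hn) s')) := by
  have h := run_V (sys A d em n) (sys_ok A d em n hn) (.tr t) s' (bw v) 1 o
    ((A.dc t).map Function.Embedding.some) 0
    (by omega) (by
      intro k hk
      rw [Finset.mem_map] at hk
      obtain ⟨k', hk', rfl⟩ := hk
      exact hv k' hk')
    (tr_F A d em n t)
    (by rcases hs with ⟨t', rfl, ht⟩ | ⟨rfl, ht⟩
        · exact Succ.tt t t' ht
        · exact Succ.tk t ht)
  rw [tr_b A d em n t v] at h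
  exact h

theorem brun_run (hn : ∀ i, 3 ≤ n i) {t : T} {v : K → ℕ} {o m : ℕ}
    (h : BRun A d (fun w => w = 0) t v o m) :
    ReflTransGen (CStep (sys A d em n))
      (startC (sys A d em n) (bw v) 1 o (.tr t) (jst _ (sys_ok A d em n hn) (.tr t)))
      (startC (sys A d em n) (fun _ => 0) 1 m .kap (jst _ (sys_ok A d em n hn) .kap)) := by
  induction h with
  | @last t v o w h1 h2 h3 h4 =>
    subst h3
    have h := tr_run A d em n hn v t o .kap h1 (Or.inr ⟨rfl, h2⟩)
    have e : bw (upd A d t v 0) = fun _ => 0 := by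
      funext k
      cases k with
      | none => rfl
      | some k => exact h4 k
    rw [e] at h
    exact h
  | step h1 h2 h3 h4 ih =>
    subst h3
    exact (tr_run A d em n hn _ _ _ _ h1 (Or.inl ⟨_, rfl, h2⟩)).trans ih

theorem kap_run (hn : ∀ i, 3 ≤ n i) (m : ℕ) :
    ReflTransGen (CStep (sys A d em n))
      (startC (sys A d em n) (fun _ => 0) 1 m .kap (jst _ (sys_ok A d em n hn) .kap))
      ⟨.z, fun _ => 0, fun _ => 0, 0, 0, 0, 0, 0, m⟩ := by
  have h := comp_V (sys A d em n) (sys_ok A d em n hn) .kap (fun _ => 0) 1 m ∅ 1 le_rfl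
    (by simp) (by show lk n = _ + 1 * lk n; simp) (j := jst _ (sys_ok A d em n hn) .kap)
    (jq := jqq _ (sys_ok A d em n hn)) rfl rfl
  have h2 := h.tail (final_step (sys A d em n) (sys_ok A d em n hn) _ _ _ rfl)
  have e : (fun k => (0 - if k ∈ (∅ : Finset (Option K)) then 1 else 0) +
      (sys A d em n).em Seg.kap k) = fun _ => 0 := by
    funext k
    cases k with
    | none => simp [sys]
    | some k => simp [sys]
  rw [e] at h2
  exact h2

end

/-- the system is correct -/
theorem cs_sim {T K : Type} [Fintype K] [DecidableEq K] (A : CS T K) (d : K) (em : K → ℕ)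
    (n : Option K → ℕ) (hn : ∀ i, 3 ≤ n i)
    (hc : ∀ (E : Finset (Option K)) (μ : Option K → ℕ), ∑ i, μ i * n i = ∑ i ∈ E, n i →
      ∀ i, μ i = if i ∈ E then 1 else 0) (S : Set ℕ)
    (hS1 : ∀ m, m ∈ S → ∃ B t, 1 ≤ B ∧ A.start t ∧
        BRun A d (fun w => w = 0) t (v0 d em B 0) 0 m)
    (hS2 : ∀ m B w t, 1 ≤ B → A.start t → BRun A d (fun _ => True) t (v0 d em B w) 0 m → m ∈ S)
    (j : Fin ((sys A d em n).m + 1)) (hj : j.val = 3) :
    {m | ∃ c, ReflTransGen (CStep (sys A d em n))
      (startC (sys A d em n) (fun _ => 0) 0 0 (sys A d em n).s0 j) c ∧ CHalt c ∧ c.o = m} = S := by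
  have hok := sys_ok A d em n hn
  ext m
  constructor
  · rintro ⟨c, h1, h2, rfl⟩
    refine sound (sys A d em n) hok (Know A d em S) (fun m => m ∈ S) ?_ ?_ hj h1 h2
    · refine ⟨rfl, rfl, 0, fun k => ?_⟩
      show 0 = v0 d em 0 0 k
      simp [v0]
    · intro s b kp o b' kp' o' hk hm
      exact know_step A d em n hn hc S hS2 s b kp o b' kp' o' hk hm
  · intro hm
    obtain ⟨B, t, hB, ht, hr⟩ := hS1 m hm
    obtain ⟨B, rfl⟩ : ∃ B', B = B' + 1 := ⟨B - 1, by omega⟩
    refine ⟨⟨.z, fun _ => 0, fun _ => 0, 0, 0, 0, 0, 0, m⟩, ?_, ?_, rfl⟩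
    · have e0 : (fun _ => 0 : Option K → ℕ) = bv d em 0 0 := by
        funext k
        cases k with
        | none => rfl
        | some k => show 0 = v0 d em 0 0 k; simp [v0]
      have e1 : j = jst _ (sys_ok A d em n hn) .gen := Fin.ext hj
      have e2 : bv d em 0 (B + 1) = bw (v0 d em (B + 1) 0) := by
        funext k
        cases k <;> rfl
      have h1 := gens_run A d em n hn B
      have h2 := gen_run A d em n hn .mid (Or.inr rfl) B
      have h3 := mid_run A d em n hn (B + 1) (B + 1)
      have h4 := xs_run A d em n hn B (B + 1)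
      have h5 := x_run A d em n hn 0 (B + 1) (.tr t) (Or.inr ⟨t, rfl, ht⟩)
      have h6 := brun_run A d em n hn hr
      have h7 := kap_run A d em n hn m
      rw [e2] at h5
      have := h1.trans (h2.trans (h3.trans (h4.trans (h5.trans (h6.trans h7)))))
      rw [← e0, ← e1] at this
      exact this
    · refine ⟨⟨fun _ => rfl, rfl, rfl, fun _ _ h => by cases h⟩, rfl, fun _ => rfl, rfl⟩

end Pool.Agent.H700R2.Pcat
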