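import Pool.Agent.H700R2.PcatSound
import Pool.Agent.H700R2.PcatComp
import Pool.Agent.Helper273.Budget

/-! The segments which simulate a counter system. -/

set_option autoImplicit false
set_option linter.unusedSectionVars false

namespace Pool.Agent.H700R2.Pcat

open Relation Pool.Agent.Helper273.Budget

/-- segments -/
inductive Seg (T : Type)
  | gen
  | mid
  | xx
  | tr (t : T)
  | kap
  deriving DecidableEq

/-- successors of a segment -/
inductive Succ {T K : Type} (A : CS T K) : Seg T → Seg T → Prop
  | gg : Succ A .gen .gen
  | gm : Succ A .gen .mid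
  | mx : Succ A .mid .xx
  | xx : Succ A .xx .xx
  | xt (t : T) : A.start t → Succ A .xx (.tr t)
  | tt (t t' : T) : A.nx t t' → Succ A (.tr t) (.tr t')
  | tk (t : T) : A.fin t → Succ A (.tr t) .kap

section

variable {T K : Type} [Fintype K] [DecidableEq K] (A : CS T K) (d : K) (em : K → ℕ)
  (n : Option K → ℕ)

/-- length of the special unit -/
def lk : ℕ := ∑ i, n i + 3

/-- the system -/
def sys : Sys (Option K) (Seg T) where
  m := 2 * lk n + 2
  n := n
  nk := lk n
  q := 2 * lk n + 2
  F s := match s with
    | .gen => 1
    | .mid => 0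
    | .xx => n none
    | .tr t => ∑ k ∈ A.dc t, n (some k)
    | .kap => lk n
  em s k := match s, k with
    | .gen, none => 1
    | .gen, some k => em k
    | .tr t, some k => if k ∈ A.ic t then 1 else 0
    | _, _ => 0
  ek s := match s with
    | .mid => 1
    | _ => 0
  eo s := match s with
    | .tr t => A.out t
    | _ => 0
  succ := Succ A
  fin s := s = .kap
  s0 := .gen
  x := none
  d := some d

theorem sum_some (E : Finset K) : ∑ k ∈ E, n (some k) = ∑ i ∈ E.map Function.Embedding.some, n i := by
  rw [Finset.sum_map]; rfl

theorem sum_le_lk (E : Finset (Option K)) : ∑ i ∈ E, n i + 3 ≤ lk n := by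
  unfold lk
  have := Finset.sum_le_sum_of_subset (f := n) (Finset.subset_univ E)
  omega

theorem sys_ok (hn : ∀ i, 3 ≤ n i) : (sys A d em n).OK (lk n) where
  n3 := hn
  nk3 := by show 3 ≤ lk n; unfold lk; omega
  FF s := by
    cases s with
    | gen => show 1 ≤ lk n; unfold lk; omega
    | mid => exact Nat.zero_le _
    | xx =>
      show n none ≤ lk n
      have := sum_le_lk n {none}
      rw [Finset.sum_singleton] at this
      omega
    | tr t =>
      show ∑ k ∈ A.dc t, n (some k) ≤ lk n
      rw [sum_some]
      have := sum_le_lk n ((A.dc t).map Function.Embedding.some)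
      omega
    | kap => exact le_refl (lk n)
  qF := by show 2 * lk n + 1 < 2 * lk n + 2; omega
  mq := le_refl _
  mF s := by
    cases s with
    | gen => show 1 + 2 ≤ 2 * lk n + 2; unfold lk; omega
    | mid => show 0 + 2 ≤ 2 * lk n + 2; omega
    | xx =>
      show n none + 2 ≤ 2 * lk n + 2
      have := sum_le_lk n {none}
      rw [Finset.sum_singleton] at this
      omega
    | tr t =>
      show ∑ k ∈ A.dc t, n (some k) + 2 ≤ 2 * lk n + 2
      rw [sum_some]
      have := sum_le_lk n ((A.dc t).map Function.Embedding.some)
      omega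
    | kap => show lk n + 2 ≤ 2 * lk n + 2; omega
  xd := by intro h; cases h

/-- what is known at the beginning of a segment -/
def Know (S : Set ℕ) (s : Seg T) (b : Option K → ℕ) (kp o : ℕ) : Prop :=
  match s with
  | .gen => kp = 0 ∧ o = 0 ∧ ∃ w, ∀ k, b (some k) = v0 d em (b none) w k
  | .mid => kp = 0 ∧ o = 0 ∧ ∃ B w, 1 ≤ B ∧ ∀ k, b (some k) = v0 d em B w k
  | .xx => kp = 1 ∧ o = 0 ∧ ∃ B w, 1 ≤ B ∧ ∀ k, b (some k) = v0 d em B w k
  | .tr t => kp = 1 ∧ ∀ w m, BRun A d (fun _ => True) t
      (fun k => b (some k) + (if k = d then w else 0)) o m → m ∈ S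
  | .kap => kp = 1 ∧ ((∀ k, b (some k) = 0) → o ∈ S)

/-- if the sum is small, nothing is consumed -/
theorem mu_zero {μ : Option K → ℕ} (hn : ∀ i, 3 ≤ n i) (h : ∑ k, μ k * n k ≤ 2) (k : Option K) :
    μ k = 0 := by
  have h1 : μ k * n k ≤ ∑ k, μ k * n k :=
    Finset.single_le_sum (f := fun k => μ k * n k) (fun _ _ => Nat.zero_le _) (Finset.mem_univ k)
  by_contra h2
  have h3 : 1 * 3 ≤ μ k * n k := Nat.mul_le_mul (by omega) (hn k)
  omega

theorem know_step (hn : ∀ i, 3 ≤ n i)
    (hc : ∀ (E : Finset (Option K)) (μ : Option K → ℕ), ∑ i, μ i * n i = ∑ i ∈ E, n i →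
      ∀ i, μ i = if i ∈ E then 1 else 0) (S : Set ℕ)
    (hS : ∀ m B w t, 1 ≤ B → A.start t → BRun A d (fun _ => True) t (v0 d em B w) 0 m → m ∈ S)
    (s : Seg T) (b : Option K → ℕ) (kp o : ℕ) (b' : Option K → ℕ) (kp' o' : ℕ)
    (hk : Know A d em S s b kp o) (hm : Macro (sys A d em n) s b kp o b' kp' o') :
    (∀ s', (sys A d em n).succ s s' → Know A d em S s' b' kp' o') ∧
      ((sys A d em n).fin s → (∀ k, b' k = 0) → kp' = 0 → o' ∈ S) := by
  obtain ⟨μ, mk, i, w, h1, h2, h3, h4, h5, h6, h7⟩ := hm
  have hlk3 : 3 ≤ lk n := by unfold lk; omega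
  change i + ∑ k, μ k * n k + mk * lk n = (sys A d em n).F s at h1
  change ∀ k, b' k + μ k = b k + (sys A d em n).em s k + (if k = some d then w else 0) at h2
  change 0 < i → 4 * b none ≤ w + 4 * μ none at h5
  have hmk : ∀ F, F < lk n → i + ∑ k, μ k * n k + mk * lk n = F → mk = 0 := by
    intro F hF h
    by_contra h7
    have : 1 * lk n ≤ mk * lk n := Nat.mul_le_mul_right _ (by omega)
    omega
  cases s with
  | gen =>
    change i + ∑ k, μ k * n k + mk * lk n = 1 at h1
    obtain ⟨k1, k2, w0, k3⟩ := hk
    have m0 := hmk 1 (by omega) h1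
    subst m0
    have mu := mu_zero n (μ := μ) hn (by omega)
    have hs : ∑ k, μ k * n k = 0 := Finset.sum_eq_zero fun k _ => by rw [mu k, zero_mul]
    have hi : i = 1 := by omega
    subst hi
    have h5' := h5 one_pos
    rw [mu none] at h5'
    have hkp : kp' = 0 := by
      change kp' + 0 = kp + 0 at h3
      omega
    have ho : o' = 0 := by
      change o' = o + 0 at h4
      omega
    have hb : b' none = b none + 1 := by
      have := h2 none
      rw [mu none] at this
      change b' none + 0 = b none + 1 + 0 at this
      omega
    have hb2 : ∃ w, ∀ k, b' (some k) = v0 d em (b none + 1) w k := by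
      refine ⟨w0 + w - 4 * b none, fun k => ?_⟩
      have := h2 (some k)
      rw [mu (some k), k3 k] at this
      change b' (some k) + 0 = v0 d em (b none) w0 k + em k + (if some k = some d then w else 0)
        at this
      unfold v0 at this ⊢
      by_cases hkd : k = d
      · subst hkd
        simp only [if_true] at this ⊢
        rcases Nat.eq_zero_or_pos (b none) with h0 | h0
        · rw [h0] at this ⊢
          simp only [Nat.zero_add, Nat.mul_zero, Nat.zero_mul, Nat.sub_zero, Nat.mul_one,
            Nat.sub_self] at this ⊢
          omega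
        · obtain ⟨B, hB⟩ : ∃ B, b none = B + 1 := ⟨b none - 1, by omega⟩
          rw [hB] at this h5' ⊢
          simp only [Nat.add_sub_cancel] at this ⊢
          have e1 : 2 * (B + 1 + 1) * (B + 1) = 2 * (B + 1) * B + 4 * (B + 1) := by ring
          rw [e1, Nat.mul_add (em k) (B + 1) 1]
          omega
      · have hkd' : ¬ (some k = some d) := fun e => hkd (Option.some.inj e)
        simp only [hkd, hkd', if_false] at this ⊢
        rw [Nat.mul_add (em k) (b none) 1]
        omega
    refine ⟨?_, ?_⟩
    · intro s' hs'
      cases hs' with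
      | gg => exact ⟨hkp, ho, by rw [hb]; exact hb2⟩
      | gm => obtain ⟨w1, hw1⟩ := hb2; exact ⟨hkp, ho, b none + 1, w1, by omega, hw1⟩
    · intro hf; cases hf
  | mid =>
    change i + ∑ k, μ k * n k + mk * lk n = 0 at h1
    obtain ⟨k1, k2, B, w0, hB, k3⟩ := hk
    have mu := mu_zero n (μ := μ) hn (by omega)
    have m0 := hmk 0 (by omega) h1
    subst m0
    have hkp : kp' = 1 := by
      change kp' + 0 = kp + 1 at h3
      omega
    have ho : o' = 0 := by
      change o' = o + 0 at h4
      omega
    refine ⟨?_, ?_⟩
    · intro s' hs'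
      cases hs' with
      | mx =>
        refine ⟨hkp, ho, B, w0 + w, hB, fun k => ?_⟩
        have := h2 (some k)
        rw [mu (some k), k3 k] at this
        change b' (some k) + 0 = v0 d em B w0 k + 0 + (if some k = some d then w else 0) at this
        unfold v0 at this ⊢
        by_cases hkd : k = d
        · subst hkd
          simp only [if_true] at this ⊢
          omega
        · have hkd' : ¬ (some k = some d) := fun e => hkd (Option.some.inj e)
          simp only [hkd, hkd', if_false] at this ⊢
          omega
    · intro hf; cases hf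
  | xx =>
    change i + ∑ k, μ k * n k + mk * lk n = n none at h1
    obtain ⟨k1, k2, B, w0, hB, k3⟩ := hk
    have hE := sum_le_lk n {none}
    rw [Finset.sum_singleton] at hE
    have m0 := hmk (n none) (by omega) h1
    subst m0
    have hi : i = 0 := by
      by_contra h
      have := h6 (by omega)
      omega
    subst hi
    have mu := hc {none} μ (by rw [Finset.sum_singleton]; omega)
    have hkp : kp' = 1 := by
      change kp' + 0 = kp + 0 at h3
      omega
    have ho : o' = 0 := by
      change o' = o + 0 at h4
      omega
    have hb : ∀ k, b' (some k) = v0 d em B (w0 + w) k := by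
      intro k
      have := h2 (some k)
      rw [mu (some k), k3 k, if_neg (by simp)] at this
      change b' (some k) + 0 = v0 d em B w0 k + 0 + (if some k = some d then w else 0) at this
      unfold v0 at this ⊢
      by_cases hkd : k = d
      · subst hkd
        simp only [if_true] at this ⊢
        omega
      · have hkd' : ¬ (some k = some d) := fun e => hkd (Option.some.inj e)
        simp only [hkd, hkd', if_false] at this ⊢
        omega
    refine ⟨?_, ?_⟩
    · intro s' hs'
      cases hs' with
      | xx => exact ⟨hkp, ho, B, w0 + w, hB, hb⟩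
      | xt t ht =>
        refine ⟨hkp, fun w' m hr => hS m B (w0 + w + w') t hB ht ?_⟩
        rw [ho] at hr
        convert hr using 1
        funext k
        rw [hb k]
        unfold v0
        split_ifs <;> omega
    · intro hf; cases hf
  | tr t =>
    change i + ∑ k, μ k * n k + mk * lk n = ∑ k ∈ A.dc t, n (some k) at h1
    obtain ⟨k1, k3⟩ := hk
    rw [sum_some] at h1
    have hE := sum_le_lk n ((A.dc t).map Function.Embedding.some)
    have m0 := hmk _ (by omega) h1
    subst m0
    have hi : i = 0 := by
      by_contra h
      have := h6 (by omega)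
      omega
    subst hi
    have mu := hc ((A.dc t).map Function.Embedding.some) μ (by omega)
    have hkp : kp' = 1 := by
      change kp' + 0 = kp + 0 at h3
      omega
    have ho : o' = o + A.out t := h4
    have mu' : ∀ k, μ (some k) = if k ∈ A.dc t then 1 else 0 := by
      intro k
      rw [mu (some k)]
      have : (some k ∈ (A.dc t).map Function.Embedding.some) ↔ k ∈ A.dc t := by
        simp
      by_cases hk : k ∈ A.dc t
      · rw [if_pos (this.2 hk), if_pos hk]
      · rw [if_neg (fun h => hk (this.1 h)), if_neg hk]
    have hb : ∀ k, b' (some k) + (if k ∈ A.dc t then 1 else 0) = b (some k) +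
        (if k ∈ A.ic t then 1 else 0) + (if k = d then w else 0) := by
      intro k
      have := h2 (some k)
      rw [mu' k] at this
      change b' (some k) + _ = b (some k) + (if k ∈ A.ic t then 1 else 0) +
        (if some k = some d then w else 0) at this
      rw [this]
      by_cases hkd : k = d
      · subst hkd; simp
      · simp [hkd]
    have hb1 : ∀ k ∈ A.dc t, 1 ≤ b (some k) + (if k = d then w else 0) := by
      intro k hk
      have e1 := hb k
      have e2 := h7 (some k)
      change (if k ∈ A.ic t then 1 else 0) ≤ b' (some k) at e2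
      rw [if_pos hk] at e1
      omega
    have hu : ∀ w', upd A d t (fun k => b (some k) + (if k = d then w else 0)) w' =
        fun k => b' (some k) + (if k = d then w' else 0) := by
      intro w'
      funext k
      change (b (some k) + (if k = d then w else 0)) - (if k ∈ A.dc t then 1 else 0) +
        (if k ∈ A.ic t then 1 else 0) + (if k = d then w' else 0) =
        b' (some k) + (if k = d then w' else 0)
      have e1 := hb k
      have e3 : (if k ∈ A.dc t then 1 else 0) ≤ b (some k) + (if k = d then w else 0) := by
        by_cases hk : k ∈ A.dc t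
        · rw [if_pos hk]; exact hb1 k hk
        · rw [if_neg hk]; exact Nat.zero_le _
      omega
    refine ⟨?_, ?_⟩
    · intro s' hs'
      cases hs' with
      | tt _ t' ht =>
        refine ⟨hkp, fun w' m hr => ?_⟩
        apply k3 w m
        refine BRun.step (w := w') hb1 ht trivial ?_
        rw [hu w', ← ho]
        exact hr
      | tk _ ht =>
        refine ⟨hkp, fun h0 => ?_⟩
        have := k3 w (o + A.out t) (BRun.last (w := 0) hb1 ht trivial (by
          intro k
          rw [hu 0]
          simp [h0 k]))
        rw [ho]
        exact this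
    · intro hf; cases hf
  | kap =>
    change i + ∑ k, μ k * n k + mk * lk n = lk n at h1
    obtain ⟨k1, k3⟩ := hk
    refine ⟨?_, ?_⟩
    · intro s' hs'; cases hs'
    · intro _ hb' hkp'
      have hmk1 : mk = 1 := by
        change kp' + mk = kp + 0 at h3
        omega
      subst hmk1
      have mu := mu_zero n (μ := μ) hn (by omega)
      have ho : o' = o := h4
      rw [ho]
      apply k3
      intro k
      have := h2 (some k)
      rw [hb' (some k), mu (some k)] at this
      omega

end

end Pool.Agent.H700R2.Pcat
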