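import Pool.Agent.H700R2.PcatDefs

/-! Soundness: a forward invariant of halting computations. -/

set_option autoImplicit false
set_option linter.unusedSectionVars false

namespace Pool.Agent.H700R2.Pcat

open Relation

variable {U S : Type} [DecidableEq U] (D : Sys U S)

/-- value of the token -/
def tv {S : Type} {m : ℕ} : Tok S m → ℤ
  | .p _ j => min (j.val : ℤ) 2
  | _ => 0

/-- the potential -/
def pot {m : ℕ} (c : Cfg U S m) : ℤ := (c.f2 : ℤ) - c.g + tv c.tok

/-- work for the first catalyst -/
def Busy {m : ℕ} (c : Cfg U S m) : Prop := (∃ i, 1 ≤ c.a i) ∨ 1 ≤ c.f2 ∨ 1 ≤ c.f1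

/-- some units are present -/
def Units {m : ℕ} (c : Cfg U S m) : Prop := (∃ i, 1 ≤ c.a i) ∨ (∃ i, 1 ≤ c.b i) ∨ 1 ≤ c.kp

/-- configurations from which no halting configuration can be reached -/
def Doom (Fm : ℕ) (c : Cfg U S D.m) : Prop :=
  (∃ s j, c.tok = .p s j ∧ 1 ≤ j.val ∧ pot c + ((j.val - 2 : ℕ) : ℤ) < 0) ∨
  (∃ s j, c.tok = .w s j ∧ 1 ≤ j.val ∧ j.val ≤ D.q ∧ pot c + j.val ≤ Fm + 1 ∧
    (Busy c ∨ 1 ≤ c.g + c.th)) ∨
  (c.tok = .z ∧ ((¬ Busy c ∧ (2 ≤ c.g + c.th ∨ (c.th = 0 ∧ Units c))) ∨
    (Busy c ∧ pot c - c.th ≤ 1 ∧ (Units c ∨ pot c - c.th ≤ -2))))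

theorem Doom.not_halt {Fm : ℕ} {c : Cfg U S D.m} (h : Doom D Fm c) (hh : CHalt c) : False := by
  obtain ⟨⟨h1, h2, h3, h4⟩, h5, h6, h7⟩ := hh
  rcases h with ⟨s, j, h, _⟩ | ⟨s, j, h, _⟩ | ⟨h, h'⟩
  · exact h4 s j h
  · unfold hot at h5; rw [h] at h5; simp [isW] at h5
  · unfold hot at h5
    have nb : ¬ Busy c := by
      rintro (⟨i, hi⟩ | hi | hi)
      · rw [h1 i] at hi; omega
      · omega
      · omega
    rcases h' with ⟨_, h' | ⟨_, h'⟩⟩ | ⟨h', _⟩
    · omega
    · rcases h' with ⟨i, hi⟩ | ⟨i, hi⟩ | hi
      · rw [h1 i] at hi; omega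
      · rw [h6 i] at hi; omega
      · omega
    · exact nb h'

theorem Doom.step_p {Fm : ℕ} (hD : D.OK Fm) {c c' : Cfg U S D.m} {s : S} {j : Fin (D.m + 1)}
    (ht : c.tok = .p s j) (hj : 1 ≤ j.val) (hp : pot c + ((j.val - 2 : ℕ) : ℤ) < 0)
    (hs : CStep D c c') : Doom D Fm c' := by
  obtain ⟨tok, a, b, f2, f1, kp, g, th, o⟩ := c
  simp only at ht
  subst ht
  simp only [pot, tv] at hp
  have hq := hD.qF
  obtain ⟨h, c1, h2, h1 | ⟨-, ⟨-, -, -, h1⟩, -⟩⟩ := hs
  · cases h1 with
    | a i hi =>
      cases h2 with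
      | w s' j' j'' e => cases e
      | wp s' j' j'' j3 e => cases e
      | wz s' j' e => cases e
      | _ =>
        refine Or.inl ⟨s, j, rfl, hj, ?_⟩
        simp only [pot, tv] at *
        omega
    | f2 hi =>
      cases h2 with
      | w s' j' j'' e => cases e
      | wp s' j' j'' j3 e => cases e
      | wz s' j' e => cases e
      | _ =>
        refine Or.inl ⟨s, j, rfl, hj, ?_⟩
        simp only [pot, tv] at *
        omega
    | f1 hi =>
      cases h2 with
      | w s' j' j'' e => cases e
      | wp s' j' j'' j3 e => cases e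
      | wz s' j' e => cases e
      | _ =>
        refine Or.inl ⟨s, j, rfl, hj, ?_⟩
        simp only [pot, tv] at *
        omega
    | p s1 j1 j2 e h3 h4 =>
      cases e
      cases h2 with
      | w s' j' j'' e => cases e
      | wp s' j' j'' j3 e => cases e
      | wz s' j' e => cases e
      | _ =>
        refine Or.inl ⟨s, j2, rfl, h4, ?_⟩
        simp only [pot, tv] at *
        omega
    | pw s1 j1 j2 e h3 h4 =>
      cases e
      cases h2 with
      | w s' j' j'' e => cases e
      | wp s' j' j'' j3 e => cases e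
      | wz s' j' e => cases e
      | _ =>
        refine Or.inr (Or.inl ⟨s, j2, rfl, h4.ge, by omega, ?_⟩)
        simp only [pot, tv] at *
        constructor
        · omega
        · right; omega
  · exact absurd rfl (h1 s j)

theorem doom_z {Fm : ℕ} {c : Cfg U S D.m} (ht : c.tok = .z) (hp : pot c ≤ -2) : Doom D Fm c := by
  refine Or.inr (Or.inr ⟨ht, ?_⟩)
  by_cases hb : Busy c
  · right
    exact ⟨hb, by omega, Or.inr (by omega)⟩
  · left
    refine ⟨hb, Or.inl ?_⟩
    simp only [pot, ht, tv] at hp
    omega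

theorem Doom.step_w {Fm : ℕ} (hD : D.OK Fm) {c c' : Cfg U S D.m} {s : S} {j : Fin (D.m + 1)}
    (ht : c.tok = .w s j) (hj : 1 ≤ j.val) (hjq : j.val ≤ D.q) (hp : pot c + j.val ≤ Fm + 1)
    (hn : Busy c ∨ 1 ≤ c.g + c.th)
    (hs : CStep D c c') : Doom D Fm c' := by
  obtain ⟨tok, a, b, f2, f1, kp, g, th, o⟩ := c
  simp only at ht
  subst ht
  simp only [pot, tv] at hp
  have hq := hD.qF
  have hFF := hD.FF
  obtain ⟨h, c1, h2, h1 | ⟨-, ⟨e1, e2, e3, -⟩, e4⟩⟩ := hs
  · cases h1 with
    | p s1 j1 j2 e h3 h4 => cases e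
    | pw s1 j1 j2 e h3 h4 => cases e
    | a i hi =>
      cases h2 with
      | w s' j' j'' e e1 e2 =>
        cases e
        refine Or.inr (Or.inl ⟨s, j'', rfl, by omega, e2, ?_⟩)
        simp only [pot, tv] at *
        constructor
        · omega
        · right; omega
      | wp s' j' j'' j3 e e1 e2 e3 =>
        cases e
        have := hFF j'
        refine Or.inl ⟨j', j3, rfl, by omega, ?_⟩
        simp only [pot, tv] at *
        omega
      | wz s' j' e e1 e2 =>
        cases e
        apply doom_z D rfl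
        simp only [pot, tv] at *
        omega
      | idle e1 e2 e3 => simp [hot, isW] at e3
      | _ =>
        refine Or.inr (Or.inl ⟨s, j, rfl, hj, hjq, ?_⟩)
        simp only [pot, tv] at *
        constructor
        · omega
        · right; omega
    | f2 hi =>
      cases h2 with
      | w s' j' j'' e e1 e2 =>
        cases e
        refine Or.inr (Or.inl ⟨s, j'', rfl, by omega, e2, ?_⟩)
        simp only [pot, tv] at *
        constructor
        · omega
        · left; right; right; simp
      | wp s' j' j'' j3 e e1 e2 e3 =>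
        cases e
        have := hFF j'
        refine Or.inl ⟨j', j3, rfl, by omega, ?_⟩
        simp only [pot, tv] at *
        omega
      | wz s' j' e e1 e2 =>
        cases e
        apply doom_z D rfl
        simp only [pot, tv] at *
        omega
      | idle e1 e2 e3 => simp [hot, isW] at e3
      | _ =>
        refine Or.inr (Or.inl ⟨s, j, rfl, hj, hjq, ?_⟩)
        simp only [pot, tv] at *
        constructor
        · omega
        · left; right; right; simp
    | f1 hi =>
      cases h2 with
      | w s' j' j'' e e1 e2 =>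
        cases e
        refine Or.inr (Or.inl ⟨s, j'', rfl, by omega, e2, ?_⟩)
        simp only [pot, tv] at *
        constructor
        · omega
        · right; omega
      | wp s' j' j'' j3 e e1 e2 e3 =>
        cases e
        have := hFF j'
        refine Or.inl ⟨j', j3, rfl, by omega, ?_⟩
        simp only [pot, tv] at *
        omega
      | wz s' j' e e1 e2 =>
        cases e
        apply doom_z D rfl
        simp only [pot, tv] at *
        omega
      | idle e1 e2 e3 => simp [hot, isW] at e3
      | _ =>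
        refine Or.inr (Or.inl ⟨s, j, rfl, hj, hjq, ?_⟩)
        simp only [pot, tv] at *
        constructor
        · omega
        · right; omega
  · exfalso
    simp only [hot, isW] at e4
    simp only at e1 e2 e3 hn
    have nb : g + th = 0 := by
      cases h2 <;> omega
    rcases hn with (⟨i, hi⟩ | hi | hi) | hi
    · simp only at hi; rw [e1 i] at hi; omega
    · simp only at hi; omega
    · simp only at hi; omega
    · omega

theorem doom_z2 {Fm : ℕ} {c : Cfg U S D.m} (ht : c.tok = .z) (hp : pot c - c.th ≤ 1)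
    (hu : Units c ∨ pot c - c.th ≤ -2) (hb : Busy c ∨ 1 ≤ c.g) : Doom D Fm c := by
  refine Or.inr (Or.inr ⟨ht, ?_⟩)
  by_cases hb' : Busy c
  · exact Or.inr ⟨hb', hp, hu⟩
  · left
    refine ⟨hb', ?_⟩
    have h1 := hb.resolve_left hb'
    have h2 : c.f2 = 0 := by
      by_contra h
      exact hb' (Or.inr (Or.inl (by omega)))
    by_cases h3 : 2 ≤ c.g + c.th
    · exact Or.inl h3
    · right
      refine ⟨by omega, hu.resolve_right ?_⟩
      simp only [pot, ht, tv] at *
      omega

theorem Doom.step_z {Fm : ℕ} (hD : D.OK Fm) {c c' : Cfg U S D.m}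
    (ht : c.tok = .z) (hp : (¬ Busy c ∧ (2 ≤ c.g + c.th ∨ (c.th = 0 ∧ Units c))) ∨
    (Busy c ∧ pot c - c.th ≤ 1 ∧ (Units c ∨ pot c - c.th ≤ -2)))
    (hs : CStep D c c') : Doom D Fm c' := by
  obtain ⟨tok, a, b, f2, f1, kp, g, th, o⟩ := c
  simp only at ht
  subst ht
  have hn3 := hD.n3
  have hk3 := hD.nk3
  obtain ⟨h, c1, h2, h1 | ⟨e0, ⟨e1, e2, e3, -⟩, e4⟩⟩ := hs
  · have hB : Busy (S := S) (m := D.m) ⟨.z, a, b, f2, f1, kp, g, th, o⟩ := by
      cases h1 with
      | p s1 j1 j2 e h3 h4 => cases e
      | pw s1 j1 j2 e h3 h4 => cases e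
      | a i hi => exact Or.inl ⟨i, hi⟩
      | f2 hi => exact Or.inr (Or.inl hi)
      | f1 hi => exact Or.inr (Or.inr hi)
    obtain ⟨-, hp, hu⟩ := hp.resolve_left fun h => h.1 hB
    simp only [pot, tv] at hp hu
    cases h1 with
    | p s1 j1 j2 e h3 h4 => cases e
    | pw s1 j1 j2 e h3 h4 => cases e
    | a i hi =>
      cases h2 with
      | w s' j' j'' e e1 e2 => cases e
      | wp s' j' j'' j3 e e1 e2 e3 => cases e
      | wz s' j' e e1 e2 => cases e
      | b i' hi' =>
        apply doom_z2 D rfl
        · simp only [pot, tv] at *; omega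
        · left; left; exact ⟨i', by simp⟩
        · right; simp
      | v i' hi' =>
        have := hn3 i'
        apply doom_z2 D rfl
        · simp only [pot, tv] at *; omega
        · right; simp only [pot, tv] at *; omega
        · right; simp
      | vk hi' =>
        apply doom_z2 D rfl
        · simp only [pot, tv] at *; omega
        · right; simp only [pot, tv] at *; omega
        · right; simp
      | g hi' =>
        simp only at hi'
        apply doom_z2 D rfl
        · simp only [pot, tv] at *; omega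
        · left; right; left; exact ⟨i, by simp only [if_true]; omega⟩
        · right; simp only; omega
      | th hi' =>
        simp only at hi'
        apply doom_z2 D rfl
        · simp only [pot, tv] at *; omega
        · left; right; left; exact ⟨i, by simp only [if_true]; omega⟩
        · right; simp only; omega
      | idle e1 e2 e3 =>
        simp only [hot, isW] at e3
        apply doom_z2 D rfl
        · simp only [pot, tv] at *; omega
        · left; right; left; exact ⟨i, by simp only [if_true]; omega⟩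
        · right; simp only; omega
    | f2 hi =>
      simp only at hi
      cases h2 with
      | w s' j' j'' e e1 e2 => cases e
      | wp s' j' j'' j3 e e1 e2 e3 => cases e
      | wz s' j' e e1 e2 => cases e
      | b i' hi' =>
        apply doom_z2 D rfl
        · simp only [pot, tv] at *; omega
        · left; left; exact ⟨i', by simp⟩
        · left; right; right; simp
      | v i' hi' =>
        have := hn3 i'
        apply doom_z2 D rfl
        · simp only [pot, tv] at *; omega
        · right; simp only [pot, tv] at *; omega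
        · left; right; right; simp
      | vk hi' =>
        apply doom_z2 D rfl
        · simp only [pot, tv] at *; omega
        · right; simp only [pot, tv] at *; omega
        · left; right; right; simp
      | g hi' =>
        simp only at hi'
        apply doom_z2 D rfl
        · simp only [pot, tv] at *; omega
        · refine hu.imp (fun x => x) (fun x => ?_)
          simp only [pot, tv] at *; omega
        · left; right; right; simp
      | th hi' =>
        simp only at hi'
        apply doom_z2 D rfl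
        · simp only [pot, tv] at *; omega
        · refine hu.imp (fun x => x) (fun x => ?_)
          simp only [pot, tv] at *; omega
        · left; right; right; simp
      | idle e1 e2 e3 =>
        simp only [hot, isW] at e3
        apply doom_z2 D rfl
        · simp only [pot, tv] at *; omega
        · refine hu.imp (fun x => x) (fun x => ?_)
          simp only [pot, tv] at *; omega
        · left; right; right; simp
    | f1 hi =>
      simp only at hi
      cases h2 with
      | w s' j' j'' e e1 e2 => cases e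
      | wp s' j' j'' j3 e e1 e2 e3 => cases e
      | wz s' j' e e1 e2 => cases e
      | b i' hi' =>
        apply doom_z2 D rfl
        · simp only [pot, tv] at *; omega
        · left; left; exact ⟨i', by simp⟩
        · right; simp
      | v i' hi' =>
        have := hn3 i'
        apply doom_z2 D rfl
        · simp only [pot, tv] at *; omega
        · right; simp only [pot, tv] at *; omega
        · right; simp
      | vk hi' =>
        apply doom_z2 D rfl
        · simp only [pot, tv] at *; omega
        · right; simp only [pot, tv] at *; omega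
        · right; simp
      | g hi' =>
        simp only at hi'
        apply doom_z2 D rfl
        · simp only [pot, tv] at *; omega
        · refine hu.imp (fun x => x) (fun x => ?_)
          simp only [pot, tv] at *; omega
        · right; simp only; omega
      | th hi' =>
        simp only at hi'
        apply doom_z2 D rfl
        · simp only [pot, tv] at *; omega
        · refine hu.imp (fun x => x) (fun x => ?_)
          simp only [pot, tv] at *; omega
        · right; simp
      | idle e1 e2 e3 =>
        simp only [hot, isW] at e3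
        apply doom_z2 D rfl
        · simp only [pot, tv] at *; omega
        · refine hu.imp (fun x => x) (fun x => ?_)
          simp only [pot, tv] at *; omega
        · right; simp
  · subst e0
    simp only [hot, isW] at e4
    simp only at e1 e2 e3 hp
    have nb : ∀ b' kp' g' th', ¬ Busy (S := S) (m := D.m) ⟨.z, a, b', f2, f1, kp', g', th', o⟩ := by
      rintro b' kp' g' th' (⟨i, hi⟩ | hi | hi)
      · simp only at hi; rw [e1 i] at hi; omega
      · simp only at hi; omega
      · simp only at hi; omega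
    have hp := (hp.resolve_right fun h => nb _ _ _ _ h.1).2
    cases h2 with
    | w s' j' j'' e e1 e2 => cases e
    | wp s' j' j'' j3 e e1 e2 e3 => cases e
    | wz s' j' e e1 e2 => cases e
    | b i' hi' =>
      refine Or.inr (Or.inr ⟨rfl, Or.inr ⟨Or.inr (Or.inl (by simp)), ?_, Or.inl (Or.inl ⟨i', by simp⟩)⟩⟩)
      simp only [pot, tv] at *; omega
    | v i' hi' =>
      refine Or.inr (Or.inr ⟨rfl, Or.inl ⟨nb _ _ _ _, Or.inl ?_⟩⟩)
      have := hn3 i'
      simp only; omega
    | vk hi' =>
      refine Or.inr (Or.inr ⟨rfl, Or.inl ⟨nb _ _ _ _, Or.inl ?_⟩⟩)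
      simp only; omega
    | g hi' =>
      refine Or.inr (Or.inr ⟨rfl, Or.inl ⟨nb _ _ _ _, ?_⟩⟩)
      simp only at hi'
      refine Or.inr ⟨by simp only; omega, ?_⟩
      exact (hp.resolve_left (by omega)).2
    | th hi' =>
      simp only at hi'
      exfalso
      have := hp.resolve_left (by omega)
      omega
    | idle e1' e2' e3' =>
      exfalso
      simp only [hot, isW] at e3'
      obtain ⟨-, h5⟩ := hp.resolve_left (by omega)
      rcases h5 with ⟨i, hi⟩ | ⟨i, hi⟩ | hi
      · simp only at hi; rw [e1 i] at hi; omega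
      · simp only at hi; have := e1' i; simp only at this; omega
      · simp only at hi e2'; omega

section seg

variable [Fintype U]

/-- number of free steps left -/
def fr {S : Type} {m : ℕ} : Tok S m → ℤ
  | .p _ j => ((j.val - 2 : ℕ) : ℤ)
  | _ => 0

/-- relations between a configuration and the beginning of its segment; `E`, `e` is what has been
emitted -/
structure LI (F : ℤ) (b0 E : U → ℕ) (kp0 e : ℕ) (μ : U → ℕ) (mk i w z : ℕ)
    (c : Cfg U S D.m) : Prop where
  bal : ∀ k, c.a k + c.b k + μ k = b0 k + E k + (if k = D.d then w else 0)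
  bk : c.kp + mk = kp0 + e
  zz : z + c.th = i + ∑ k, μ k * D.n k + mk * D.nk
  pp : pot c + fr c.tok = F - z
  ii : 0 < i → 4 * b0 D.x ≤ w + 4 * c.a D.x + 4 * μ D.x
  ik : 0 < i → kp0 = mk

theorem sum_add_one (n μ : U → ℕ) (i : U) :
    ∑ k, (μ k + (if k = i then 1 else 0)) * n k = ∑ k, μ k * n k + n i := by
  simp only [add_mul, Finset.sum_add_distrib, ite_mul, one_mul, zero_mul, Finset.sum_ite_eq',
    Finset.mem_univ, if_true]

theorem half2 {Fm : ℕ} (hD : D.OK Fm) {F : ℤ} {b0 E : U → ℕ} {kp0 e : ℕ} {μ : U → ℕ}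
    {mk i w z : ℕ} {c c1 c' : Cfg U S D.m} {h : ℕ} {s : S} {j : Fin (D.m + 1)}
    (ht : c.tok = .p s j)
    (hL : LI D (F - 1) b0 E kp0 e μ mk i w z c1) (hb : ∀ k, c.b k + E k ≤ c1.b k)
    (hkp : c.kp + mk = kp0) (hkp1 : c.kp ≤ c1.kp) (hg : c.g ≤ c1.g) (hth : c.th = c1.th)
    (hid : (∀ k, c.b k = 0) → 4 * b0 D.x ≤ w + 4 * c1.a D.x + 4 * μ D.x)
    (h2 : H2 D c c1 h c') :
    ∃ μ' mk' i' z', LI D F b0 E kp0 e μ' mk' i' w z' c' ∧ c'.tok = c1.tok ∧ c'.o = c1.o ∧
      ∀ k, E k ≤ c'.b k := by
  obtain ⟨bal, bk, zz, pp, ii, ik⟩ := hL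
  have hn3 := hD.n3
  have hk3 := hD.nk3
  have hE : ∀ k, E k ≤ c1.b k := fun k => by have := hb k; omega
  cases h2 with
  | w s' j' j'' e => rw [ht] at e; cases e
  | wp s' j' j'' j3 e => rw [ht] at e; cases e
  | wz s' j' e => rw [ht] at e; cases e
  | b i0 hi =>
    refine ⟨μ, mk, i, z, ⟨?_, bk, zz, ?_, ?_, ik⟩, rfl, rfl, fun k => ?_⟩
    · intro k
      have h1 := bal k
      have h2 := hb k
      simp only
      by_cases hk : k = i0
      · subst hk; simp only [if_true]; omega
      · simp only [if_neg hk]; omega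
    · simp only [pot] at *; push_cast; omega
    · intro h3
      have := ii h3
      simp only
      split_ifs <;> omega
    · have h2 := hb k
      simp only
      by_cases hk : k = i0
      · subst hk; simp only [if_true]; omega
      · simp only [if_neg hk]; omega
  | v i0 hi =>
    refine ⟨fun k => μ k + (if k = i0 then 1 else 0), mk, i, z + 1, ⟨?_, bk, ?_, ?_, ?_, ik⟩, rfl,
      rfl, fun k => ?_⟩
    · intro k
      have h1 := bal k
      have h2 := hb k
      simp only
      by_cases hk : k = i0
      · subst hk; simp only [if_true]; omega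
      · simp only [if_neg hk]; omega
    · have := hn3 i0
      simp only [sum_add_one]
      omega
    · simp only [pot] at *; push_cast; omega
    · intro h3
      have := ii h3
      simp only
      split_ifs <;> omega
    · have h2 := hb k
      simp only
      by_cases hk : k = i0
      · subst hk; simp only [if_true]; omega
      · simp only [if_neg hk]; omega
  | vk hi =>
    refine ⟨μ, mk + 1, i, z + 1, ⟨bal, ?_, ?_, ?_, ii, ?_⟩, rfl, rfl, hE⟩
    · simp only; omega
    · simp only
      rw [add_mul, one_mul]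
      omega
    · simp only [pot] at *; push_cast; omega
    · intro h3
      have := ik h3
      omega
  | g hi =>
    refine ⟨μ, mk, i, z, ⟨bal, bk, zz, ?_, ii, ik⟩, rfl, rfl, hE⟩
    simp only [pot] at *; push_cast; omega
  | th hi =>
    refine ⟨μ, mk, i, z + 1, ⟨bal, bk, ?_, ?_, ii, ik⟩, rfl, rfl, hE⟩
    · simp only; omega
    · simp only [pot] at *; push_cast; omega
  | idle e1 e2 e3 =>
    refine ⟨μ, mk, i + 1, z + 1, ⟨bal, bk, ?_, ?_, fun _ => hid e1, fun _ => ?_⟩, rfl, rfl, hE⟩
    · omega
    · push_cast; omega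
    · omega

theorem half1 {Fm : ℕ} (hD : D.OK Fm) {F : ℤ} {b0 : U → ℕ} {kp0 : ℕ} {μ : U → ℕ}
    {mk i w z : ℕ} {c c1 : Cfg U S D.m} {s : S} {j : Fin (D.m + 1)}
    (ht : c.tok = .p s j) (hj : 1 ≤ j.val)
    (hL : LI D F b0 (fun _ => 0) kp0 0 μ mk i w z c) (h1 : H1 D c c1) :
    (∃ (w' : ℕ), ((∃ j', c1.tok = .p s j' ∧ 1 ≤ j'.val ∧
          LI D (F - 1) b0 (fun _ => 0) kp0 0 μ mk i w' z c1 ∧ c1.o = c.o) ∨
        (∃ j', c1.tok = .w s j' ∧ j'.val = 1 ∧
          LI D (F - 1) b0 (D.em s) kp0 (D.ek s) μ mk i w' z c1 ∧ c1.o = c.o + D.eo s ∧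
          ∀ k, c.b k + D.em s k ≤ c1.b k)) ∧
      (∀ k, c.b k ≤ c1.b k) ∧ c.kp ≤ c1.kp ∧ c.g ≤ c1.g ∧ c.th = c1.th ∧
      ((∀ k, c.b k = 0) → 4 * b0 D.x ≤ w' + 4 * c1.a D.x + 4 * μ D.x)) := by
  have hxd := hD.xd
  obtain ⟨bal, bk, zz, pp, ii, ik⟩ := hL
  have hid : (∀ k, c.b k = 0) → 4 * b0 D.x ≤ w + 4 * c.a D.x + 4 * μ D.x := by
    intro h
    have h2 := bal D.x
    rw [h D.x, if_neg hxd] at h2
    omega
  cases h1 with
  | a i0 hi =>
    refine ⟨w + (if i0 = D.x then 4 else 0), Or.inl ⟨j, ht, hj, ⟨?_, bk, zz, ?_, ?_, ik⟩, rfl⟩,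
      ?_, le_refl _, by simp, rfl, ?_⟩
    · intro k
      have h1 := bal k
      simp only at *
      by_cases hk : k = i0
      · subst hk
        simp only [if_true]
        by_cases hkx : k = D.x
        · subst hkx
          simp only [if_neg hxd, hxd, false_and, if_false] at *
          omega
        · by_cases hkd : k = D.d
          · subst hkd
            simp only [hkx, if_false, and_false, if_true] at *
            omega
          · simp only [hkx, hkd, if_false, and_false] at *
            omega
      · simp only [if_neg hk]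
        by_cases hkd : k = D.d
        · subst hkd
          simp only [if_true, true_and] at *
          split_ifs <;> omega
        · simp only [if_neg hkd, hkd, false_and, if_false] at *
          omega
    · simp only [pot] at *; push_cast; omega
    · intro h3
      have h4 := ii h3
      simp only
      by_cases hx : i0 = D.x
      · subst hx; simp only [if_true]; omega
      · rw [if_neg hx, if_neg (fun e => hx e.symm)]; omega
    · intro k
      simp only
      omega
    · intro h3
      have h4 := hid h3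
      simp only
      by_cases hx : i0 = D.x
      · subst hx; simp only [if_true]; omega
      · rw [if_neg hx, if_neg (fun e => hx e.symm)]; omega
  | f2 hi =>
    refine ⟨w, Or.inl ⟨j, ht, hj, ⟨bal, bk, zz, ?_, ii, ik⟩, rfl⟩, fun k => le_refl _, le_refl _,
      le_refl _, rfl, hid⟩
    simp only [pot] at *; push_cast; omega
  | f1 hi =>
    refine ⟨w, Or.inl ⟨j, ht, hj, ⟨bal, bk, zz, ?_, ii, ik⟩, rfl⟩, fun k => le_refl _, le_refl _,
      by simp, rfl, hid⟩
    simp only [pot] at *; push_cast; omega
  | p s1 j1 j2 e h3 h4 =>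
    rw [ht] at e
    cases e
    refine ⟨w, Or.inl ⟨j2, rfl, h4, ⟨bal, bk, zz, ?_, ii, ik⟩, rfl⟩, fun k => le_refl _, le_refl _,
      le_refl _, rfl, hid⟩
    simp only [pot, ht, tv, fr] at *; omega
  | pw s1 j1 j2 e h3 h4 =>
    rw [ht] at e
    cases e
    refine ⟨w, Or.inr ⟨j2, rfl, h4, ⟨?_, ?_, zz, ?_, ii, ik⟩, rfl, fun k => le_refl _⟩,
      fun k => by simp,
      by simp, le_refl _, rfl, hid⟩
    · intro k
      have := bal k
      simp only at *
      omega
    · simp only; omega
    · simp only [pot, ht, tv, fr] at *; omega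

end seg

theorem Doom.step {Fm : ℕ} (hD : D.OK Fm) {c c' : Cfg U S D.m} (h : Doom D Fm c)
    (hs : CStep D c c') : Doom D Fm c' := by
  rcases h with ⟨s, j, h1, h2, h3⟩ | ⟨s, j, h1, h2, h3, h4, h5⟩ | ⟨h1, h2⟩
  · exact Doom.step_p D hD h1 h2 h3 hs
  · exact Doom.step_w D hD h1 h2 h3 h4 h5 hs
  · exact Doom.step_z D hD h1 h2 hs

section inv

variable [Fintype U]

/-- the invariant of phase p -/
def PInv (Know : S → (U → ℕ) → ℕ → ℕ → Prop) (c : Cfg U S D.m) : Prop :=
  ∃ (s : S) (j : Fin (D.m + 1)) (b0 : U → ℕ) (kp0 : ℕ) (μ : U → ℕ) (mk i w z : ℕ),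
    c.tok = .p s j ∧ 1 ≤ j.val ∧ Know s b0 kp0 c.o ∧
    LI D (D.F s) b0 (fun _ => 0) kp0 0 μ mk i w z c

/-- nothing but units and tokens -/
def Clean {m : ℕ} (c : Cfg U S m) : Prop :=
  (∀ i, c.a i = 0) ∧ c.f2 = 0 ∧ c.f1 = 0 ∧ c.g = 0 ∧ c.th = 0

/-- the invariant of windows -/
def WInv (Know : S → (U → ℕ) → ℕ → ℕ → Prop) (Good : ℕ → Prop) (c : Cfg U S D.m) : Prop :=
  ∃ (s : S) (j : Fin (D.m + 1)), c.tok = .w s j ∧ Clean c ∧
    (∀ s', D.succ s s' → Know s' c.b c.kp c.o) ∧
    (D.fin s → (∀ k, c.b k = 0) → c.kp = 0 → Good c.o)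

/-- the invariant at the end -/
def EInv (Good : ℕ → Prop) (c : Cfg U S D.m) : Prop :=
  c.tok = .z ∧ Clean c ∧ (∀ k, c.b k = 0) ∧ c.kp = 0 ∧ Good c.o

theorem PInv.step {Fm : ℕ} (hD : D.OK Fm) {Know : S → (U → ℕ) → ℕ → ℕ → Prop} {Good : ℕ → Prop}
    (h1 : ∀ s b kp o b' kp' o', Know s b kp o → Macro D s b kp o b' kp' o' →
      (∀ s', D.succ s s' → Know s' b' kp' o') ∧
        (D.fin s → (∀ k, b' k = 0) → kp' = 0 → Good o'))
    {c c' : Cfg U S D.m} (h : PInv D Know c) (hs : CStep D c c') :
    Doom D Fm c' ∨ PInv D Know c' ∨ WInv D Know Good c' := by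
  obtain ⟨s, j, b0, kp0, μ, mk, i, w, z, ht, hj, hk, hL⟩ := h
  obtain ⟨h, c1, h2, h3 | ⟨-, ⟨-, -, -, h3⟩, -⟩⟩ := hs
  · have hb := hL.bk
    obtain ⟨w', (⟨j', e1, e2, e3, e4⟩ | ⟨j', e1, e2, e3, e4, e5⟩), f1, f2, f3, f4, f5⟩ :=
      half1 D hD ht hj hL h3
    · obtain ⟨μ', mk', i', z', g1, g2, g3, -⟩ :=
        half2 D hD ht e3 (fun k => f1 k) (by omega) f2 f3 f4 f5 h2
      right; left
      exact ⟨s, j', b0, kp0, μ', mk', i', w', z', g2.trans e1, e2, by rw [g3, e4]; exact hk, g1⟩
    · obtain ⟨μ', mk', i', z', g1, g2, g3, g4⟩ :=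
        half2 D hD ht e3 e5 (by omega) f2 f3 f4 f5 h2
      rw [e1] at g2
      obtain ⟨bal, bk, zz, pp, ii, ik⟩ := g1
      rw [g2] at pp
      simp only [fr] at pp
      by_cases hc : Clean c'
      · right; right
        have hc' := hc
        obtain ⟨c1, c2, c3, c4, c5⟩ := hc
        have hm : Macro D s b0 kp0 c.o c'.b c'.kp c'.o := by
          refine ⟨μ', mk', i', w', ?_, ?_, bk, by rw [g3, e4], ?_, ik, g4⟩
          · simp only [pot, g2, tv, c2, c4] at pp
            rw [c5] at zz
            omega
          · intro k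
            have := bal k
            rw [c1 k] at this
            omega
          · intro h
            have := ii h
            rw [c1] at this
            omega
        exact ⟨s, j', g2, hc', h1 _ _ _ _ _ _ _ hk hm⟩
      · left
        have hF := hD.FF s
        have hq := hD.qF
        refine Or.inr (Or.inl ⟨s, j', g2, e2.ge, by omega, by omega, ?_⟩)
        by_contra hn
        push Not at hn
        obtain ⟨n1, n2⟩ := hn
        apply hc
        refine ⟨fun i => ?_, ?_, ?_, by omega, by omega⟩
        · by_contra h; exact n1 (Or.inl ⟨i, by omega⟩)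
        · by_contra h; exact n1 (Or.inr (Or.inl (by omega)))
        · by_contra h; exact n1 (Or.inr (Or.inr (by omega)))
  · exact absurd ht (h3 s j)

theorem WInv.step {Fm : ℕ} (hD : D.OK Fm) {Know : S → (U → ℕ) → ℕ → ℕ → Prop} {Good : ℕ → Prop}
    {c c' : Cfg U S D.m} (h : WInv D Know Good c) (hs : CStep D c c') :
    Doom D Fm c' ∨ PInv D Know c' ∨ WInv D Know Good c' ∨ EInv D Good c' := by
  obtain ⟨s, j, ht, ⟨a1, a2, a3, a4, a5⟩, b1, b2⟩ := h
  obtain ⟨h, c1, h2, h3 | ⟨e0, -, e4⟩⟩ := hs
  · exfalso
    cases h3 with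
    | a i hi => rw [a1 i] at hi; omega
    | f2 hi => omega
    | f1 hi => omega
    | p s1 j1 j2 e h3 h4 => rw [ht] at e; cases e
    | pw s1 j1 j2 e h3 h4 => rw [ht] at e; cases e
  · subst e0
    simp only [hot, ht, isW] at e4
    cases h2 with
    | w s1 j1 j2 e f1 f2 =>
      rw [ht] at e
      cases e
      right; right; left
      exact ⟨s, j2, rfl, ⟨a1, a2, a3, a4, a5⟩, b1, b2⟩
    | wp s1 s2 j1 j2 e f1 f2 f3 =>
      rw [ht] at e
      cases e
      right; left
      refine ⟨s2, j2, c1.b, c1.kp, fun _ => 0, 0, 0, 0, 0, rfl, by omega, b1 s2 f2, ?_⟩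
      refine ⟨?_, rfl, ?_, ?_, ?_, ?_⟩
      · intro k
        simp only [a1 k]
        split_ifs <;> omega
      · simp [a5]
      · simp only [pot, a2, a4, tv, fr]
        omega
      · intro h; omega
      · intro h; omega
    | wz s1 j1 e f1 f2 =>
      by_cases hu : Units c1
      · left
        refine Or.inr (Or.inr ⟨rfl, Or.inl ⟨?_, Or.inr ⟨a5, hu⟩⟩⟩)
        rintro (⟨i, hi⟩ | hi | hi)
        · simp only at hi; rw [a1 i] at hi; omega
        · simp only at hi; omega
        · simp only at hi; omega
      · right; right; right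
        have hb : ∀ k, c1.b k = 0 := by
          intro k
          by_contra h
          exact hu (Or.inr (Or.inl ⟨k, by omega⟩))
        have hk : c1.kp = 0 := by
          by_contra h
          exact hu (Or.inr (Or.inr (by omega)))
        rw [ht] at e
        cases e
        exact ⟨rfl, ⟨a1, a2, a3, a4, a5⟩, hb, hk, b2 f2 hb hk⟩
    | b i hi => omega
    | v i hi => omega
    | vk hi => omega
    | g hi => omega
    | th hi => omega
    | idle f1 f2 f3 => omega

theorem EInv.halt {Good : ℕ → Prop} {c : Cfg U S D.m} (h : EInv D Good c) (c' : Cfg U S D.m) :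
    CStep D c c' → c' = c := by
  rintro ⟨hn, c1, h2, h3 | ⟨e0, -, e4⟩⟩
  · exfalso
    obtain ⟨h1, ⟨a1, a2, a3, a4, a5⟩, -⟩ := h
    cases h3 with
    | a i hi => rw [a1 i] at hi; omega
    | f2 hi => omega
    | f1 hi => omega
    | p s1 j1 j2 e h3 h4 => rw [h1] at e; cases e
    | pw s1 j1 j2 e h3 h4 => rw [h1] at e; cases e
  · obtain ⟨h1, ⟨a1, a2, a3, a4, a5⟩, hb, hk, -⟩ := h
    subst e0
    cases h2 with
    | w s1 j1 j2 e f1 f2 => rw [h1] at e; cases e
    | wp s1 s2 j1 j2 e f1 f2 f3 => rw [h1] at e; cases e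
    | wz s1 j1 e f1 f2 => rw [h1] at e; cases e
    | b i hi => rw [hb i] at hi; omega
    | v i hi => rw [hb i] at hi; omega
    | vk hi => omega
    | g hi => omega
    | th hi => omega
    | idle f1 f2 f3 => rfl

theorem sound {Fm : ℕ} (hD : D.OK Fm)
    (Know : S → (U → ℕ) → ℕ → ℕ → Prop) (Good : ℕ → Prop) (h0 : Know D.s0 (fun _ => 0) 0 0)
    (h1 : ∀ s b kp o b' kp' o', Know s b kp o → Macro D s b kp o b' kp' o' →
      (∀ s', D.succ s s' → Know s' b' kp' o') ∧
        (D.fin s → (∀ k, b' k = 0) → kp' = 0 → Good o'))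
    {j : Fin (D.m + 1)} (hj : j.val = D.F D.s0 + 2) {c : Cfg U S D.m}
    (hc : ReflTransGen (CStep D) (startC D (fun _ => 0) 0 0 D.s0 j) c) (hh : CHalt c) :
    Good c.o := by
  have key : Doom D Fm c ∨ PInv D Know c ∨ WInv D Know Good c ∨ EInv D Good c := by
    clear hh
    induction hc with
    | refl =>
      right; left
      refine ⟨D.s0, j, fun _ => 0, 0, fun _ => 0, 0, 0, 0, 0, rfl, by omega, h0, ?_⟩
      refine ⟨?_, rfl, ?_, ?_, ?_, ?_⟩
      · intro k
        simp [startC]
      · simp [startC]
      · simp only [startC, pot, tv, fr]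
        push_cast
        omega
      · intro h; omega
      · intro h; omega
    | tail hc hs ih =>
      rcases ih with h | h | h | h
      · exact Or.inl (h.step D hD hs)
      · rcases h.step D hD h1 hs with h | h | h
        · exact Or.inl h
        · exact Or.inr (Or.inl h)
        · exact Or.inr (Or.inr (Or.inl h))
      · exact h.step D hD hs
      · rw [h.halt D _ hs]
        exact Or.inr (Or.inr (Or.inr h))
  rcases key with h | h | h | h
  · exact absurd hh (fun hh => h.not_halt D hh)
  · obtain ⟨s, j, _, _, _, _, _, _, _, ht, _⟩ := h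
    exact absurd ht (hh.1.2.2.2 s j)
  · obtain ⟨s, j, ht, _⟩ := h
    have := hh.2.1
    simp [hot, ht, isW] at this
  · exact h.2.2.2.2

end inv

end Pool.Agent.H700R2.Pcat
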